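import Pool.Agent.TZ.Base

set_option autoImplicit false

/-! Orbits of congruence subgroups. -/

namespace Pool.Agent.TZ

variable {o : Type} [CommRing o] [IsDomain o] [IsDiscreteValuationRing o] {p q : ℕ}

theorem gaPowComm {A : Type} [CommRing A] {p : ℕ} (hp : Odd p) {c : ℕ} (hc : 1 ≤ c) (T : A)
    (b : ℕ) : ∃ Q : A, (1 + (p : A) ^ c * T) ^ p ^ b =
      1 + (p : A) ^ (c + b) * T + (p : A) ^ (c + b + 1) * Q := by
  induction b with
  | zero => exact ⟨0, by simp⟩
  | succ b ih =>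
    obtain ⟨Q, hQ⟩ := ih
    obtain ⟨e, he⟩ : ∃ e, c + b = e + 1 := ⟨c + b - 1, by omega⟩
    have h1 := odd_sq_dvd_geom_sum₂_sub (R := A) (a := 1) (b := (p : A) ^ e * (T + (p : A) * Q)) hp
    obtain ⟨r, hr⟩ := h1
    simp only [one_pow, mul_one] at hr
    have h2 : (1 + (p : A) * ((p : A) ^ e * (T + (p : A) * Q))) ^ p - 1 =
        (p : A) * ((p : A) ^ e * (T + (p : A) * Q)) * ((p : A) + (p : A) ^ 2 * r) := by
      rw [← sub_eq_iff_eq_add'.mp hr]
      have h3 := Commute.geom_sum₂_mul (Commute.one_right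
        (1 + (p : A) * ((p : A) ^ e * (T + (p : A) * Q)))) p
      simp only [one_pow, mul_one] at h3
      rw [← h3]
      ring
    refine ⟨Q + (T + (p : A) * Q) * r, ?_⟩
    have h4 : (1 + (p : A) ^ c * T) ^ p ^ b = 1 + (p : A) * ((p : A) ^ e * (T + (p : A) * Q)) := by
      rw [hQ, he]
      ring
    rw [pow_succ, pow_mul, h4, sub_eq_iff_eq_add.mp h2, ← add_assoc c b 1, he]
    ring

omit [IsDomain o] [IsDiscreteValuationRing o] in
theorem gaPow {d : ℕ} {p : ℕ} (hp : Odd p) {c : ℕ} (hc : 1 ≤ c) (X : Matrix (Fin d) (Fin d) o)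
    (b : ℕ) : ∃ Y : Matrix (Fin d) (Fin d) o, (1 + (p : o) ^ c • X) ^ p ^ b =
      1 + (p : o) ^ (c + b) • X + (p : o) ^ (c + b + 1) • Y := by
  obtain ⟨Q, hQ⟩ := gaPowComm (A := Polynomial o) hp hc Polynomial.X b
  refine ⟨Polynomial.aeval X Q, ?_⟩
  have h := congrArg (Polynomial.aeval X) hQ
  have hcast : ∀ k : ℕ, ((p : Polynomial o)) ^ k = Polynomial.C ((p : o) ^ k) := by
    intro k
    simp
  rw [hcast, hcast, hcast] at h
  simp only [map_add, map_mul, map_pow, map_one, Polynomial.aeval_X, Polynomial.aeval_C] at h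
  simp only [← map_pow] at h
  simp only [Algebra.smul_def]
  exact h

omit [IsDomain o] [IsDiscreteValuationRing o] in
theorem gaMono {d m n : ℕ} (hmn : m ≤ n) : Gam o p d n ≤ Gam o p d m := by
  rintro g ⟨X, hX⟩
  refine ⟨(p : o) ^ (n - m) • X, ?_⟩
  rw [hX, smul_smul, ← pow_add, Nat.add_sub_cancel' hmn]

omit [IsDomain o] [IsDiscreteValuationRing o] in
theorem gaPowMem (hp : Odd p) {d c : ℕ} (hc : 1 ≤ c) {g : (Matrix (Fin d) (Fin d) o)ˣ}
    (hg : g ∈ Gam o p d c) (b : ℕ) : g ^ p ^ b ∈ Gam o p d (c + b) := by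
  obtain ⟨X, hX⟩ := hg
  obtain ⟨Y, hY⟩ := gaPow hp hc X b
  refine ⟨X + (p : o) • Y, ?_⟩
  rw [Units.val_pow_eq_pow_val, hX, hY, smul_add, smul_smul, ← pow_succ, add_assoc]

theorem gaUnit (h : RingHyp o p q) {d c : ℕ} (hc : 1 ≤ c) (X : Matrix (Fin d) (Fin d) o) :
    IsUnit (1 + (p : o) ^ c • X) := by
  rw [Matrix.isUnit_iff_isUnit_det]
  obtain ⟨e, rfl⟩ : ∃ e, c = e + 1 := ⟨c - 1, by omega⟩
  rw [Matrix.det_one_add_smul]
  have hnu : ¬ IsUnit (p : o) := h.irr.not_isUnit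
  have hmem : (p : o) ∈ IsLocalRing.maximalIdeal o := hnu
  generalize Polynomial.eval ((p : o) ^ (e + 1))
    (Matrix.det (1 + (Polynomial.X : Polynomial o) • X.map Polynomial.C)).divX.divX = t
  rw [show (1 : o) + Matrix.trace X * (p : o) ^ (e + 1) + t * ((p : o) ^ (e + 1)) ^ 2 =
    1 - (-((p : o) ^ e * (Matrix.trace X + t * (p : o) ^ (e + 1)))) * (p : o) by ring]
  exact IsLocalRing.isUnit_one_sub_self_of_mem_nonunits _
    (Ideal.mul_mem_left _ _ hmem)

omit [IsDomain o] [IsDiscreteValuationRing o] in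
theorem gaNormal {d m : ℕ} {g k : (Matrix (Fin d) (Fin d) o)ˣ} (hk : k ∈ Gam o p d m) :
    g * k * g⁻¹ ∈ Gam o p d m := by
  obtain ⟨X, hX⟩ := hk
  refine ⟨(g : Matrix (Fin d) (Fin d) o) * X *
    ((g⁻¹ : (Matrix (Fin d) (Fin d) o)ˣ) : Matrix (Fin d) (Fin d) o), ?_⟩
  rw [Units.val_mul, Units.val_mul, hX, mul_add, add_mul, mul_one, Units.mul_inv,
    Matrix.mul_smul, Matrix.smul_mul]

theorem gaFiniteIndex (h : RingHyp o p q) (d m : ℕ) : (Gam o p d m).FiniteIndex := by
  have hq : Finite (o ⧸ Ideal.span {(p : o)}) := by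
    apply Nat.finite_of_card_ne_zero
    rw [h.card]
    have := h.one_lt
    omega
  have hq2 : Finite (o ⧸ Ideal.span {(p : o)} ^ m) :=
    Ideal.finite_quotient_pow (IsNoetherian.noetherian _) m
  let f : Matrix (Fin d) (Fin d) o →+* Matrix (Fin d) (Fin d) (o ⧸ Ideal.span {(p : o)} ^ m) :=
    RingHom.mapMatrix (Ideal.Quotient.mk _)
  let F : (Matrix (Fin d) (Fin d) o)ˣ →*
      (Matrix (Fin d) (Fin d) (o ⧸ Ideal.span {(p : o)} ^ m))ˣ := Units.map f.toMonoidHom
  have hfin : Finite (Matrix (Fin d) (Fin d) (o ⧸ Ideal.span {(p : o)} ^ m))ˣ := by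
    have : Finite (Matrix (Fin d) (Fin d) (o ⧸ Ideal.span {(p : o)} ^ m)) := by
      unfold Matrix
      infer_instance
    infer_instance
  have hker : F.ker ≤ Gam o p d m := by
    intro g hg
    have hg2 : ∀ i j, (g : Matrix (Fin d) (Fin d) o) i j - (1 : Matrix (Fin d) (Fin d) o) i j ∈
        Ideal.span {(p : o)} ^ m := by
      intro i j
      have h1 : f (g : Matrix (Fin d) (Fin d) o) = 1 := by
        have := congrArg Units.val (MonoidHom.mem_ker.mp hg)
        simpa [F] using this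
      have h2 : f (g : Matrix (Fin d) (Fin d) o) = f 1 := by rw [h1, map_one]
      have h3 := congrFun (congrFun h2 i) j
      exact (Ideal.Quotient.eq).mp h3
    rw [Ideal.span_singleton_pow] at hg2
    have hg3 : ∀ i j, ∃ c : o, (g : Matrix (Fin d) (Fin d) o) i j -
        (1 : Matrix (Fin d) (Fin d) o) i j = (p : o) ^ m * c := by
      intro i j
      exact Ideal.mem_span_singleton.mp (hg2 i j)
    choose X hX using hg3
    refine ⟨X, ?_⟩
    ext i j
    rw [Matrix.add_apply, Matrix.smul_apply, smul_eq_mul, ← hX i j]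
    ring
  have hF : F.ker.FiniteIndex := inferInstance
  exact Subgroup.finiteIndex_of_le hker

/-- The orbit of a point fixed by some congruence subgroup has `p ^ j` elements, and the point is
fixed by the congruence subgroup of level `N + j`. -/
theorem orbit_lemma (h : RingHyp o p q) (hp : p ≠ 2) {d N : ℕ} (hN : 1 ≤ N) {Ω : Type}
    [MulAction (Gam o p d N) Ω] (ω : Ω) (m : ℕ)
    (hm : ∀ g : Gam o p d N, (g : (Matrix (Fin d) (Fin d) o)ˣ) ∈ Gam o p d m → g • ω = ω) :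
    ∃ j : ℕ, Nat.card (MulAction.orbit (Gam o p d N) ω) = p ^ j ∧
      ∀ g : Gam o p d N, (g : (Matrix (Fin d) (Fin d) o)ˣ) ∈ Gam o p d (N + j) → g • ω = ω := by
  have hodd : Odd p := h.prime.odd_of_ne_two hp
  have : Fact p.Prime := ⟨h.prime⟩
  set S : Subgroup (Gam o p d N) := MulAction.stabilizer (Gam o p d N) ω with hS
  let K : Subgroup (Gam o p d N) := (Gam o p d m).subgroupOf (Gam o p d N)
  have hKS : K ≤ S := by
    intro g hg
    exact hm g (Subgroup.mem_subgroupOf.mp hg)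
  have : K.Normal := by
    constructor
    intro k hk g
    rw [Subgroup.mem_subgroupOf] at hk ⊢
    exact gaNormal hk
  have : (Gam o p d m).FiniteIndex := gaFiniteIndex h d m
  have : K.FiniteIndex := inferInstance
  have hpow : ∀ (g : Gam o p d N), g ^ p ^ m ∈ K := by
    intro g
    rw [Subgroup.mem_subgroupOf]
    have := gaPowMem hodd hN g.2 m
    exact gaMono (by omega) this
  have hPG : IsPGroup p (Gam o p d N ⧸ K) := by
    intro x
    obtain ⟨g, rfl⟩ := QuotientGroup.mk_surjective x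
    refine ⟨m, ?_⟩
    rw [← QuotientGroup.mk_pow, QuotientGroup.eq_one_iff]
    exact hpow g
  have hSidx : S.index = (S.map (QuotientGroup.mk' K)).index := by
    rw [Subgroup.index_map, QuotientGroup.ker_mk', sup_eq_left.mpr hKS,
      QuotientGroup.range_mk', Subgroup.index_top, mul_one]
  have : Finite (Gam o p d N ⧸ K) := Subgroup.finite_quotient_of_finiteIndex
  obtain ⟨j, hj⟩ : ∃ j, S.index = p ^ j := by
    rw [hSidx]
    exact hPG.index _
  refine ⟨j, ?_, ?_⟩
  · rw [← hj, hS, MulAction.index_stabilizer]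
    rfl
  have hfix : ∀ g : Gam o p d N, g ^ p ^ j ∈ S := by
    intro g
    obtain ⟨n, hn0, hn1, hn2⟩ := Subgroup.exists_pow_mem_of_index_ne_zero
      (H := S) (by rw [hj]; exact pow_ne_zero _ h.prime.ne_zero) g
    have hpm : g ^ p ^ m ∈ S := hKS (hpow g)
    obtain ⟨i, hi, hi2⟩ := (Nat.dvd_prime_pow h.prime).mp (Nat.gcd_dvd_right n (p ^ m))
    have hle : p ^ i ≤ p ^ j := by
      rw [← hi2, ← hj]
      exact le_trans (Nat.le_of_dvd hn0 (Nat.gcd_dvd_left _ _)) hn1
    have hij : i ≤ j := (Nat.pow_le_pow_iff_right h.prime.one_lt).mp hle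
    have hmem : g ^ p ^ i ∈ S := by
      rw [← hi2, ← zpow_natCast, Nat.gcd_eq_gcd_ab, zpow_add, zpow_mul, zpow_mul, zpow_natCast,
        zpow_natCast]
      exact S.mul_mem (S.zpow_mem hn2 _) (S.zpow_mem hpm _)
    obtain ⟨t, rfl⟩ := Nat.exists_eq_add_of_le hij
    rw [pow_add, pow_mul]
    exact S.pow_mem hmem _
  have key : ∀ k n : ℕ, N + j ≤ n → m ≤ n + k → ∀ g : Gam o p d N,
      (g : (Matrix (Fin d) (Fin d) o)ˣ) ∈ Gam o p d n → g ∈ S := by
    intro k
    induction k with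
    | zero =>
      intro n _ h2 g hg
      exact hm g (gaMono (by omega) hg)
    | succ k ih =>
      intro n h1 h2 g hg
      obtain ⟨X, hX⟩ := hg
      obtain ⟨u, hu⟩ := gaUnit h (c := n - j) (by omega) X
      have hu1 : u ∈ Gam o p d (n - j) := ⟨X, hu⟩
      have hu2 : u ∈ Gam o p d N := gaMono (by omega) hu1
      obtain ⟨Y, hY⟩ := gaPow hodd (c := n - j) (by omega) X j
      rw [Nat.sub_add_cancel (by omega : j ≤ n)] at hY
      let U : Gam o p d N := ⟨u, hu2⟩
      have hU : U ^ p ^ j ∈ S := hfix U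
      have hmem : ((g * (U ^ p ^ j)⁻¹ : Gam o p d N) : (Matrix (Fin d) (Fin d) o)ˣ) ∈
          Gam o p d (n + 1) := by
        refine ⟨-(Y * (((u ^ p ^ j)⁻¹ : (Matrix (Fin d) (Fin d) o)ˣ) :
          Matrix (Fin d) (Fin d) o)), ?_⟩
        have hval : ((g * (U ^ p ^ j)⁻¹ : Gam o p d N) : (Matrix (Fin d) (Fin d) o)ˣ) =
            (g : (Matrix (Fin d) (Fin d) o)ˣ) * (u ^ p ^ j)⁻¹ := rfl
        rw [hval, Units.val_mul]
        have h5 : ((g : (Matrix (Fin d) (Fin d) o)ˣ) : Matrix (Fin d) (Fin d) o) =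
            ((u ^ p ^ j : (Matrix (Fin d) (Fin d) o)ˣ) : Matrix (Fin d) (Fin d) o) -
              (p : o) ^ (n + 1) • Y := by
          rw [Units.val_pow_eq_pow_val, hu, hY, hX]
          abel
        rw [h5, sub_mul, Units.mul_inv, smul_neg, Matrix.smul_mul, sub_eq_add_neg]
      have h6 := ih (n + 1) (by omega) (by omega) _ hmem
      have h7 : g = g * (U ^ p ^ j)⁻¹ * U ^ p ^ j := by group
      rw [h7]
      exact S.mul_mem h6 hU
  intro g hg
  exact key m (N + j) le_rfl (by omega) g hg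

end Pool.Agent.TZ
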