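import Pool.Agent.TZ.Base

set_option autoImplicit false

/-! Congruences between generating functions. -/

namespace Pool.Agent.TZ

/-- Modulo every power of `p`, both series are polynomials with the same value at `1`. -/
def PadicEq (p : ℕ) (F G : PowerSeries ℤ) : Prop :=
  ∀ k : ℕ, ∃ N : ℕ, (∀ n, N ≤ n → (p : ℤ) ^ k ∣ PowerSeries.coeff n F) ∧
    (∀ n, N ≤ n → (p : ℤ) ^ k ∣ PowerSeries.coeff n G) ∧
    (p : ℤ) ^ k ∣ ∑ n ∈ Finset.range N, (PowerSeries.coeff n F - PowerSeries.coeff n G)

/-- A finite set that is a union of classes of size divisible by `m` has size divisible by `m`. -/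
private theorem dvd_card_of_classes {Ω : Type} (m : ℕ) (r : Setoid Ω) (S : Finset Ω)
    (hcl : ∀ x ∈ S, ∀ y, r x y → y ∈ S) (hd : ∀ x ∈ S, m ∣ Nat.card {y : Ω // r x y}) :
    m ∣ S.card := by
  classical
  rw [Finset.card_eq_sum_card_image (Quotient.mk r) S]
  refine Finset.dvd_sum fun c hc => ?_
  obtain ⟨x, hx, rfl⟩ := Finset.mem_image.1 hc
  have h : Nat.card {y : Ω // r x y}
      = (S.filter fun y => Quotient.mk r y = Quotient.mk r x).card := by
    refine Nat.subtype_card _ fun y => ?_
    rw [Finset.mem_filter]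
    constructor
    · rintro ⟨-, hy⟩
      exact r.symm (Quotient.exact hy)
    · intro hy
      exact ⟨hcl x hx y hy, Quotient.sound (r.symm hy)⟩
  rw [← h]
  exact hd x hx

/-- The coefficients of `gf w` are congruent to the numbers of exceptional elements. -/
private theorem dvd_coeff_sub {Ω : Type} (m : ℕ) (w : Ω → ℕ)
    (hw : ∀ n, Finite {x : Ω // w x = n}) (r : Setoid Ω) (hrw : ∀ x y, r x y → w x = w y)
    (E : Finset Ω) (hE : ∀ x, x ∈ E ↔ ¬ m ∣ Nat.card {y : Ω // r x y}) (n : ℕ) :
    (m : ℤ) ∣ PowerSeries.coeff n (gf w) - ((E.filter fun x => w x = n).card : ℤ) := by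
  classical
  have hfin : {x : Ω | w x = n}.Finite := Set.finite_coe_iff.1 (hw n)
  have hA : ∀ x, x ∈ hfin.toFinset ↔ w x = n := by
    intro x
    rw [Set.Finite.mem_toFinset]
    exact Iff.rfl
  generalize hfin.toFinset = A at hA
  have hc : PowerSeries.coeff n (gf w) = (A.card : ℤ) := by
    rw [gf, PowerSeries.coeff_mk, Nat.subtype_card A hA]
  have hsplit : A.card = (E.filter fun x => w x = n).card + (A.filter fun x => x ∉ E).card := by
    rw [← Finset.card_filter_add_card_filter_not (s := A) (fun x => x ∈ E)]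
    congr 1
    refine congrArg Finset.card ?_
    ext x
    rw [Finset.mem_filter, Finset.mem_filter, hA x]
    exact and_comm
  have hd : m ∣ (A.filter fun x => x ∉ E).card := by
    refine dvd_card_of_classes m r _ ?_ ?_
    · intro x hx y hxy
      rw [Finset.mem_filter, hA x, hE x, not_not] at hx
      rw [Finset.mem_filter, hA y, hE y, not_not]
      refine ⟨(hrw x y hxy).symm.trans hx.1, ?_⟩
      have : Nat.card {z : Ω // r y z} = Nat.card {z : Ω // r x z} := by
        refine Nat.card_congr (Equiv.subtypeEquivRight fun z => ?_)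
        exact ⟨fun h => r.trans hxy h, fun h => r.trans (r.symm hxy) h⟩
      rw [this]
      exact hx.2
    · intro x hx
      rw [Finset.mem_filter, hE x, not_not] at hx
      exact hx.2
  rw [hc, hsplit]
  push_cast
  rw [add_sub_cancel_left]
  exact_mod_cast hd

theorem padicEq_of_partition (p : ℕ) {Ω : Type} (w w' : Ω → ℕ)
    (hw : ∀ n, Finite {x : Ω // w x = n}) (hw' : ∀ n, Finite {x : Ω // w' x = n})
    (hr : ∀ k : ℕ, ∃ r : Setoid Ω, (∀ x y, r x y → w x = w y ∧ w' x = w' y) ∧
      {x : Ω | ¬ p ^ k ∣ Nat.card {y : Ω // r x y}}.Finite) :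
    PadicEq p (gf w) (gf w') := by
  classical
  intro k
  obtain ⟨r, hr1, hr2⟩ := hr k
  have hE : ∀ x, x ∈ hr2.toFinset ↔ ¬ p ^ k ∣ Nat.card {y : Ω // r x y} := by
    intro x
    rw [Set.Finite.mem_toFinset]
    exact Iff.rfl
  generalize hr2.toFinset = E at hE
  have h1 := dvd_coeff_sub (p ^ k) w hw r (fun x y h => (hr1 x y h).1) E hE
  have h2 := dvd_coeff_sub (p ^ k) w' hw' r (fun x y h => (hr1 x y h).2) E hE
  push_cast at h1 h2
  have hN : ∃ N : ℕ, ∀ x ∈ E, w x < N ∧ w' x < N := by
    refine ⟨E.sup w + E.sup w' + 1, fun x hx => ?_⟩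
    have := Finset.le_sup (f := w) hx
    have := Finset.le_sup (f := w') hx
    omega
  obtain ⟨N, hN⟩ := hN
  refine ⟨N, fun n hn => ?_, fun n hn => ?_, ?_⟩
  · have h0 : (E.filter fun x => w x = n) = ∅ := by
      refine Finset.filter_eq_empty_iff.2 fun x hx h => ?_
      have := (hN x hx).1
      omega
    have h := h1 n
    rw [h0] at h
    simpa using h
  · have h0 : (E.filter fun x => w' x = n) = ∅ := by
      refine Finset.filter_eq_empty_iff.2 fun x hx h => ?_
      have := (hN x hx).2
      omega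
    have h := h2 n
    rw [h0] at h
    simpa using h
  · have e1 : ∑ n ∈ Finset.range N, ((E.filter fun x => w x = n).card : ℤ) = E.card := by
      rw [← Nat.cast_sum, ← Finset.card_eq_sum_card_fiberwise]
      intro x hx
      exact Finset.mem_coe.2 (Finset.mem_range.2 (hN x hx).1)
    have e2 : ∑ n ∈ Finset.range N, ((E.filter fun x => w' x = n).card : ℤ) = E.card := by
      rw [← Nat.cast_sum, ← Finset.card_eq_sum_card_fiberwise]
      intro x hx
      exact Finset.mem_coe.2 (Finset.mem_range.2 (hN x hx).2)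
    have e3 : ∑ n ∈ Finset.range N, (PowerSeries.coeff n (gf w) - PowerSeries.coeff n (gf w'))
        = ∑ n ∈ Finset.range N, (PowerSeries.coeff n (gf w)
              - ((E.filter fun x => w x = n).card : ℤ))
          - ∑ n ∈ Finset.range N, (PowerSeries.coeff n (gf w')
              - ((E.filter fun x => w' x = n).card : ℤ)) := by
      simp only [Finset.sum_sub_distrib]
      rw [e1, e2]
      ring
    rw [e3]
    exact dvd_sub (Finset.dvd_sum fun n _ => h1 n) (Finset.dvd_sum fun n _ => h2 n)

end Pool.Agent.TZ
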