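import Pool.Agent.TZ.TU
import Pool.Agent.TZ.GA
import Pool.Agent.TZ.PT

set_option autoImplicit false

/-! The value of the generating function of primitive tuples does not depend on the weights. -/

namespace Pool.Agent.TZ

variable {o : Type} [CommRing o] [IsDomain o] [IsDiscreteValuationRing o] {p q : ℕ}

theorem cm_isUnit_one_add (h : RingHyp o p q) {n N : ℕ} (hN : 1 ≤ N)
    (X : Matrix (Fin n) (Fin n) o) : IsUnit (1 + (p : o) ^ N • X) := by
  rw [Matrix.isUnit_iff_isUnit_det]
  apply isUnit_of_map_unit (IsLocalRing.residue o)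
  rw [RingHom.map_det]
  have hp0 : IsLocalRing.residue o (p : o) = 0 := by
    rw [IsLocalRing.residue_eq_zero_iff]
    exact (IsLocalRing.mem_maximalIdeal _).2 h.irr.not_isUnit
  have h1 : (IsLocalRing.residue o).mapMatrix (1 + (p : o) ^ N • X) = 1 := by
    rw [map_add, map_one]
    have h2 : (IsLocalRing.residue o).mapMatrix ((p : o) ^ N • X) = 0 := by
      ext i j
      simp only [RingHom.mapMatrix_apply, Matrix.map_apply, Matrix.smul_apply, smul_eq_mul,
        map_mul, map_pow, hp0, Matrix.zero_apply]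
      rw [zero_pow (by omega), zero_mul]
    rw [h2, add_zero]
  rw [h1, Matrix.det_one]
  exact isUnit_one

theorem cm_isUnit_of_not_dvd (h : RingHyp o p q) {x : o} (hx : ¬ (p : o) ∣ x) : IsUnit x := by
  by_contra hu
  apply hx
  have h1 : x ∈ IsLocalRing.maximalIdeal o := (IsLocalRing.mem_maximalIdeal _).2 hu
  rw [h.irr.maximalIdeal_eq] at h1
  exact Ideal.mem_span_singleton.1 h1

/-- A primitive sublattice of `o ^ n` stable under the congruence subgroup of level `N` contains
`p ^ N o ^ n`. -/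
theorem std_irr (h : RingHyp o p q) {n N : ℕ} (hN : 1 ≤ N) (L : Submodule o (Fin n → o))
    (hL : ¬ ∀ x ∈ L, ∃ y, x = (p : o) • y)
    (hst : ∀ g ∈ Gam o p n N, ∀ x ∈ L, (g : Matrix (Fin n) (Fin n) o).mulVec x ∈ L) :
    ∀ x, (p : o) ^ N • x ∈ L := by
  push Not at hL
  obtain ⟨x, hx, hxp⟩ := hL
  have h1 : ∃ l, ¬ (p : o) ∣ x l := by
    by_contra hcon
    push Not at hcon
    choose y hy using hcon
    exact hxp y (funext fun l => by rw [hy l]; simp)
  obtain ⟨l, hl⟩ := h1
  obtain ⟨u, hu⟩ := cm_isUnit_of_not_dvd h hl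
  have h2 : ∀ a, (p : o) ^ N • (Pi.single a (1 : o) : Fin n → o) ∈ L := by
    intro a
    obtain ⟨g, hg⟩ := cm_isUnit_one_add h hN (Matrix.single a l (1 : o))
    have hgm : g ∈ Gam o p n N := ⟨_, hg⟩
    have h3 := hst g hgm x hx
    have h4 := L.sub_mem h3 hx
    have h5 : (g : Matrix (Fin n) (Fin n) o).mulVec x - x =
        (u : o) • ((p : o) ^ N • (Pi.single a (1 : o) : Fin n → o)) := by
      rw [hg, Matrix.add_mulVec, Matrix.one_mulVec, add_sub_cancel_left, Matrix.smul_mulVec,
        Matrix.single_mulVec, hu]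
      ext i
      simp only [Pi.smul_apply, smul_eq_mul, Pi.single_apply, Function.update_apply]
      by_cases hi : i = a
      · simp [hi]; ring
      · simp [hi]
    rw [h5] at h4
    have h6 := L.smul_mem ((u⁻¹ : oˣ) : o) h4
    rw [smul_smul, Units.inv_mul, one_smul] at h6
    exact h6
  intro y
  have h7 : y = ∑ a, y a • (Pi.single a (1 : o) : Fin n → o) := by
    ext i
    simp [Finset.sum_apply, Pi.single_apply]
  rw [h7, Finset.smul_sum]
  refine L.sum_mem (fun a _ => ?_)
  rw [smul_comm]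
  exact L.smul_mem _ (h2 a)

section prim

variable {M M' : Type} [AddCommGroup M] [Module o M] [AddCommGroup M'] [Module o M']

/-- Image of a primitive sublattice. -/
def primMap (e : M ≃ₗ[o] M) (N : Prim o p M) : Prim o p M :=
  ⟨N.1.map (e : M →ₗ[o] M), finite_quot_map_equiv e N.1 N.2.1, by
    intro hcon
    apply N.2.2
    intro x hx
    obtain ⟨y, hy⟩ := hcon (e x) ⟨x, hx, rfl⟩
    refine ⟨e.symm y, ?_⟩
    rw [← map_smul, ← hy, LinearEquiv.symm_apply_apply]⟩

theorem primMap_one (N : Prim o p M) : primMap (1 : M ≃ₗ[o] M) N = N := by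
  apply Subtype.ext
  ext x
  constructor
  · rintro ⟨y, hy, rfl⟩
    exact hy
  · intro hx
    exact ⟨x, hx, rfl⟩

theorem primMap_mul (e f : M ≃ₗ[o] M) (N : Prim o p M) :
    primMap (e * f) N = primMap e (primMap f N) := by
  apply Subtype.ext
  ext x
  constructor
  · rintro ⟨y, hy, rfl⟩
    exact ⟨f y, ⟨y, hy, rfl⟩, rfl⟩
  · rintro ⟨_, ⟨y, hy, rfl⟩, rfl⟩
    exact ⟨y, hy, rfl⟩

theorem vd_map (e : M ≃ₗ[o] M) (X N : Submodule o M) :
    vd p (X.map (e : M →ₗ[o] M)) (N.map (e : M →ₗ[o] M)) = vd p X N := by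
  unfold vd
  congr 1
  ext v
  simp only [Set.mem_ofPred_eq]
  constructor
  · intro hv x hx
    obtain ⟨y, hy, hy'⟩ := hv (e x) ⟨x, hx, rfl⟩
    have h1 : y = (p : o) ^ v • x := by
      apply e.injective
      rw [map_smul]
      exact hy'
    rwa [← h1]
  · rintro hv _ ⟨x, hx, rfl⟩
    exact ⟨(p : o) ^ v • x, hv x hx, by simp⟩

/-- A linear automorphism congruent to `1` fixes every submodule which is large enough. -/
theorem map_eq_of_cong (e : M ≃ₗ[o] M) (n : ℕ) (he : ∀ x, ∃ y, e x = x + (p : o) ^ n • y)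
    (he' : ∀ x, ∃ y, e.symm x = x + (p : o) ^ n • y) (X : Submodule o M)
    (hX : ∀ y : M, (p : o) ^ n • y ∈ X) : X.map (e : M →ₗ[o] M) = X := by
  apply le_antisymm
  · rintro _ ⟨x, hx, rfl⟩
    obtain ⟨y, hy⟩ := he x
    have : (e : M →ₗ[o] M) x = x + (p : o) ^ n • y := hy
    rw [this]
    exact X.add_mem hx (hX y)
  · intro x hx
    obtain ⟨y, hy⟩ := he' x
    refine ⟨e.symm x, ?_, by simp⟩
    rw [hy]
    exact X.add_mem hx (hX y)

theorem br_pow_mem {d : ℕ} (ad : Fin d → M →ₗ[o] M') (n : ℕ) (N : Submodule o M)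
    (hN : ∀ y : M, (p : o) ^ n • y ∈ N) (hg : br ad ⊤ = ⊤) (z : M') :
    (p : o) ^ n • z ∈ br ad N := by
  have h1 : z ∈ br ad ⊤ := by rw [hg]; exact Submodule.mem_top
  unfold br at h1
  refine Submodule.iSup_induction (fun j => (⊤ : Submodule o M).map (ad j))
    (motive := fun z => (p : o) ^ n • z ∈ br ad N) h1 ?_ ?_ ?_
  · rintro j _ ⟨x, _, rfl⟩
    rw [← map_smul]
    exact Submodule.mem_iSup_of_mem j ⟨_, hN x, rfl⟩
  · rw [smul_zero]
    exact Submodule.zero_mem _
  · intro x y hx hy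
    rw [smul_add]
    exact Submodule.add_mem _ hx hy

end prim

/-- A partition into orbits of two groups, on a stable set and on its complement. -/
theorem cm_setoid {Ω : Type} (G H : Type) [Group G] [Group H] [MulAction G Ω] [MulAction H Ω]
    (B : Set Ω) (hG : ∀ (g : G) (x : Ω), g • x ∈ B ↔ x ∈ B)
    (hH : ∀ (g : H) (x : Ω), g • x ∈ B ↔ x ∈ B) :
    ∃ r : Setoid Ω, ∀ x y, r x y ↔ (x ∉ B ∧ y ∈ MulAction.orbit G x) ∨
      (x ∈ B ∧ y ∈ MulAction.orbit H x) := by
  refine ⟨⟨fun x y => (x ∉ B ∧ y ∈ MulAction.orbit G x) ∨ (x ∈ B ∧ y ∈ MulAction.orbit H x),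
    ?_, ?_, ?_⟩, fun x y => Iff.rfl⟩
  · intro x
    by_cases hx : x ∈ B
    · exact Or.inr ⟨hx, MulAction.mem_orbit_self x⟩
    · exact Or.inl ⟨hx, MulAction.mem_orbit_self x⟩
  · rintro x y (⟨hx, g, rfl⟩ | ⟨hx, g, rfl⟩)
    · refine Or.inl ⟨fun hc => hx ((hG g x).1 hc), g⁻¹, ?_⟩
      simp
    · refine Or.inr ⟨(hH g x).2 hx, g⁻¹, ?_⟩
      simp
  · rintro x y z (⟨hx, g, rfl⟩ | ⟨hx, g, rfl⟩) (⟨hy, g', rfl⟩ | ⟨hy, g', rfl⟩)
    · refine Or.inl ⟨hx, g' * g, ?_⟩
      simp [mul_smul]
    · exact absurd ((hG g x).1 hy) hx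
    · exact absurd ((hH g x).2 hx) hy
    · refine Or.inr ⟨hx, g' * g, ?_⟩
      simp [mul_smul]

/-- Matrices act on a free module through a basis. -/
theorem exists_sigma (h : RingHyp o p q) (M : Type) [AddCommGroup M] [Module o M]
    [Module.Free o M] [Module.Finite o M] :
    ∃ σ : (Matrix (Fin (Module.finrank o M)) (Fin (Module.finrank o M)) o)ˣ →* (M ≃ₗ[o] M),
      (∀ n, ∀ g ∈ Gam o p (Module.finrank o M) n, ∀ x, ∃ y, σ g x = x + (p : o) ^ n • y) ∧
      (∀ N : ℕ, 1 ≤ N → ∀ L : Submodule o M, (¬ ∀ x ∈ L, ∃ y, x = (p : o) • y) →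
        (∀ g ∈ Gam o p (Module.finrank o M) N, ∀ x ∈ L, σ g x ∈ L) →
          ∀ x, (p : o) ^ N • x ∈ L) := by
  classical
  let b := Module.finBasis o M
  let σ : (Matrix (Fin (Module.finrank o M)) (Fin (Module.finrank o M)) o)ˣ →* (M ≃ₗ[o] M) :=
    (LinearMap.GeneralLinearGroup.generalLinearEquiv o M).toMonoidHom.comp
      (Units.map ((Matrix.toLinAlgEquiv b).toRingEquiv.toRingHom.toMonoidHom))
  have hσ : ∀ g x, σ g x = Matrix.toLin b b (g : Matrix _ _ o) x := fun g x => rfl
  have hrepr : ∀ g x, b.equivFun (σ g x) = (g : Matrix _ _ o).mulVec (b.equivFun x) := by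
    intro g x
    rw [hσ]
    have := LinearMap.toMatrix_mulVec_repr b b (Matrix.toLin b b (g : Matrix _ _ o)) x
    rw [LinearMap.toMatrix_toLin] at this
    exact this.symm
  refine ⟨σ, ?_, ?_⟩
  · rintro n g ⟨X, hX⟩ x
    refine ⟨Matrix.toLin b b X x, ?_⟩
    rw [hσ, hX, map_add, map_smul, Matrix.toLin_one]
    simp
  · intro N hN L hL hst x
    have h1 := std_irr h hN (L.map (b.equivFun : M →ₗ[o] (Fin (Module.finrank o M) → o))) (by
      intro hcon
      apply hL
      intro x hx
      obtain ⟨y, hy⟩ := hcon (b.equivFun x) ⟨x, hx, rfl⟩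
      refine ⟨b.equivFun.symm y, ?_⟩
      rw [← map_smul, ← hy, LinearEquiv.symm_apply_apply]) (by
      rintro g hg _ ⟨x, hx, rfl⟩
      refine ⟨σ g x, hst g hg x hx, ?_⟩
      exact hrepr g x) (b.equivFun x)
    obtain ⟨y, hy, hyx⟩ := h1
    have h2 : y = (p : o) ^ N • x := by
      apply b.equivFun.injective
      rw [map_smul]
      exact hyx
    rwa [← h2]

theorem tower_padicEq (h : RingHyp o p q) (hp : p ≠ 2) {c d : ℕ} (hc : 1 ≤ c) {M : ℕ → Type}
    [∀ i, AddCommGroup (M i)] [∀ i, Module o (M i)] {ad : ∀ i, Fin d → M i →ₗ[o] M (i + 1)}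
    {W : ℕ → ℕ} (H : TowerHyp o p c d M ad W) :
    PadicEq p (gf (wt (c := c) q p W ad))
      (gf (fun L : ∀ i : Fin c, Prim o p (M i) => ∑ i, len q (L i).1)) := by
  classical
  obtain ⟨ρ, hbr, hcong, hirr⟩ := H.act
  refine padicEq_of_partition p _ _ (fun n => wt_finite h H n) (fun n => ?_) (fun k => ?_)
  · exact finite_pi (X := fun i : Fin c => Prim o p (M i)) (fun (i : Fin c) N => len q N.1)
      (fun i n => by
        haveI := H.free i i.2
        haveI := H.fin i i.2
        exact prim_finite h n) n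
  -- the level
  obtain ⟨K, hK1, hkK⟩ : ∃ K, 1 ≤ K ∧ k ≤ K := ⟨max k 1, le_max_right _ _, le_max_left _ _⟩
  have hex : ∀ i : Fin c, ∃ n, (i : ℕ) + 1 < c → ∀ N : Submodule o (M i),
      (¬ ∀ x ∈ N, ∃ y : M i, x = (p : o) • y) →
      (∀ g ∈ Gam o p d K, N.map (ρ i g : M i →ₗ[o] M i) ≤ N) →
      ∀ x : M i, (p : o) ^ n • x ∈ N := by
    intro i
    by_cases hi : (i : ℕ) + 1 < c
    · obtain ⟨n, hn⟩ := hirr i hi K hK1
      exact ⟨n, fun _ => hn⟩
    · exact ⟨0, fun hi' => absurd hi' hi⟩
  choose nn hnn using hex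
  obtain ⟨n, hn1, hn⟩ : ∃ n, 1 ≤ n ∧ ∀ i : Fin c, nn i ≤ n :=
    ⟨Finset.univ.sup nn + 1, by omega, fun i => by
      have := Finset.le_sup (f := nn) (Finset.mem_univ i)
      omega⟩
  have hirr' : ∀ i : Fin c, (i : ℕ) + 1 < c → ∀ N : Submodule o (M i),
      (¬ ∀ x ∈ N, ∃ y : M i, x = (p : o) • y) →
      (∀ g ∈ Gam o p d K, N.map (ρ i g : M i →ₗ[o] M i) ≤ N) →
      ∀ x : M i, (p : o) ^ n • x ∈ N := by
    intro i hi N hN hst x
    have h1 := hnn i hi N hN hst ((p : o) ^ (n - nn i) • x)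
    rwa [smul_smul, ← pow_add, Nat.add_sub_cancel' (hn i)] at h1
  obtain ⟨j0, hj0⟩ : ∃ j0 : Fin c, (j0 : ℕ) + 1 = c := ⟨⟨c - 1, by omega⟩, by
    show c - 1 + 1 = c
    omega⟩
  haveI := H.free j0 j0.2
  haveI := H.fin j0 j0.2
  obtain ⟨σ, hσ1, hσ2⟩ := exists_sigma (p := p) (q := q) h (M j0)
  let w := Module.finrank o (M j0)
  let Ω : Type := ∀ i : Fin c, Prim o p (M i)
  letI actG : MulAction (Gam o p d 1) Ω :=
    { smul := fun g x i => primMap (ρ i (g : (Matrix (Fin d) (Fin d) o)ˣ)) (x i)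
      one_smul := by
        intro x
        funext i
        show primMap (ρ i (1 : (Matrix (Fin d) (Fin d) o)ˣ)) (x i) = x i
        rw [map_one]
        exact primMap_one _
      mul_smul := by
        intro g g' x
        funext i
        show primMap (ρ i ((g : (Matrix (Fin d) (Fin d) o)ˣ) * g')) (x i) = _
        rw [map_mul]
        exact primMap_mul _ _ _ }
  letI actH : MulAction (Gam o p w n) Ω :=
    { smul := fun g x => Function.update x j0
        (primMap (σ (g : (Matrix (Fin w) (Fin w) o)ˣ)) (x j0))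
      one_smul := by
        intro x
        show Function.update x j0 (primMap (σ (1 : (Matrix (Fin w) (Fin w) o)ˣ)) (x j0)) = x
        rw [map_one, primMap_one]
        exact Function.update_eq_self _ _
      mul_smul := by
        intro g g' x
        show Function.update x j0
          (primMap (σ ((g : (Matrix (Fin w) (Fin w) o)ˣ) * g')) (x j0)) =
          Function.update (Function.update x j0 (primMap (σ (g' : (Matrix (Fin w) (Fin w) o)ˣ)) (x j0)))
            j0 (primMap (σ (g : (Matrix (Fin w) (Fin w) o)ˣ))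
            (Function.update x j0 (primMap (σ (g' : (Matrix (Fin w) (Fin w) o)ˣ)) (x j0)) j0))
        rw [map_mul, Function.update_self, Function.update_idem, primMap_mul] }
  have hGdef : ∀ (g : Gam o p d 1) (x : Ω) (i : Fin c),
      (g • x) i = primMap (ρ i (g : (Matrix (Fin d) (Fin d) o)ˣ)) (x i) := fun _ _ _ => rfl
  have hHdef : ∀ (g : Gam o p w n) (x : Ω), g • x = Function.update x j0
        (primMap (σ (g : (Matrix (Fin w) (Fin w) o)ˣ)) (x j0)) := fun _ _ => rfl
  let B : Set Ω := {x | ∀ i : Fin c, (i : ℕ) + 1 < c → ∀ y : M i, (p : o) ^ n • y ∈ (x i).1}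
  have hGB1 : ∀ (g : Gam o p d 1) (x : Ω), x ∈ B → g • x ∈ B := by
    intro g x hx i hi y
    rw [hGdef]
    refine ⟨(p : o) ^ n • (ρ i (g : (Matrix (Fin d) (Fin d) o)ˣ)).symm y, hx i hi _, ?_⟩
    simp
  have hGB : ∀ (g : Gam o p d 1) (x : Ω), g • x ∈ B ↔ x ∈ B := by
    intro g x
    refine ⟨fun hx => ?_, hGB1 g x⟩
    have := hGB1 g⁻¹ _ hx
    rwa [inv_smul_smul] at this
  have hHne : ∀ (g : Gam o p w n) (x : Ω) (i : Fin c), i ≠ j0 → (g • x) i = x i := by
    intro g x i hi
    rw [hHdef, Function.update_of_ne hi]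
  have hne : ∀ i : Fin c, (i : ℕ) + 1 < c → i ≠ j0 := by
    rintro i hi rfl
    omega
  have hHB : ∀ (g : Gam o p w n) (x : Ω), g • x ∈ B ↔ x ∈ B := by
    intro g x
    constructor
    · intro hx i hi y
      have := hx i hi y
      rwa [hHne g x i (hne i hi)] at this
    · intro hx i hi y
      rw [hHne g x i (hne i hi)]
      exact hx i hi y
  obtain ⟨r, hr⟩ := cm_setoid (Gam o p d 1) (Gam o p w n) B hGB hHB
  refine ⟨r, ?_, ?_⟩
  · -- the weights are constant on the classes
    intro x y hxy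
    rcases (hr x y).1 hxy with ⟨hx, g, rfl⟩ | ⟨hx, g, rfl⟩
    · have hlen : ∀ i : Fin c, len q ((g • x) i).1 = len q (x i).1 := by
        intro i
        rw [hGdef]
        exact len_map_equiv _ _
      have hsum : ∑ i, len q (x i).1 = ∑ i, len q ((g • x) i).1 :=
        Finset.sum_congr rfl (fun i _ => (hlen i).symm)
      refine ⟨?_, hsum⟩
      show wt q p W ad x = wt q p W ad (g • x)
      unfold wt
      rw [hsum]
      congr 1
      refine Finset.sum_congr rfl (fun i _ => ?_)
      split_ifs with hi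
      · congr 1
        have h1 : (⟨(i : ℕ) + 1, hi⟩ : Fin c) = ⟨(i : ℕ) + 1, hi⟩ := rfl
        show vd p (br (ad i) (x i).1) (x ⟨(i : ℕ) + 1, hi⟩).1 =
          vd p (br (ad i) ((x i).1.map (ρ i (g : (Matrix (Fin d) (Fin d) o)ˣ) : M i →ₗ[o] M i)))
            ((x ⟨(i : ℕ) + 1, hi⟩).1.map (ρ (i + 1) (g : (Matrix (Fin d) (Fin d) o)ˣ) :
              M (i + 1) →ₗ[o] M (i + 1)))
        rw [hbr i hi]
        exact (vd_map _ _ _).symm
      · rfl
    · have hlen : ∀ i : Fin c, len q ((g • x) i).1 = len q (x i).1 := by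
        intro i
        by_cases hi : i = j0
        · subst hi
          rw [hHdef, Function.update_self]
          exact len_map_equiv _ _
        · rw [hHne g x i hi]
      have hsum : ∑ i, len q (x i).1 = ∑ i, len q ((g • x) i).1 :=
        Finset.sum_congr rfl (fun i _ => (hlen i).symm)
      refine ⟨?_, hsum⟩
      show wt q p W ad x = wt q p W ad (g • x)
      unfold wt
      rw [hsum]
      congr 1
      have hvd : ∀ (j : Fin c) (X : Submodule o (M j)), (∀ y : M j, (p : o) ^ n • y ∈ X) →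
          vd p X (x j).1 = vd p X ((g • x) j).1 := by
        intro j X hX
        by_cases hj : j = j0
        · subst hj
          rw [hHdef, Function.update_self]
          have h1 : X.map (σ (g : (Matrix (Fin w) (Fin w) o)ˣ) : M j →ₗ[o] M j) = X := by
            refine map_eq_of_cong _ n (hσ1 n _ g.2) ?_ X hX
            have h2 := hσ1 n _ (g⁻¹).2
            intro z
            obtain ⟨z', hz'⟩ := h2 z
            refine ⟨z', ?_⟩
            rw [← hz']
            have h3 : σ ((g⁻¹ : Gam o p w n) : (Matrix (Fin w) (Fin w) o)ˣ) =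
                (σ (g : (Matrix (Fin w) (Fin w) o)ˣ))⁻¹ := by
              rw [Subgroup.coe_inv, map_inv]
            rw [h3]
            rfl
          have h4 := vd_map (p := p) (σ (g : (Matrix (Fin w) (Fin w) o)ˣ)) X (x j).1
          rw [h1] at h4
          exact h4.symm
        · rw [hHne g x j hj]
      refine Finset.sum_congr rfl (fun i _ => ?_)
      split_ifs with hi
      · congr 1
        rw [hHne g x i (hne i hi)]
        exact hvd ⟨(i : ℕ) + 1, hi⟩ (br (ad i) (x i).1)
          (br_pow_mem (ad i) n (x i).1 (hx i hi) (H.gen i hi))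
      · rfl
  · -- finitely many classes of size not divisible by `p ^ k`
    have hfin : {x : Ω | ∀ i : Fin c, ∀ y : M i, (p : o) ^ (n + K) • y ∈ (x i).1}.Finite := by
      have h1 : (Set.univ.pi fun i : Fin c =>
          {N : Submodule o (M i) | ∀ x : M i, (p : o) ^ (n + K) • x ∈ N}).Finite := by
        refine Set.Finite.pi (fun i => ?_)
        haveI := H.free i i.2
        haveI := H.fin i i.2
        exact finite_setOf_pow_mem h (n + K)
      have h2 : Set.InjOn (fun (x : Ω) (i : Fin c) => (x i).1)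
          ((fun (x : Ω) (i : Fin c) => (x i).1) ⁻¹' (Set.univ.pi fun i : Fin c =>
          {N : Submodule o (M i) | ∀ x : M i, (p : o) ^ (n + K) • x ∈ N})) := by
        intro x _ y _ hxy
        funext i
        exact Subtype.ext (congrFun hxy i)
      refine (h1.preimage h2).subset ?_
      intro x hx i _
      exact hx i
    refine hfin.subset ?_
    intro x hx
    have hx' : ¬ p ^ k ∣ Nat.card {y : Ω // r x y} := hx
    -- a common level
    have hlev : ∃ m : ℕ, ∀ i : Fin c, ∀ y : M i, (p : o) ^ m • y ∈ (x i).1 := by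
      have : ∀ i : Fin c, ∃ m : ℕ, ∀ y : M i, (p : o) ^ m • y ∈ (x i).1 := by
        intro i
        haveI := H.fin i i.2
        exact lat_pow_mem h (x i).1 (x i).2.1
      choose m hm using this
      refine ⟨Finset.univ.sup m, fun i y => ?_⟩
      have h1 := hm i ((p : o) ^ (Finset.univ.sup m - m i) • y)
      rwa [smul_smul, ← pow_add,
        Nat.add_sub_cancel' (Finset.le_sup (f := m) (Finset.mem_univ i))] at h1
    obtain ⟨m, hm⟩ := hlev
    by_cases hxB : x ∈ B
    · have hcard : Nat.card {y : Ω // r x y} = Nat.card (MulAction.orbit (Gam o p w n) x) :=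
        Nat.card_congr (Equiv.subtypeEquivRight (fun y => by rw [hr]; tauto))
      obtain ⟨j, hj1, hj2⟩ := orbit_lemma h hp hn1 x m (fun g hg => by
        rw [hHdef]
        have h1 : primMap (σ (g : (Matrix (Fin w) (Fin w) o)ˣ)) (x j0) = x j0 := by
          apply Subtype.ext
          refine map_eq_of_cong _ m (hσ1 m _ hg) ?_ _ (hm j0)
          have h2 := hσ1 m _ ((Gam o p w m).inv_mem hg)
          intro z
          obtain ⟨z', hz'⟩ := h2 z
          refine ⟨z', ?_⟩
          rw [← hz', map_inv]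
          rfl
        rw [h1]
        exact Function.update_eq_self _ _)
      have hjK : ¬ K ≤ j := by
        intro hKj
        apply hx'
        rw [hcard, hj1]
        exact pow_dvd_pow p (hkK.trans hKj)
      have hx0 : ∀ y, (p : o) ^ (n + j) • y ∈ (x j0).1 := by
        refine hσ2 (n + j) (by omega) (x j0).1 (x j0).2.2 ?_
        intro g hg z hz
        have hg' : g ∈ Gam o p w n := by
          obtain ⟨X, hX⟩ := hg
          exact ⟨(p : o) ^ j • X, by rw [hX, smul_smul, ← pow_add]⟩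
        have h1 := hj2 ⟨g, hg'⟩ hg
        rw [hHdef] at h1
        have h2 := congrFun h1 j0
        rw [Function.update_self] at h2
        have h3 := congrArg Subtype.val h2
        have h4 : σ g z ∈ (x j0).1.map (σ g : M j0 →ₗ[o] M j0) := ⟨z, hz, rfl⟩
        have h5 : (x j0).1.map (σ g : M j0 →ₗ[o] M j0) = (x j0).1 := h3
        rwa [h5] at h4
      intro i y
      by_cases hi : i = j0
      · subst hi
        have h1 := hx0 ((p : o) ^ (K - j) • y)
        rwa [smul_smul, ← pow_add, show n + j + (K - j) = n + K by omega] at h1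
      · have hi' : (i : ℕ) + 1 < c := by
          have h1 := i.2
          have h2 : (i : ℕ) ≠ (j0 : ℕ) := fun e => hi (Fin.ext e)
          omega
        have h1 := hxB i hi' ((p : o) ^ K • y)
        rwa [smul_smul, ← pow_add] at h1
    · exfalso
      have hcard : Nat.card {y : Ω // r x y} = Nat.card (MulAction.orbit (Gam o p d 1) x) :=
        Nat.card_congr (Equiv.subtypeEquivRight (fun y => by rw [hr]; tauto))
      have hcong' : ∀ (i : Fin c) (m : ℕ) (g : (Matrix (Fin d) (Fin d) o)ˣ), g ∈ Gam o p d m →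
          (∀ y : M i, (p : o) ^ m • y ∈ (x i).1) → primMap (ρ i g) (x i) = x i := by
        intro i m g hg hmx
        apply Subtype.ext
        refine map_eq_of_cong _ m (hcong i i.2 m g hg) ?_ _ hmx
        have h2 := hcong i i.2 m _ ((Gam o p d m).inv_mem hg)
        intro z
        obtain ⟨z', hz'⟩ := h2 z
        refine ⟨z', ?_⟩
        rw [← hz', map_inv]
        rfl
      obtain ⟨j, hj1, hj2⟩ := orbit_lemma h hp (le_refl 1) x m (fun g hg => by
        funext i
        rw [hGdef]
        exact hcong' i m _ hg (hm i))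
      have hjK : ¬ K ≤ j := by
        intro hKj
        apply hx'
        rw [hcard, hj1]
        exact pow_dvd_pow p (hkK.trans hKj)
      apply hxB
      intro i hi
      refine hirr' i hi (x i).1 (x i).2.2 ?_
      intro g hg
      have hg1 : g ∈ Gam o p d (1 + j) := by
        obtain ⟨X, hX⟩ := hg
        exact ⟨(p : o) ^ (K - (1 + j)) • X, by
          rw [hX, smul_smul, ← pow_add, show 1 + j + (K - (1 + j)) = K by omega]⟩
      have hg' : g ∈ Gam o p d 1 := by
        obtain ⟨X, hX⟩ := hg1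
        exact ⟨(p : o) ^ j • X, by rw [hX, smul_smul, ← pow_add]⟩
      have h1 := hj2 ⟨g, hg'⟩ hg1
      have h2 := congrFun h1 i
      rw [hGdef] at h2
      have h3 := congrArg Subtype.val h2
      exact le_of_eq h3

end Pool.Agent.TZ
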