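import Pool.Agent.TZ.Defs

set_option autoImplicit false

/-! From values for small positive `t` to an identity of formal power series. -/

namespace Pool.Agent.TZ

open Filter Topology

private theorem hasSum_mul_poly (a : ℕ → ℝ) (t s : ℝ) (h : HasSum (fun n => a n * t ^ n) s)
    (B : Polynomial ℝ) :
    HasSum (fun n => PowerSeries.coeff n (PowerSeries.mk a * (B : PowerSeries ℝ)) * t ^ n)
      (s * B.eval t) := by
  induction B using Polynomial.induction_on' with
  | add p q hp hq =>
    rw [Polynomial.eval_add, mul_add]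
    have e : (fun n => PowerSeries.coeff n
          (PowerSeries.mk a * ((p + q : Polynomial ℝ) : PowerSeries ℝ)) * t ^ n)
        = fun n => PowerSeries.coeff n (PowerSeries.mk a * (p : PowerSeries ℝ)) * t ^ n
          + PowerSeries.coeff n (PowerSeries.mk a * (q : PowerSeries ℝ)) * t ^ n := by
      funext n
      rw [Polynomial.coe_add, mul_add, map_add, add_mul]
    rw [e]
    exact hp.add hq
  | monomial j b =>
    rw [Polynomial.eval_monomial]
    have e : ((Polynomial.monomial j b : Polynomial ℝ) : PowerSeries ℝ)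
        = PowerSeries.C b * PowerSeries.X ^ j := by
      rw [← Polynomial.C_mul_X_pow_eq_monomial, Polynomial.coe_mul, Polynomial.coe_C,
        Polynomial.coe_pow, Polynomial.coe_X]
    rw [e]
    have e2 : ∀ n, PowerSeries.coeff n
        (PowerSeries.mk a * (PowerSeries.C b * PowerSeries.X ^ j))
        = if j ≤ n then b * a (n - j) else 0 := by
      intro n
      rw [← mul_assoc, PowerSeries.coeff_mul_X_pow', mul_comm (PowerSeries.mk a)]
      simp only [PowerSeries.coeff_C_mul, PowerSeries.coeff_mk]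
    simp only [e2]
    rw [← hasSum_nat_add_iff' j]
    have e3 : ∑ i ∈ Finset.range j, (if j ≤ i then b * a (i - j) else 0) * t ^ i = 0 := by
      refine Finset.sum_eq_zero fun i hi => ?_
      rw [Finset.mem_range] at hi
      rw [if_neg (by omega), zero_mul]
    rw [e3, sub_zero]
    have h' := h.mul_right (b * t ^ j)
    have e4 : (fun n => (if j ≤ n + j then b * a (n + j - j) else 0) * t ^ (n + j))
        = fun n => a n * t ^ n * (b * t ^ j) := by
      funext n
      rw [if_pos (by omega), Nat.add_sub_cancel, pow_add]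
      ring
    rw [e4]
    exact h'

private theorem eq_zero_of_hasSum (c : ℕ → ℝ)
    (h : ∀ᶠ t : ℝ in 𝓝[>] 0, HasSum (fun n => c n * t ^ n) 0) (k : ℕ) : c k = 0 := by
  induction k using Nat.strong_induction_on with
  | _ k ih =>
    obtain ⟨t0, ht0, ht0'⟩ := (h.and self_mem_nhdsWithin).exists
    have ht0p : 0 < t0 := ht0'
    have hs : Summable fun n => |c n * t0 ^ n| := ht0.summable.abs
    obtain ⟨M, hM⟩ : ∃ M : ℝ, ∀ n, |c n * t0 ^ n| ≤ M :=
      ⟨∑' n, |c n * t0 ^ n|, fun n => hs.le_tsum n fun _ _ => abs_nonneg _⟩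
    have hM0 : 0 ≤ M := (abs_nonneg _).trans (hM 0)
    have hsmall : ∀ᶠ t : ℝ in 𝓝[>] 0, t < t0 / 2 :=
      mem_nhdsWithin_of_mem_nhds (Iio_mem_nhds (by positivity))
    have hb : ∀ᶠ t : ℝ in 𝓝[>] 0, |c k| ≤ 2 * M / t0 ^ (k + 1) * t := by
      filter_upwards [h, self_mem_nhdsWithin, hsmall] with t ht htp' hts
      have htp : 0 < t := htp'
      have h1 := (hasSum_nat_add_iff' (k + 1)).2 ht
      have h2 : ∑ i ∈ Finset.range (k + 1), c i * t ^ i = c k * t ^ k := by
        rw [Finset.sum_range_succ, Finset.sum_eq_zero, zero_add]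
        intro i hi
        rw [ih i (Finset.mem_range.1 hi), zero_mul]
      rw [h2, zero_sub] at h1
      have hq0 : 0 ≤ t / t0 := by positivity
      have hq : t / t0 < 1 / 2 := by
        rw [div_lt_iff₀ ht0p]
        linarith
      have h3 : HasSum (fun n : ℕ => M * (t / t0) ^ (k + 1) * (t / t0) ^ n)
          (M * (t / t0) ^ (k + 1) * (1 - t / t0)⁻¹) :=
        (hasSum_geometric_of_lt_one hq0 (by linarith)).mul_left _
      have h4 := h1.norm_le_of_bounded h3 (fun n => by
        have e1 : c (n + (k + 1)) * t ^ (n + (k + 1))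
            = c (n + (k + 1)) * t0 ^ (n + (k + 1)) * (t / t0) ^ (n + (k + 1)) := by
          rw [div_pow]
          field_simp
        rw [e1, Real.norm_eq_abs, abs_mul, abs_of_nonneg (pow_nonneg hq0 _), pow_add (t / t0)]
        calc |c (n + (k + 1)) * t0 ^ (n + (k + 1))| * ((t / t0) ^ n * (t / t0) ^ (k + 1))
            ≤ M * ((t / t0) ^ n * (t / t0) ^ (k + 1)) :=
              mul_le_mul_of_nonneg_right (hM _) (by positivity)
          _ = M * (t / t0) ^ (k + 1) * (t / t0) ^ n := by ring)
      rw [norm_neg, Real.norm_eq_abs, abs_mul, abs_of_pos (pow_pos htp k)] at h4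
      have h5 : (1 - t / t0)⁻¹ ≤ 2 := by
        rw [inv_le_comm₀ (by linarith) (by norm_num)]
        linarith
      have h6 : |c k| * t ^ k ≤ (2 * M / t0 ^ (k + 1) * t) * t ^ k := by
        calc |c k| * t ^ k ≤ M * (t / t0) ^ (k + 1) * (1 - t / t0)⁻¹ := h4
          _ ≤ M * (t / t0) ^ (k + 1) * 2 := mul_le_mul_of_nonneg_left h5 (by positivity)
          _ = (2 * M / t0 ^ (k + 1) * t) * t ^ k := by
            rw [div_pow, pow_succ t k]
            ring
      exact le_of_mul_le_mul_right h6 (pow_pos htp k)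
    have hlim : Tendsto (fun t : ℝ => 2 * M / t0 ^ (k + 1) * t) (𝓝[>] 0) (𝓝 0) := by
      have : Tendsto (fun t : ℝ => 2 * M / t0 ^ (k + 1) * t) (𝓝 0)
          (𝓝 (2 * M / t0 ^ (k + 1) * 0)) := tendsto_id.const_mul _
      rw [mul_zero] at this
      exact this.mono_left nhdsWithin_le_nhds
    have h0 := ge_of_tendsto hlim hb
    exact abs_eq_zero.1 (le_antisymm h0 (abs_nonneg _))

theorem formal_of_hasSum (a : ℕ → ℝ) (A B : Polynomial ℝ) (hB : B ≠ 0)
    (h : ∀ᶠ t : ℝ in nhdsWithin 0 (Set.Ioi 0),
      HasSum (fun n => a n * t ^ n) (A.eval t / B.eval t)) :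
    PowerSeries.mk a * (B : PowerSeries ℝ) = (A : PowerSeries ℝ) := by
  have hB' : ∀ᶠ t : ℝ in 𝓝[>] (0 : ℝ), B.eval t ≠ 0 := by
    have h1 : ∀ r ∈ B.roots.toFinset, ∀ᶠ t : ℝ in 𝓝[>] (0 : ℝ), t ≠ r := by
      intro r _
      by_cases hr : r = 0
      · subst hr
        filter_upwards [self_mem_nhdsWithin] with t ht
        exact ne_of_gt ht
      · exact eventually_ne_nhdsWithin (Ne.symm hr)
    have h2 := (Finset.eventually_all B.roots.toFinset).2 h1
    filter_upwards [h2] with t ht h0
    refine ht t ?_ rfl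
    rw [Multiset.mem_toFinset, Polynomial.mem_roots hB]
    exact h0
  have hone : ∀ t : ℝ, HasSum (fun n => (if n = 0 then (1 : ℝ) else 0) * t ^ n) 1 := by
    intro t
    have := hasSum_single (f := fun n : ℕ => (if n = 0 then (1 : ℝ) else 0) * t ^ n) 0
      (fun n hn => by simp [hn])
    simpa using this
  have hmk : PowerSeries.mk (fun n : ℕ => if n = 0 then (1 : ℝ) else 0) = 1 := by
    ext n
    rw [PowerSeries.coeff_mk, PowerSeries.coeff_one]
  have key : ∀ k, PowerSeries.coeff k (PowerSeries.mk a * (B : PowerSeries ℝ))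
      - PowerSeries.coeff k (A : PowerSeries ℝ) = 0 := by
    intro k
    refine eq_zero_of_hasSum (fun k => PowerSeries.coeff k (PowerSeries.mk a * (B : PowerSeries ℝ))
      - PowerSeries.coeff k (A : PowerSeries ℝ)) ?_ k
    filter_upwards [h, hB'] with t ht htB
    have h1 := hasSum_mul_poly a t _ ht B
    have h2 := hasSum_mul_poly _ t _ (hone t) A
    rw [hmk, one_mul, one_mul] at h2
    rw [div_mul_cancel₀ _ htB] at h1
    have h3 := h1.sub h2
    rw [sub_self] at h3
    have e5 : (fun n => (PowerSeries.coeff n (PowerSeries.mk a * (B : PowerSeries ℝ))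
          - PowerSeries.coeff n (A : PowerSeries ℝ)) * t ^ n)
        = fun n => PowerSeries.coeff n (PowerSeries.mk a * (B : PowerSeries ℝ)) * t ^ n
          - PowerSeries.coeff n (A : PowerSeries ℝ) * t ^ n := by
      funext n
      ring
    rw [e5]
    exact h3
  ext k
  exact sub_eq_zero.1 (key k)

end Pool.Agent.TZ
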