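import Pool.Agent.TZ.DV

set_option autoImplicit false

/-! The limit `X → 1`: leading coefficient at `s = 0` of the topological zeta function. -/

namespace Pool.Agent.TZ

open Filter Topology

/-- Taylor coefficients at `Y = 1` of `Y ^ n0 * P(X, Y)`. -/
noncomputable def LPoly.tay (P : LPoly) (n0 k : ℕ) (x : ℝ) : ℝ :=
  (P.map fun t => (t.1 : ℝ) * x ^ t.2.1 * (((t.2.2 + (n0 : ℤ)).toNat.choose k : ℕ) : ℝ)).sum

/-- The number of factors `1 - Y ^ b` in the denominator. -/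
def zeroCount (D : List (ℤ × ℕ)) : ℕ := D.countP (fun t => t.1 = 0)

/-- The product of the exponents `b` of the factors `1 - Y ^ b`. -/
def zeroProd (D : List (ℤ × ℕ)) : ℕ := ((D.filter (fun t => t.1 = 0)).map fun t => t.2).prod

/-- The product of the factors `1 - x ^ a`, `a ≠ 0`. -/
noncomputable def nonzeroProd (D : List (ℤ × ℕ)) (x : ℝ) : ℝ :=
  ((D.filter (fun t => t.1 ≠ 0)).map fun t => 1 - x ^ t.1).prod

/-- `∏_i ∏_{1 ≤ j < W i} (1 - x ^ j)`. -/
noncomputable def kProd {c : ℕ} (W : Fin c → ℕ) (x : ℝ) : ℝ :=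
  ∏ i, ∏ j ∈ Finset.Ico 1 (W i), (1 - x ^ j)

namespace DLaux

theorem tendsto_slope (α : ℝ) :
    Tendsto (fun u : ℝ => (Real.exp (α * u) - 1) / u) (𝓝[>] 0) (𝓝 α) := by
  have h : HasDerivAt (fun u : ℝ => Real.exp (α * u)) α 0 := by
    have h1 : HasDerivAt (fun u : ℝ => α * u) α 0 := by
      simpa using (hasDerivAt_id (0 : ℝ)).const_mul α
    have h2 := h1.exp
    simpa using h2
  have h3 := (hasDerivAt_iff_tendsto_slope_zero.1 h).mono_left
    (nhdsWithin_mono 0 (fun x (hx : (0 : ℝ) < x) => (ne_of_gt hx : x ≠ 0)))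
  refine h3.congr fun u => ?_
  simp only [zero_add, mul_zero, Real.exp_zero, smul_eq_mul]
  rw [div_eq_inv_mul]

theorem tendsto_u {p : ℝ} (hp : 1 < p) :
    Tendsto (fun x : ℝ => x * Real.log p) (𝓝[>] 0) (𝓝[>] 0) := by
  have hl : 0 < Real.log p := Real.log_pos hp
  apply tendsto_nhdsWithin_of_tendsto_nhds_of_eventually_within
  · have : Tendsto (fun x : ℝ => x * Real.log p) (𝓝 0) (𝓝 (0 * Real.log p)) :=
      tendsto_id.mul_const _
    rw [zero_mul] at this
    exact this.mono_left nhdsWithin_le_nhds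
  · filter_upwards [self_mem_nhdsWithin] with x hx
    exact mul_pos hx hl

/-- The basic limit. -/
theorem tendsto_basic {p : ℝ} (hp : 1 < p) (α : ℝ) :
    Tendsto (fun x : ℝ => (Real.exp (α * (x * Real.log p)) - 1) / (x * Real.log p)) (𝓝[>] 0)
      (𝓝 α) := (tendsto_slope α).comp (tendsto_u hp)

theorem rpow_eq {p : ℝ} (hp : 1 < p) (x : ℝ) : p ^ x = Real.exp (x * Real.log p) := by
  rw [Real.rpow_def_of_pos (by linarith), mul_comm]

theorem zpow_eq {p : ℝ} (hp : 1 < p) (x : ℝ) (a : ℤ) :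
    (p ^ x) ^ a = Real.exp ((a : ℝ) * (x * Real.log p)) := by
  rw [rpow_eq hp, ← Real.rpow_intCast, ← Real.exp_mul]
  congr 1
  ring

theorem pow_eq {p : ℝ} (hp : 1 < p) (x : ℝ) (a : ℕ) :
    (p ^ x) ^ a = Real.exp ((a : ℝ) * (x * Real.log p)) := by
  rw [rpow_eq hp, Real.exp_nat_mul]

theorem neg_eq {p : ℝ} (hp : 1 < p) (x s : ℝ) :
    (p ^ x) ^ (-s) = Real.exp (-s * (x * Real.log p)) := by
  rw [rpow_eq hp, ← Real.exp_mul]
  congr 1
  ring

theorem tendsto_rpow {p : ℝ} (hp : 1 < p) :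
    Tendsto (fun x : ℝ => p ^ x) (𝓝[>] 0) (𝓝[>] 1) := by
  apply tendsto_nhdsWithin_of_tendsto_nhds_of_eventually_within
  · have h : Continuous (fun x : ℝ => p ^ x) :=
      Real.continuous_const_rpow (by linarith)
    have := h.tendsto 0
    rw [Real.rpow_zero] at this
    exact this.mono_left nhdsWithin_le_nhds
  · filter_upwards [self_mem_nhdsWithin] with x hx
    exact Real.one_lt_rpow hp hx

theorem term_eq (N K : ℕ) (hNK : N < K) (Y : ℝ) :
    Y ^ N = ∑ k ∈ Finset.range K, ((N.choose k : ℕ) : ℝ) * (Y - 1) ^ k := by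
  have h1 : Y ^ N = ((Y - 1) + 1) ^ N := by ring_nf
  rw [h1, add_pow]
  rw [← Finset.sum_subset (Finset.range_subset_range.2 (by omega : N + 1 ≤ K))]
  · apply Finset.sum_congr rfl
    intro k _
    rw [one_pow, mul_one, mul_comm]
  · intro k _ hk
    rw [Finset.mem_range, not_lt] at hk
    rw [Nat.choose_eq_zero_of_lt (by omega)]
    simp

theorem eval_eq (n0 K : ℕ) (X Y : ℝ) (hY : Y ≠ 0) : ∀ (P : LPoly),
    (∀ t ∈ P, 0 ≤ t.2.2 + (n0 : ℤ)) → (∀ t ∈ P, (t.2.2 + (n0 : ℤ)).toNat < K) →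
    Y ^ n0 * P.eval X Y = ∑ k ∈ Finset.range K, P.tay n0 k X * (Y - 1) ^ k
  | [], _, _ => by simp [LPoly.eval, LPoly.tay]
  | t :: P, h1, h2 => by
    have ih := eval_eq n0 K X Y hY P (fun t ht => h1 t (List.mem_cons_of_mem _ ht))
      (fun t ht => h2 t (List.mem_cons_of_mem _ ht))
    have e1 : LPoly.eval (t :: P) X Y = (t.1 : ℝ) * X ^ t.2.1 * Y ^ t.2.2 + LPoly.eval P X Y := by
      simp [LPoly.eval]
    have e2 : ∀ k, LPoly.tay (t :: P) n0 k X =
        (t.1 : ℝ) * X ^ t.2.1 * (((t.2.2 + (n0 : ℤ)).toNat.choose k : ℕ) : ℝ) +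
          LPoly.tay P n0 k X := by
      intro k; simp [LPoly.tay]
    simp_rw [e2, add_mul, Finset.sum_add_distrib]
    rw [e1, mul_add, ih]
    congr 1
    have h3 := term_eq (t.2.2 + (n0 : ℤ)).toNat K (h2 t List.mem_cons_self) Y
    have h4 : Y ^ n0 * Y ^ t.2.2 = Y ^ (t.2.2 + (n0 : ℤ)).toNat := by
      have h5 : ((t.2.2 + (n0 : ℤ)).toNat : ℤ) = t.2.2 + n0 :=
        Int.toNat_of_nonneg (h1 t List.mem_cons_self)
      rw [← zpow_natCast Y (t.2.2 + (n0 : ℤ)).toNat, h5, zpow_add₀ hY, zpow_natCast, mul_comm]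
    calc Y ^ n0 * ((t.1 : ℝ) * X ^ t.2.1 * Y ^ t.2.2)
        = (t.1 : ℝ) * X ^ t.2.1 * (Y ^ n0 * Y ^ t.2.2) := by ring
      _ = ∑ k ∈ Finset.range K, (t.1 : ℝ) * X ^ t.2.1 *
          (((t.2.2 + (n0 : ℤ)).toNat.choose k : ℕ) : ℝ) * (Y - 1) ^ k := by
        rw [h4, h3, Finset.mul_sum]
        apply Finset.sum_congr rfl
        intro k _
        ring

theorem list_prod_div {ι : Type} (f : ι → ℝ) (u : ℝ) : ∀ l : List ι,
    (l.map fun t => f t / u).prod = (l.map f).prod / u ^ l.length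
  | [] => by simp
  | t :: l => by
    rw [List.map_cons, List.prod_cons, list_prod_div f u l, List.map_cons, List.prod_cons,
      List.length_cons, pow_succ]
    rw [div_mul_div_comm, mul_comm (u ^ l.length)]

/-- The product `∏ (b s - a)`. -/
noncomputable def DD (D : List (ℤ × ℕ)) (s : ℝ) : ℝ :=
  (D.map fun t => (t.2 : ℝ) * s - (t.1 : ℝ)).prod

/-- The product `∏ (b s - a)` over `a ≠ 0`. -/
noncomputable def DN (D : List (ℤ × ℕ)) (s : ℝ) : ℝ :=
  ((D.filter (fun t => t.1 ≠ 0)).map fun t => (t.2 : ℝ) * s - (t.1 : ℝ)).prod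

theorem DD_eq (s : ℝ) : ∀ D : List (ℤ × ℕ),
    DD D s = (zeroProd D : ℝ) * s ^ zeroCount D * DN D s
  | [] => by simp [DD, DN, zeroProd, zeroCount]
  | t :: D => by
    have ih := DD_eq s D
    have e1 : DD (t :: D) s = ((t.2 : ℝ) * s - (t.1 : ℝ)) * DD D s := by simp [DD]
    by_cases ht : t.1 = 0
    · have e2 : zeroProd (t :: D) = t.2 * zeroProd D := by
        unfold zeroProd
        rw [List.filter_cons_of_pos (by simpa using ht)]
        simp
      have e3 : zeroCount (t :: D) = zeroCount D + 1 := by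
        unfold zeroCount
        rw [List.countP_cons_of_pos (by simpa using ht)]
      have e4 : DN (t :: D) s = DN D s := by
        unfold DN
        rw [List.filter_cons_of_neg (by simpa using ht)]
      rw [e1, e2, e3, e4, ih, ht]
      push_cast
      ring
    · have e2 : zeroProd (t :: D) = zeroProd D := by
        unfold zeroProd
        rw [List.filter_cons_of_neg (by simpa using ht)]
      have e3 : zeroCount (t :: D) = zeroCount D := by
        unfold zeroCount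
        rw [List.countP_cons_of_neg (by simpa using ht)]
      have e4 : DN (t :: D) s = ((t.2 : ℝ) * s - (t.1 : ℝ)) * DN D s := by
        unfold DN
        rw [List.filter_cons_of_pos (by simpa using ht)]
        simp
      rw [e1, e2, e3, e4, ih]
      ring

theorem length_eq : ∀ D : List (ℤ × ℕ),
    D.length = zeroCount D + (D.filter (fun t => t.1 ≠ 0)).length
  | [] => by simp [zeroCount]
  | t :: D => by
    have ih := length_eq D
    by_cases ht : t.1 = 0
    · have e3 : zeroCount (t :: D) = zeroCount D + 1 := by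
        unfold zeroCount
        rw [List.countP_cons_of_pos (by simpa using ht)]
      rw [List.filter_cons_of_neg (by simpa using ht), e3, List.length_cons, ih]
      omega
    · have e3 : zeroCount (t :: D) = zeroCount D := by
        unfold zeroCount
        rw [List.countP_cons_of_neg (by simpa using ht)]
      rw [List.filter_cons_of_pos (by simpa using ht), e3, List.length_cons, List.length_cons, ih]
      omega

theorem zeroProd_ne {D : List (ℤ × ℕ)} (h : ∀ t ∈ D, t ≠ (0, 0)) : zeroProd D ≠ 0 := by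
  unfold zeroProd
  rw [Ne, List.prod_eq_zero_iff, List.mem_map]
  rintro ⟨t, ht, h0⟩
  rw [List.mem_filter] at ht
  exact h t ht.1 (Prod.ext (by simpa using ht.2) h0)

theorem DN_zero_ne (D : List (ℤ × ℕ)) : DN D 0 ≠ 0 := by
  unfold DN
  rw [Ne, List.prod_eq_zero_iff, List.mem_map]
  rintro ⟨t, ht, h0⟩
  rw [List.mem_filter] at ht
  have : (t.1 : ℝ) = 0 := by linarith
  have h1 : t.1 = 0 := by exact_mod_cast this
  simp [h1] at ht

theorem DN_cont (D : List (ℤ × ℕ)) : Continuous (DN D) := by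
  unfold DN
  refine continuous_list_prod _ ?_
  intro t _
  fun_prop

theorem tendsto_den {p : ℝ} (hp : 1 < p) (D : List (ℤ × ℕ)) (s : ℝ) :
    Tendsto (fun x : ℝ => denEval D (p ^ x) ((p ^ x) ^ (-s)) / (x * Real.log p) ^ D.length)
      (𝓝[>] 0) (𝓝 (DD D s)) := by
  have h1 : Tendsto (fun x : ℝ => (D.map fun t =>
      (1 - (p ^ x) ^ t.1 * ((p ^ x) ^ (-s)) ^ t.2) / (x * Real.log p)).prod)
      (𝓝[>] 0) (𝓝 (D.map fun t => (t.2 : ℝ) * s - (t.1 : ℝ)).prod) := by
    apply tendsto_list_prod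
    intro t _
    have h2 := (tendsto_basic hp ((t.1 : ℝ) - (t.2 : ℝ) * s)).neg
    rw [neg_sub] at h2
    refine h2.congr fun x => ?_
    have h3 : (p ^ x) ^ t.1 * ((p ^ x) ^ (-s)) ^ t.2 =
        Real.exp (((t.1 : ℝ) - (t.2 : ℝ) * s) * (x * Real.log p)) := by
      rw [zpow_eq hp, neg_eq hp, ← Real.exp_nat_mul, ← Real.exp_add]
      congr 1
      ring
    rw [h3, ← neg_div, neg_sub]
  refine h1.congr fun x => ?_
  rw [list_prod_div]
  rfl

theorem tendsto_nonzero {p : ℝ} (hp : 1 < p) (D : List (ℤ × ℕ)) :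
    Tendsto (fun x : ℝ => nonzeroProd D (p ^ x) /
      (x * Real.log p) ^ (D.filter (fun t => t.1 ≠ 0)).length)
      (𝓝[>] 0) (𝓝 (DN D 0)) := by
  have h1 : Tendsto (fun x : ℝ => ((D.filter (fun t => t.1 ≠ 0)).map fun t =>
      (1 - (p ^ x) ^ t.1) / (x * Real.log p)).prod)
      (𝓝[>] 0) (𝓝 ((D.filter (fun t => t.1 ≠ 0)).map fun t =>
        (t.2 : ℝ) * 0 - (t.1 : ℝ)).prod) := by
    apply tendsto_list_prod
    intro t _
    have h2 := (tendsto_basic hp (t.1 : ℝ)).neg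
    rw [mul_zero, zero_sub]
    refine h2.congr fun x => ?_
    rw [zpow_eq hp, ← neg_div, neg_sub]
  refine h1.congr fun x => ?_
  rw [list_prod_div]
  rfl

theorem kProd_div {c : ℕ} (W : Fin c → ℕ) (hW : ∀ i, 1 ≤ W i) (x u : ℝ) :
    ∏ i, ∏ j ∈ Finset.Ico 1 (W i), ((1 - x ^ j) / u) = kProd W x / u ^ (∑ i, W i - c) := by
  have h1 : ∀ i, ∏ j ∈ Finset.Ico 1 (W i), ((1 - x ^ j) / u) =
      (∏ j ∈ Finset.Ico 1 (W i), (1 - x ^ j)) / u ^ (W i - 1) := by
    intro i
    rw [Finset.prod_div_distrib, Finset.prod_const, Nat.card_Ico]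
  simp_rw [h1]
  rw [Finset.prod_div_distrib, Finset.prod_pow_eq_pow_sum]
  have h2 : ∑ i, (W i - 1) = ∑ i, W i - c := by
    have h3 : ∑ i, (W i - 1) + c = ∑ i, W i := by
      have h4 : ∑ i : Fin c, (W i - 1) + ∑ i : Fin c, 1 = ∑ i, W i := by
        rw [← Finset.sum_add_distrib]
        apply Finset.sum_congr rfl
        intro i _
        have := hW i
        omega
      simpa using h4
    omega
  rw [h2]
  rfl

theorem tendsto_kProd {p : ℝ} (hp : 1 < p) {c : ℕ} (W : Fin c → ℕ) (hW : ∀ i, 1 ≤ W i) :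
    Tendsto (fun x : ℝ => kProd W (p ^ x) / (x * Real.log p) ^ (∑ i, W i - c))
      (𝓝[>] 0) (𝓝 (∏ i, ∏ j ∈ Finset.Ico 1 (W i), (-(j : ℝ)))) := by
  have h1 : Tendsto (fun x : ℝ => ∏ i, ∏ j ∈ Finset.Ico 1 (W i),
      ((1 - (p ^ x) ^ j) / (x * Real.log p))) (𝓝[>] 0)
      (𝓝 (∏ i, ∏ j ∈ Finset.Ico 1 (W i), (-(j : ℝ)))) := by
    apply tendsto_finsetProd
    intro i _
    apply tendsto_finsetProd
    intro j _
    have h2 := (tendsto_basic hp (j : ℝ)).neg
    refine h2.congr fun x => ?_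
    rw [pow_eq hp, ← neg_div, neg_sub]
  refine h1.congr fun x => ?_
  rw [kProd_div W hW]

theorem kProd_ne {c : ℕ} (W : Fin c → ℕ) {x : ℝ} (hx : 1 < x) : kProd W x ≠ 0 := by
  unfold kProd
  rw [Finset.prod_ne_zero_iff]
  intro i _
  rw [Finset.prod_ne_zero_iff]
  intro j hj
  rw [Finset.mem_Ico] at hj
  have : 1 < x ^ j := one_lt_pow₀ hx (by omega)
  linarith

end DLaux

open DLaux in
/-- The limit statement. `E i x` stands for the count `e_i` at a real exponent; `p` is a fixed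
prime (any real number larger than `1`). -/
theorem limit_main (p : ℝ) (hp : 1 < p) {c N : ℕ} (W R : Fin c → ℕ) (hW : ∀ i, 1 ≤ W i)
    (hR : ∀ i, 1 ≤ R i) (num : Fin N → LPoly) (den : List (ℤ × ℕ))
    (hden : ∀ t ∈ den, t ≠ (0, 0)) (n0 : ℕ) (hn0 : ∀ i, ∀ t ∈ num i, 0 ≤ t.2.2 + (n0 : ℤ))
    (χ : Fin N → ℝ) (E : Fin N → ℝ → ℝ)
    (hE : ∀ i, Tendsto (E i) (𝓝[>] 0) (𝓝 (χ i)))
    (hz : c ≤ zeroCount den)
    (h0 : ∀ k < zeroCount den - c, ∀ x : ℝ, 0 < x →
      ∑ i, E i x * (num i).tay n0 k (p ^ x) = 0)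
    (h1 : ∀ x : ℝ, 0 < x →
      (∑ i, E i x * (num i).tay n0 (zeroCount den - c) (p ^ x)) * (∏ i, (R i : ℝ)) *
        kProd W (p ^ x) =
      (-1) ^ (zeroCount den - c) * (zeroProd den : ℝ) * nonzeroProd den (p ^ x) *
        ∏ i, (W i : ℝ))
    (S : Finset ℝ) (w : Fin N → ℝ → ℝ)
    (hw : ∀ s : ℝ, s ∉ S → ∀ i, Tendsto
      (fun x : ℝ => (1 - x⁻¹) ^ (∑ i, W i) *
        ((num i).eval x (x ^ (-s)) / denEval den x (x ^ (-s)))) (𝓝[>] 1) (𝓝 (w i s))) :
    Tendsto (fun s : ℝ => s ^ c * ∑ i, χ i * w i s) (𝓝[≠] 0)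
      (𝓝 ((∏ i, (W i : ℝ) / (R i : ℝ)) * ∏ i, ∏ j ∈ Finset.Ico 1 (W i), (-(j : ℝ))⁻¹)) := by
  classical
  set z := zeroCount den with hzdef
  set r := ∑ i, W i with hrdef
  set nD := den.length with hnD
  set L := Real.log p with hL
  have hLpos : 0 < L := Real.log_pos hp
  -- the bound for the exponents
  obtain ⟨K, hK0, hK⟩ : ∃ K : ℕ, z - c < K ∧ ∀ i, ∀ t ∈ num i, (t.2.2 + (n0 : ℤ)).toNat < K := by
    refine ⟨(z - c) + 1 + ∑ i, ((num i).map fun t => (t.2.2 + (n0 : ℤ)).toNat).sum, by omega, ?_⟩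
    intro i t ht
    have e1 : (t.2.2 + (n0 : ℤ)).toNat ≤ ((num i).map fun t => (t.2.2 + (n0 : ℤ)).toNat).sum :=
      List.single_le_sum (by intro x _; exact Nat.zero_le _) _
        (List.mem_map.2 ⟨t, ht, rfl⟩)
    have e2 : ((num i).map fun t => (t.2.2 + (n0 : ℤ)).toNat).sum ≤
        ∑ i, ((num i).map fun t => (t.2.2 + (n0 : ℤ)).toNat).sum :=
      Finset.single_le_sum (f := fun i => ((num i).map fun t => (t.2.2 + (n0 : ℤ)).toNat).sum)
        (fun _ _ => Nat.zero_le _) (Finset.mem_univ i)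
    omega
  set τ : ℕ → ℝ → ℝ := fun k x => ∑ i, E i x * (num i).tay n0 k (p ^ x) with hτ
  set ρ : Fin K → ℝ → ℝ := fun k x =>
    τ k x * ((x * L) ^ ((k : ℕ) : ℤ) * (x * L) ^ (r : ℤ) * ((x * L) ^ (nD : ℤ))⁻¹) with hρ
  set y : ℝ → ℝ → ℝ := fun s x => ((p ^ x) ^ (-s) - 1) / (x * L) with hy
  have hyt : ∀ s : ℝ, Tendsto (y s) (𝓝[>] 0) (𝓝 (-s)) := by
    intro s
    refine (tendsto_basic hp (-s)).congr fun x => ?_
    rw [hy]
    simp only
    rw [neg_eq hp]
  set S' : Finset ℝ := S ∪ (den.map fun t => (t.1 : ℝ) / (t.2 : ℝ)).toFinset with hS'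
  have hDD : ∀ s : ℝ, s ∉ S' → DD den s ≠ 0 := by
    intro s hs h
    unfold DD at h
    rw [List.prod_eq_zero_iff, List.mem_map] at h
    obtain ⟨t, ht, h2⟩ := h
    by_cases hb : t.2 = 0
    · rw [hb] at h2
      have h3 : (t.1 : ℝ) = 0 := by
        push_cast at h2
        linarith
      have h4 : t.1 = 0 := by exact_mod_cast h3
      exact hden t ht (Prod.ext h4 hb)
    · apply hs
      rw [hS', Finset.mem_union, List.mem_toFinset, List.mem_map]
      right
      refine ⟨t, ht, ?_⟩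
      have hb' : (t.2 : ℝ) ≠ 0 := by exact_mod_cast hb
      rw [div_eq_iff hb']
      linarith
  -- the main limit
  have hmain : ∀ s : ℝ, s ∉ S' → Tendsto (fun x => ∑ k : Fin K, ρ k x * y s x ^ (k : ℕ))
      (𝓝[>] 0) (𝓝 (DD den s * ∑ i, χ i * w i s)) := by
    intro s hs
    have hsS : s ∉ S := fun h => hs (by rw [hS']; exact Finset.mem_union_left _ h)
    have t1 : Tendsto (fun x : ℝ => ∑ i, E i x * ((1 - (p ^ x)⁻¹) ^ r *
        ((num i).eval (p ^ x) ((p ^ x) ^ (-s)) / denEval den (p ^ x) ((p ^ x) ^ (-s)))))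
        (𝓝[>] 0) (𝓝 (∑ i, χ i * w i s)) := by
      apply tendsto_finsetSum
      intro i _
      exact (hE i).mul ((hw s hsS i).comp (tendsto_rpow hp))
    have t2 := tendsto_den hp den s
    simp only [← hL, ← hnD] at t2
    have t3 : Tendsto (fun x : ℝ => ((1 - (p ^ x)⁻¹) / (x * L)) ^ r) (𝓝[>] 0) (𝓝 1) := by
      have h2 := ((tendsto_basic hp (-1)).neg).pow r
      rw [neg_neg, one_pow] at h2
      refine h2.congr fun x => ?_
      rw [← neg_div, neg_sub, rpow_eq hp, ← Real.exp_neg]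
      congr 4
      ring
    have t4 : Tendsto (fun x : ℝ => ((p ^ x) ^ (-s)) ^ n0) (𝓝[>] 0) (𝓝 1) := by
      have h2 : Continuous (fun x : ℝ => (Real.exp (-s * (x * L))) ^ n0) := by fun_prop
      have h3 := h2.tendsto 0
      simp only [zero_mul, mul_zero, Real.exp_zero, one_pow] at h3
      refine (h3.mono_left nhdsWithin_le_nhds).congr fun x => ?_
      rw [neg_eq hp]
    have t5 := (t2.mul t1).mul (t4.mul (t3.inv₀ one_ne_zero))
    rw [inv_one, mul_one, mul_one] at t5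
    refine t5.congr' ?_
    have hne : ∀ᶠ x in 𝓝[>] (0 : ℝ),
        denEval den (p ^ x) ((p ^ x) ^ (-s)) / (x * L) ^ nD ≠ 0 :=
      t2.eventually_ne (hDD s hs)
    filter_upwards [hne, self_mem_nhdsWithin] with x hx hx0
    have hx0' : (0 : ℝ) < x := hx0
    have hu : 0 < x * L := mul_pos hx0' hLpos
    have hX1 : 1 < p ^ x := Real.one_lt_rpow hp hx0'
    have hX0 : 0 < p ^ x := by linarith
    have hden0 : denEval den (p ^ x) ((p ^ x) ^ (-s)) ≠ 0 := by
      intro h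
      rw [h, zero_div] at hx
      exact hx rfl
    have hY0 : (p ^ x) ^ (-s) ≠ 0 := (Real.rpow_pos_of_pos hX0 _).ne'
    have hone : 1 - (p ^ x)⁻¹ ≠ 0 := by
      have : (p ^ x)⁻¹ < 1 := inv_lt_one_of_one_lt₀ hX1
      linarith
    -- right side
    have e1 : ∑ k : Fin K, ρ k x * y s x ^ (k : ℕ) =
        (x * L) ^ r / (x * L) ^ nD *
          ∑ k ∈ Finset.range K, τ k x * ((p ^ x) ^ (-s) - 1) ^ k := by
      rw [Finset.sum_range, Finset.mul_sum]
      apply Finset.sum_congr rfl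
      intro k _
      rw [hρ, hy]
      simp only [zpow_natCast, div_pow]
      field_simp
    have e2 : ∑ k ∈ Finset.range K, τ k x * ((p ^ x) ^ (-s) - 1) ^ k =
        ((p ^ x) ^ (-s)) ^ n0 * ∑ i, E i x * (num i).eval (p ^ x) ((p ^ x) ^ (-s)) := by
      rw [hτ]
      simp only
      simp_rw [Finset.sum_mul]
      rw [Finset.sum_comm, Finset.mul_sum]
      apply Finset.sum_congr rfl
      intro i _
      have h2 := eval_eq n0 K (p ^ x) ((p ^ x) ^ (-s)) hY0 (num i) (hn0 i) (hK i)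
      rw [mul_left_comm, h2, Finset.mul_sum]
      apply Finset.sum_congr rfl
      intro k _
      ring
    rw [e1, e2]
    have e3 : ∑ i, E i x * ((1 - (p ^ x)⁻¹) ^ r *
        ((num i).eval (p ^ x) ((p ^ x) ^ (-s)) / denEval den (p ^ x) ((p ^ x) ^ (-s)))) =
        (1 - (p ^ x)⁻¹) ^ r / denEval den (p ^ x) ((p ^ x) ^ (-s)) *
        ∑ i, E i x * (num i).eval (p ^ x) ((p ^ x) ^ (-s)) := by
      rw [Finset.mul_sum]
      apply Finset.sum_congr rfl
      intro i _
      ring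
    rw [e3]
    have hu' : x * L ≠ 0 := hu.ne'
    have hpr : (1 - (p ^ x)⁻¹) ^ r ≠ 0 := pow_ne_zero _ hone
    rw [div_pow]
    generalize (1 - (p ^ x)⁻¹) ^ r = v at hpr ⊢
    field_simp
  obtain ⟨RR, hRR, hB⟩ := coeff_tendsto ρ y (fun s => DD den s * ∑ i, χ i * w i s) S' (𝓝[>] 0)
    hyt hmain
  have hk0 : z - c < K := hK0
  -- vanishing of the first coefficients
  have hR0 : ∀ k : Fin K, (k : ℕ) < z - c → RR k = 0 := by
    intro k hk
    refine tendsto_nhds_unique (hRR k) ?_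
    refine (tendsto_const_nhds (x := (0 : ℝ))).congr' ?_
    filter_upwards [self_mem_nhdsWithin] with x hx
    have h2 := h0 k hk x hx
    rw [hρ]
    simp only
    rw [show τ k x = 0 from h2, zero_mul]
  -- the leading coefficient
  set Q := ∏ i, ∏ j ∈ Finset.Ico 1 (W i), (-(j : ℝ)) with hQ
  have hQ0 : Q ≠ 0 := by
    rw [hQ, Finset.prod_ne_zero_iff]
    intro i _
    rw [Finset.prod_ne_zero_iff]
    intro j hj
    rw [Finset.mem_Ico] at hj
    have : (j : ℝ) ≠ 0 := by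
      have : j ≠ 0 := by omega
      exact_mod_cast this
    exact neg_ne_zero.2 this
  have hPR : (∏ i, (R i : ℝ)) ≠ 0 := by
    rw [Finset.prod_ne_zero_iff]
    intro i _
    have := hR i
    have h2 : R i ≠ 0 := by omega
    exact_mod_cast h2
  have hR1 : RR ⟨z - c, hk0⟩ = (-1) ^ (z - c) * (zeroProd den : ℝ) * DN den 0 *
      (∏ i, (W i : ℝ)) / ((∏ i, (R i : ℝ)) * Q) := by
    refine tendsto_nhds_unique (hRR ⟨z - c, hk0⟩) ?_
    have t1 := tendsto_nonzero hp den
    have t2 := tendsto_kProd hp W hW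
    simp only [← hL, ← hrdef, ← hQ] at t1 t2
    have t3 := ((t1.const_mul ((-1) ^ (z - c) * (zeroProd den : ℝ))).mul_const
      (∏ i, (W i : ℝ))).div (t2.const_mul (∏ i, (R i : ℝ))) (mul_ne_zero hPR hQ0)
    refine t3.congr' ?_
    filter_upwards [self_mem_nhdsWithin] with x hx0
    have hx0' : (0 : ℝ) < x := hx0
    have hu : x * L ≠ 0 := (mul_pos hx0' hLpos).ne'
    have hX1 : 1 < p ^ x := Real.one_lt_rpow hp hx0'
    have hkp := kProd_ne W hX1
    have hlen := length_eq den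
    have e0 := h1 x hx0'
    have hτ0 : τ (z - c) x = (-1) ^ (z - c) * (zeroProd den : ℝ) * nonzeroProd den (p ^ x) *
        (∏ i, (W i : ℝ)) / ((∏ i, (R i : ℝ)) * kProd W (p ^ x)) := by
      rw [eq_div_iff (mul_ne_zero hPR hkp), ← mul_assoc]
      exact e0
    have hrc : c ≤ r := by
      have h4 : ∑ i : Fin c, 1 ≤ ∑ i, W i := Finset.sum_le_sum fun i _ => hW i
      simpa using h4
    set nN := (den.filter (fun t => t.1 ≠ 0)).length with hnN
    have hpow : (x * L) ^ (z - c) * (x * L) ^ r * (x * L) ^ nN =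
        (x * L) ^ (r - c) * (x * L) ^ nD := by
      rw [← pow_add, ← pow_add, ← pow_add]
      congr 1
      omega
    have hpw1 : (x * L) ^ nN ≠ 0 := pow_ne_zero _ hu
    have hpw2 : (x * L) ^ (r - c) ≠ 0 := pow_ne_zero _ hu
    have hpw3 : (x * L) ^ nD ≠ 0 := pow_ne_zero _ hu
    have hrat : (x * L) ^ (z - c) * (x * L) ^ r * ((x * L) ^ nD)⁻¹ =
        (x * L) ^ (r - c) / (x * L) ^ nN := by
      rw [eq_div_iff hpw1, mul_right_comm, hpow]
      field_simp
    rw [hρ]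
    simp only [zpow_natCast]
    rw [hτ0, hrat]
    simp only [Pi.div_apply]
    field_simp
  -- conclusion
  have hzp : (zeroProd den : ℝ) ≠ 0 := by exact_mod_cast zeroProd_ne hden
  have hDN := DN_zero_ne den
  -- the polynomial after removing the power of `-s`
  set G : ℝ → ℝ := fun s => ∑ k : Fin K, if z - c ≤ (k : ℕ) then
    RR k * (-s) ^ ((k : ℕ) - (z - c)) else 0 with hG
  have hGc : Continuous G := by
    rw [hG]
    apply continuous_finsetSum
    intro k _
    by_cases h : z - c ≤ (k : ℕ)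
    · simp only [if_pos h]
      fun_prop
    · simp only [if_neg h]
      exact continuous_const
  have hG0 : G 0 = RR ⟨z - c, hk0⟩ := by
    rw [hG]
    simp only
    rw [Finset.sum_eq_single ⟨z - c, hk0⟩]
    · simp
    · intro k _ hk
      by_cases h : z - c ≤ (k : ℕ)
      · rw [if_pos h]
        have h3 : (k : ℕ) ≠ z - c := fun h4 => hk (Fin.ext h4)
        rw [neg_zero, zero_pow (by omega), mul_zero]
      · rw [if_neg h]
    · intro h
      exact absurd (Finset.mem_univ _) h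
  have hGs : ∀ s : ℝ, ∑ k : Fin K, RR k * (-s) ^ (k : ℕ) = (-s) ^ (z - c) * G s := by
    intro s
    rw [hG]
    simp only
    rw [Finset.mul_sum]
    apply Finset.sum_congr rfl
    intro k _
    by_cases h : z - c ≤ (k : ℕ)
    · rw [if_pos h]
      have h3 : (k : ℕ) = (z - c) + ((k : ℕ) - (z - c)) := by omega
      conv_lhs => rw [h3, pow_add]
      ring
    · rw [if_neg h, hR0 k (by omega)]
      ring
  have hlim : Tendsto (fun s : ℝ => (-1) ^ (z - c) * G s / ((zeroProd den : ℝ) * DN den s))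
      (𝓝[≠] 0) (𝓝 ((-1) ^ (z - c) * G 0 / ((zeroProd den : ℝ) * DN den 0))) := by
    apply Tendsto.mono_left _ nhdsWithin_le_nhds
    exact ((hGc.tendsto 0).const_mul _).div (((DN_cont den).tendsto 0).const_mul _)
      (mul_ne_zero hzp hDN)
  have hval : (-1) ^ (z - c) * G 0 / ((zeroProd den : ℝ) * DN den 0) =
      (∏ i, (W i : ℝ) / (R i : ℝ)) * ∏ i, ∏ j ∈ Finset.Ico 1 (W i), (-(j : ℝ))⁻¹ := by
    rw [hG0, hR1, Finset.prod_div_distrib]
    have hQi : ∏ i, ∏ j ∈ Finset.Ico 1 (W i), (-(j : ℝ))⁻¹ = Q⁻¹ := by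
      rw [hQ, ← Finset.prod_inv_distrib]
      apply Finset.prod_congr rfl
      intro i _
      rw [← Finset.prod_inv_distrib]
    rw [hQi]
    have hsq : ((-1 : ℝ) ^ (z - c)) * (-1) ^ (z - c) = 1 := by
      rw [← mul_pow]
      norm_num
    have hm : ((-1 : ℝ) ^ (z - c)) ≠ 0 := pow_ne_zero _ (by norm_num)
    field_simp
    have hsq2 : ((-1 : ℝ) ^ (z - c)) ^ 2 = 1 := by rw [pow_two]; exact hsq
    first
    | linear_combination hsq2
    | linear_combination (∏ i, (W i : ℝ)) * hsq2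
  rw [← hval]
  refine hlim.congr' ?_
  have hS'fin : ∀ᶠ s in 𝓝[≠] (0 : ℝ), s ∉ S' := by
    have h2 : Set.Finite ((S' : Set ℝ) \ {0}) := (S'.finite_toSet).subset Set.sdiff_subset
    have h3 : ((S' : Set ℝ) \ {0})ᶜ ∈ 𝓝 (0 : ℝ) := by
      apply h2.isClosed.isOpen_compl.mem_nhds
      simp
    filter_upwards [mem_nhdsWithin_of_mem_nhds h3, self_mem_nhdsWithin] with s hs1 hs2 hs3
    exact hs1 ⟨hs3, hs2⟩
  have hDNne : ∀ᶠ s in 𝓝[≠] (0 : ℝ), DN den s ≠ 0 :=
    (((DN_cont den).tendsto 0).mono_left nhdsWithin_le_nhds).eventually_ne hDN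
  filter_upwards [hS'fin, hDNne, self_mem_nhdsWithin] with s hs hsD hs0
  have hs0' : s ≠ 0 := hs0
  have e1 := hB s hs
  rw [hGs s, DD_eq] at e1
  have hpz : s ^ z = s ^ c * s ^ (z - c) := by
    rw [← pow_add]
    congr 1
    omega
  have e2 : (-s) ^ (z - c) = (-1) ^ (z - c) * s ^ (z - c) := by
    rw [← mul_pow]
    congr 1
    ring
  rw [e2, hpz] at e1
  have hsz : s ^ (z - c) ≠ 0 := pow_ne_zero _ hs0'
  rw [div_eq_iff (mul_ne_zero hzp hsD)]
  apply mul_right_cancel₀ hsz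
  linear_combination -e1

end Pool.Agent.TZ
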