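import Pool.Agent.TZ.PS
import Pool.Agent.TZ.DF
import Pool.Agent.TZ.DL

set_option autoImplicit false

/-! Local Taylor coefficients. -/

namespace Pool.Agent.TZ

open Filter Topology

namespace DT1Aux

open Polynomial

/-- The denominator as a polynomial. -/
noncomputable def denP (q : ℕ) (D : List (ℤ × ℕ)) : ℚ[X] :=
  (D.map fun t => 1 - C ((q : ℚ) ^ t.1) * X ^ t.2).prod

/-- The denominator without the factors `1 - X`. -/
noncomputable def denQ (q : ℕ) (D : List (ℤ × ℕ)) : ℚ[X] :=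
  (D.map fun t => if t.1 = 0 then ∑ i ∈ Finset.range t.2, X ^ i
    else 1 - C ((q : ℚ) ^ t.1) * X ^ t.2).prod

/-- The numerator as a polynomial. -/
noncomputable def numP (q n0 : ℕ) (P : LPoly) : ℚ[X] :=
  (P.map fun t => monomial (t.2.2 + (n0 : ℤ)).toNat (t.1 * (q : ℚ) ^ t.2.1)).sum

theorem denP_eq (q : ℕ) (D : List (ℤ × ℕ)) :
    denP q D = (1 - X) ^ zeroCount D * denQ q D := by
  induction D with
  | nil => simp [denP, denQ, zeroCount]
  | cons t D ih =>
    have h1 : denP q (t :: D) = (1 - C ((q : ℚ) ^ t.1) * X ^ t.2) * denP q D := by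
      simp [denP]
    have h2 : denQ q (t :: D) = (if t.1 = 0 then ∑ i ∈ Finset.range t.2, X ^ i
      else 1 - C ((q : ℚ) ^ t.1) * X ^ t.2) * denQ q D := by
      simp [denQ]
    by_cases ht : t.1 = 0
    · have h3 : zeroCount (t :: D) = zeroCount D + 1 := by
        simp [zeroCount, ht]
      rw [h1, h2, ih, if_pos ht, h3, ht, zpow_zero, C_1, one_mul,
        ← mul_neg_geom_sum (X : ℚ[X]) t.2]
      ring
    · have h3 : zeroCount (t :: D) = zeroCount D := by
        simp [zeroCount, ht]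
      rw [h1, h2, ih, if_neg ht, h3]
      ring

theorem denQ_eval (q : ℕ) (D : List (ℤ × ℕ)) :
    (((denQ q D).eval 1 : ℚ) : ℝ) = (zeroProd D : ℝ) * nonzeroProd D (q : ℝ) := by
  induction D with
  | nil => simp [denQ, zeroProd, nonzeroProd]
  | cons t D ih =>
    have h2 : denQ q (t :: D) = (if t.1 = 0 then ∑ i ∈ Finset.range t.2, X ^ i
      else 1 - C ((q : ℚ) ^ t.1) * X ^ t.2) * denQ q D := by
      simp [denQ]
    by_cases ht : t.1 = 0
    · have h3 : zeroProd (t :: D) = t.2 * zeroProd D := by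
        simp [zeroProd, ht]
      have h4 : nonzeroProd (t :: D) (q : ℝ) = nonzeroProd D (q : ℝ) := by
        simp [nonzeroProd, ht]
      rw [h2, h3, h4, if_pos ht, eval_mul, Rat.cast_mul, ih, eval_finsetSum]
      simp
      ring
    · have h3 : zeroProd (t :: D) = zeroProd D := by
        simp [zeroProd, ht]
      have h4 : nonzeroProd (t :: D) (q : ℝ) = (1 - (q : ℝ) ^ t.1) * nonzeroProd D (q : ℝ) := by
        simp [nonzeroProd, ht]
      rw [h2, h3, h4, if_neg ht, eval_mul, Rat.cast_mul, ih]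
      simp
      ring

theorem zeroProd_ne (D : List (ℤ × ℕ)) (hD : ∀ t ∈ D, t ≠ (0, 0)) : zeroProd D ≠ 0 := by
  rw [zeroProd, Ne, List.prod_eq_zero_iff]
  intro h
  obtain ⟨t, ht, h0⟩ := List.mem_map.mp h
  rw [List.mem_filter] at ht
  apply hD t ht.1
  have h1 : t.1 = 0 := by simpa using ht.2
  exact Prod.ext h1 h0

theorem zpow_ne_one (q : ℕ) (hq1 : 1 < q) (a : ℤ) (ha : a ≠ 0) : (q : ℝ) ^ a ≠ 1 := by
  have h1 : (1 : ℝ) < q := by exact_mod_cast hq1
  intro h
  exact ha ((zpow_eq_one_iff_right₀ (by linarith) (by linarith)).mp h)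

theorem nonzeroProd_ne (q : ℕ) (hq1 : 1 < q) (D : List (ℤ × ℕ)) :
    nonzeroProd D (q : ℝ) ≠ 0 := by
  rw [nonzeroProd, Ne, List.prod_eq_zero_iff]
  intro h
  obtain ⟨t, ht, h0⟩ := List.mem_map.mp h
  rw [List.mem_filter] at ht
  have h1 : t.1 ≠ 0 := by simpa using ht.2
  exact zpow_ne_one q hq1 t.1 h1 (by linarith)

theorem denQ_eval_ne (q : ℕ) (hq1 : 1 < q) (D : List (ℤ × ℕ)) (hD : ∀ t ∈ D, t ≠ (0, 0)) :
    (denQ q D).eval 1 ≠ 0 := by
  intro h
  have h1 := denQ_eval q D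
  rw [h, Rat.cast_zero] at h1
  rcases mul_eq_zero.mp h1.symm with h2 | h2
  · exact zeroProd_ne D hD (by exact_mod_cast h2)
  · exact nonzeroProd_ne q hq1 D h2

theorem denP_ne (q : ℕ) (hq1 : 1 < q) (D : List (ℤ × ℕ)) (hD : ∀ t ∈ D, t ≠ (0, 0)) :
    denP q D ≠ 0 := by
  rw [denP_eq]
  apply mul_ne_zero
  · apply pow_ne_zero
    intro h
    have := congrArg (fun f => f.eval 0) h
    simp at this
  · intro h
    apply denQ_eval_ne q hq1 D hD
    rw [h, eval_zero]

theorem denP_eval (q : ℕ) (D : List (ℤ × ℕ)) (t : ℝ) :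
    ((denP q D).map (algebraMap ℚ ℝ)).eval t = denEval D (q : ℝ) t := by
  induction D with
  | nil => simp [denP, denEval]
  | cons x D ih =>
    have h1 : denP q (x :: D) = (1 - C ((q : ℚ) ^ x.1) * X ^ x.2) * denP q D := by
      simp [denP]
    have h2 : denEval (x :: D) (q : ℝ) t = (1 - (q : ℝ) ^ x.1 * t ^ x.2) *
        denEval D (q : ℝ) t := by
      simp [denEval]
    rw [h1, h2, Polynomial.map_mul, eval_mul, ih]
    simp

theorem numP_eval (q n0 : ℕ) (P : LPoly) (hP : ∀ t ∈ P, 0 ≤ t.2.2 + (n0 : ℤ)) (t : ℝ)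
    (ht : t ≠ 0) :
    ((numP q n0 P).map (algebraMap ℚ ℝ)).eval t = t ^ n0 * P.eval (q : ℝ) t := by
  induction P with
  | nil => simp [numP, LPoly.eval]
  | cons x P ih =>
    have h1 : numP q n0 (x :: P) = monomial (x.2.2 + (n0 : ℤ)).toNat (x.1 * (q : ℚ) ^ x.2.1) +
        numP q n0 P := by
      simp [numP]
    have h2 : LPoly.eval (x :: P) (q : ℝ) t = (x.1 : ℝ) * (q : ℝ) ^ x.2.1 * t ^ x.2.2 +
        LPoly.eval P (q : ℝ) t := by
      simp [LPoly.eval]
    rw [h1, h2, Polynomial.map_add, eval_add, ih (fun y hy => hP y (List.mem_cons_of_mem _ hy)),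
      mul_add, map_monomial, eval_monomial]
    congr 1
    have h3 : t ^ (x.2.2 + (n0 : ℤ)).toNat = t ^ n0 * t ^ x.2.2 := by
      rw [← zpow_natCast t (x.2.2 + (n0 : ℤ)).toNat, Int.toNat_of_nonneg (hP x List.mem_cons_self),
        zpow_add₀ ht, zpow_natCast, mul_comm]
    rw [h3]
    simp
    ring

theorem numP_tay (q n0 : ℕ) (P : LPoly) (k : ℕ) :
    (((hasseDeriv k (numP q n0 P)).eval 1 : ℚ) : ℝ) = P.tay n0 k (q : ℝ) := by
  induction P with
  | nil => simp [numP, LPoly.tay]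
  | cons x P ih =>
    have h1 : numP q n0 (x :: P) = monomial (x.2.2 + (n0 : ℤ)).toNat (x.1 * (q : ℚ) ^ x.2.1) +
        numP q n0 P := by
      simp [numP]
    have h2 : LPoly.tay (x :: P) n0 k (q : ℝ) = (x.1 : ℝ) * (q : ℝ) ^ x.2.1 *
        (((x.2.2 + (n0 : ℤ)).toNat.choose k : ℕ) : ℝ) + LPoly.tay P n0 k (q : ℝ) := by
      simp [LPoly.tay]
    rw [h1, h2, map_add, eval_add, Rat.cast_add, ih, hasseDeriv_monomial, eval_monomial]
    congr 1
    push_cast
    simp
    ring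

theorem hasseDeriv_factor (m k : ℕ) (P2 : ℚ[X]) :
    (k < m → (hasseDeriv k ((1 - X) ^ m * P2)).eval 1 = 0) ∧
      (hasseDeriv m ((1 - X) ^ m * P2)).eval 1 = (-1) ^ m * P2.eval 1 := by
  have h1 : taylor 1 ((1 - X) ^ m * P2) = (C ((-1) ^ m) * taylor 1 P2) * X ^ m := by
    rw [taylor_mul, taylor_pow, map_sub, taylor_one, taylor_X]
    have h2 : (1 : ℚ[X]) - (X + C 1) = -X := by
      rw [C_1]
      ring
    have h3 : (C 1 : ℚ[X]) - (X + C 1) = -X := by
      rw [C_1]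
      ring
    first
      | rw [h2]
      | rw [h3]
    rw [neg_pow, C_pow, C_neg, C_1]
    ring
  constructor
  · intro hk
    rw [← taylor_coeff, h1, coeff_mul_X_pow', if_neg (by omega)]
  · rw [← taylor_coeff, h1, coeff_mul_X_pow', if_pos le_rfl, Nat.sub_self, coeff_C_mul,
      taylor_coeff_zero]

end DT1Aux

open DT1Aux in
/-- For one ring (`q = p ^ f`): the Taylor coefficients at `t = 1` of the numerator. The `E i` are
the integers `e_i(p, f)`, `a n` the number of ideals of index `q ^ n`. -/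
theorem local_taylor (p : ℕ) [Fact p.Prime] (q : ℕ) (hq : p ∣ q) (hq1 : 1 < q) {c N : ℕ}
    (W R : Fin c → ℕ) (hW : ∀ i, 1 ≤ W i) (hR : ∀ i, 1 ≤ R i) (num : Fin N → LPoly)
    (den : List (ℤ × ℕ)) (hden : ∀ t ∈ den, t ≠ (0, 0)) (n0 : ℕ)
    (hn0 : ∀ i, ∀ t ∈ num i, 0 ≤ t.2.2 + (n0 : ℤ)) (E : Fin N → ℤ) (a : ℕ → ℕ)
    (ha : ∀ᶠ s : ℝ in atTop, HasSum (fun n : ℕ => (a n : ℝ) * ((q : ℝ) ^ (-s)) ^ n)
      (∑ i, (E i : ℝ) * (num i).eval (q : ℝ) ((q : ℝ) ^ (-s)) /
        denEval den (q : ℝ) ((q : ℝ) ^ (-s))))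
    (F : PowerSeries ℤ) (hF : PowerSeries.mk (fun n => (a n : ℤ)) *
      ∏ k, (1 - PowerSeries.X ^ (R k)) = F)
    (hS : PSum p F (((∏ i, (W i : ℚ) / ∏ j ∈ Finset.Ico 1 (W i), (1 - (q : ℚ) ^ j)) : ℚ) :
      ℚ_[p])) :
    c ≤ zeroCount den ∧
    (∀ k < zeroCount den - c, ∑ i, (E i : ℝ) * (num i).tay n0 k (q : ℝ) = 0) ∧
    (∑ i, (E i : ℝ) * (num i).tay n0 (zeroCount den - c) (q : ℝ)) * (∏ i, (R i : ℝ)) *
        kProd W (q : ℝ) =
      (-1) ^ (zeroCount den - c) * (zeroProd den : ℝ) * nonzeroProd den (q : ℝ) *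
        ∏ i, (W i : ℝ) := by
  classical
  have hq1' : (1 : ℝ) < q := by exact_mod_cast hq1
  have hq0' : (0 : ℝ) < q := by linarith
  set P : Polynomial ℚ := ∑ i, Polynomial.C (E i : ℚ) * numP q n0 (num i) with hP
  set B : Polynomial ℚ := Polynomial.X ^ n0 * denP q den with hB
  have hB0 : B ≠ 0 := mul_ne_zero (pow_ne_zero _ Polynomial.X_ne_zero) (denP_ne q hq1 den hden)
  have hmapinj : Function.Injective (algebraMap ℚ ℝ) := (algebraMap ℚ ℝ).injective
  -- the values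
  have hPe : ∀ t : ℝ, t ≠ 0 → (P.map (algebraMap ℚ ℝ)).eval t =
      t ^ n0 * ∑ i, (E i : ℝ) * (num i).eval (q : ℝ) t := by
    intro t ht
    rw [hP, Polynomial.map_sum, Polynomial.eval_finsetSum, Finset.mul_sum]
    apply Finset.sum_congr rfl
    intro i _
    rw [Polynomial.map_mul, Polynomial.eval_mul, numP_eval q n0 (num i) (hn0 i) t ht]
    simp
    ring
  have hBe : ∀ t : ℝ, (B.map (algebraMap ℚ ℝ)).eval t = t ^ n0 * denEval den (q : ℝ) t := by
    intro t
    rw [hB, Polynomial.map_mul, Polynomial.eval_mul, denP_eval]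
    simp
  -- formal identity
  have hsmall : ∀ᶠ t : ℝ in nhdsWithin 0 (Set.Ioi 0),
      HasSum (fun n => (a n : ℝ) * t ^ n)
        ((P.map (algebraMap ℚ ℝ)).eval t / (B.map (algebraMap ℚ ℝ)).eval t) := by
    have hlog : Tendsto (fun t : ℝ => -(Real.log t) / Real.log q) (nhdsWithin 0 (Set.Ioi 0))
        atTop := by
      apply Tendsto.atTop_div_const (Real.log_pos hq1')
      exact tendsto_neg_atBot_atTop.comp Real.tendsto_log_nhdsGT_zero
    have h1 := hlog.eventually ha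
    filter_upwards [h1, self_mem_nhdsWithin] with t ht ht0
    have ht0' : (0 : ℝ) < t := ht0
    have h2 : (q : ℝ) ^ (-(-(Real.log t) / Real.log q)) = t := by
      rw [Real.rpow_def_of_pos hq0']
      have h3 : Real.log (q : ℝ) ≠ 0 := (Real.log_pos hq1').ne'
      have h4 : Real.log (q : ℝ) * -(-Real.log t / Real.log (q : ℝ)) = Real.log t := by
        field_simp
      rw [h4, Real.exp_log ht0']
    rw [h2] at ht
    have h5 : (P.map (algebraMap ℚ ℝ)).eval t / (B.map (algebraMap ℚ ℝ)).eval t =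
        ∑ i, (E i : ℝ) * (num i).eval (q : ℝ) t / denEval den (q : ℝ) t := by
      rw [hPe t ht0'.ne', hBe t, mul_div_mul_left _ _ (pow_ne_zero _ ht0'.ne'), Finset.sum_div]
    rw [h5]
    exact ht
  have hform := formal_of_hasSum (fun n => (a n : ℝ)) (P.map (algebraMap ℚ ℝ))
    (B.map (algebraMap ℚ ℝ)) (by
      rw [Ne, Polynomial.map_eq_zero]
      exact hB0) hsmall
  have hformQ : PowerSeries.mk (fun n => (a n : ℚ)) * (B : PowerSeries ℚ) =
      (P : PowerSeries ℚ) := by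
    have hinj : Function.Injective (PowerSeries.map (algebraMap ℚ ℝ)) :=
      PowerSeries.map_injective _ hmapinj
    apply hinj
    rw [map_mul, ← Polynomial.polynomial_map_coe, ← Polynomial.polynomial_map_coe, ← hform]
    congr 1
  -- the factor `1 - X`
  set Ep : Polynomial ℚ := ∏ k, ∑ i ∈ Finset.range (R k), Polynomial.X ^ i with hEp
  have hprod : ∏ k, (1 - (Polynomial.X : Polynomial ℚ) ^ (R k)) =
      (1 - Polynomial.X) ^ c * Ep := by
    rw [hEp]
    have h1 : ∀ k : Fin c, (1 - (Polynomial.X : Polynomial ℚ) ^ (R k)) =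
        (1 - Polynomial.X) * ∑ i ∈ Finset.range (R k), Polynomial.X ^ i :=
      fun k => (mul_neg_geom_sum _ _).symm
    rw [Finset.prod_congr rfl (fun k _ => h1 k), Finset.prod_mul_distrib, Finset.prod_const,
      Finset.card_univ, Fintype.card_fin]
  have hEp1 : Ep.eval 1 = ∏ i, (R i : ℚ) := by
    rw [hEp, Polynomial.eval_prod]
    apply Finset.prod_congr rfl
    intro i _
    rw [Polynomial.eval_finsetSum]
    simp
  have hEp0 : Ep.eval 1 ≠ 0 := by
    rw [hEp1]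
    apply Finset.prod_ne_zero_iff.mpr
    intro i _
    have := hR i
    positivity
  set S : ℚ := ∏ i, (W i : ℚ) / ∏ j ∈ Finset.Ico 1 (W i), (1 - (q : ℚ) ^ j) with hSdef
  have hqj : ∀ j : ℕ, 1 ≤ j → (1 - (q : ℚ) ^ j) ≠ 0 := by
    intro j hj h
    have h1 : (1 : ℚ) < (q : ℚ) := by exact_mod_cast hq1
    have h2 : (1 : ℚ) < (q : ℚ) ^ j := one_lt_pow₀ h1 (by omega)
    linarith
  have hden0 : ∀ i, ∏ j ∈ Finset.Ico 1 (W i), (1 - (q : ℚ) ^ j) ≠ 0 := by
    intro i
    apply Finset.prod_ne_zero_iff.mpr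
    intro j hj
    exact hqj j (Finset.mem_Ico.mp hj).1
  have hS0 : S ≠ 0 := by
    rw [hSdef]
    apply Finset.prod_ne_zero_iff.mpr
    intro i _
    apply div_ne_zero _ (hden0 i)
    have := hW i
    positivity
  have hFQ : F.map (Int.castRingHom ℚ) = PowerSeries.mk (fun n => (a n : ℚ)) *
      (((1 - Polynomial.X) ^ c * Ep : Polynomial ℚ) : PowerSeries ℚ) := by
    rw [← hF, map_mul, ← hprod]
    congr 1
    · rw [map_prod]
      have h1 : ((∏ k, (1 - (Polynomial.X : Polynomial ℚ) ^ (R k)) : Polynomial ℚ) :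
          PowerSeries ℚ) = ∏ k, (((1 - (Polynomial.X : Polynomial ℚ) ^ (R k)) :
            Polynomial ℚ) : PowerSeries ℚ) := by
        exact map_prod (Polynomial.coeToPowerSeries.ringHom (R := ℚ))
          (fun k => (1 - (Polynomial.X : Polynomial ℚ) ^ (R k))) Finset.univ
      rw [h1]
      apply Finset.prod_congr rfl
      intro k _
      simp
  have hAB : F.map (Int.castRingHom ℚ) *
      (((1 - Polynomial.X) ^ zeroCount den * (Polynomial.X ^ n0 * denQ q den) :
        Polynomial ℚ) : PowerSeries ℚ) =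
      ((P * ((1 - Polynomial.X) ^ c * Ep) : Polynomial ℚ) : PowerSeries ℚ) := by
    have h1 : ((1 - Polynomial.X) ^ zeroCount den * (Polynomial.X ^ n0 * denQ q den) :
        Polynomial ℚ) = B := by
      rw [hB, denP_eq]
      ring
    rw [h1, hFQ, Polynomial.coe_mul P, ← hformQ]
    ring
  obtain ⟨A1, hA1, hA1e⟩ := psum_poly hS _ _ _ hAB
  have hBe1 : (Polynomial.X ^ n0 * denQ q den).eval 1 = (denQ q den).eval 1 := by
    simp
  rw [hBe1] at hA1e
  have hA1ne : A1.eval 1 ≠ 0 := by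
    rw [hA1e]
    exact mul_ne_zero (denQ_eval_ne q hq1 den hden) hS0
  have h1X : (1 - Polynomial.X : Polynomial ℚ) ≠ 0 := by
    intro h
    have := congrArg (fun f => f.eval 0) h
    simp at this
  have hcz : c ≤ zeroCount den := by
    by_contra hlt
    push Not at hlt
    obtain ⟨e, he⟩ := Nat.exists_eq_add_of_lt hlt
    have h1 : (1 - Polynomial.X : Polynomial ℚ) ^ zeroCount den *
        (P * ((1 - Polynomial.X) ^ (e + 1) * Ep)) =
        (1 - Polynomial.X : Polynomial ℚ) ^ zeroCount den * A1 := by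
      rw [← hA1, he]
      ring
    have h2 := mul_left_cancel₀ (pow_ne_zero _ h1X) h1
    apply hA1ne
    rw [← h2]
    simp
  obtain ⟨m, hm⟩ := Nat.exists_eq_add_of_le hcz
  have hzc : zeroCount den - c = m := by omega
  have hPE : P * Ep = (1 - Polynomial.X) ^ m * A1 := by
    have h1 : (1 - Polynomial.X : Polynomial ℚ) ^ c * (P * Ep) =
        (1 - Polynomial.X : Polynomial ℚ) ^ c * ((1 - Polynomial.X) ^ m * A1) := by
      rw [← mul_assoc ((1 - Polynomial.X : Polynomial ℚ) ^ c) ((1 - Polynomial.X) ^ m) A1,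
        ← pow_add, ← hm, ← hA1]
      ring
    exact mul_left_cancel₀ (pow_ne_zero _ h1X) h1
  have hcop : IsCoprime ((1 - Polynomial.X : Polynomial ℚ) ^ m) Ep := by
    apply IsCoprime.pow_left
    have h1 : Irreducible (Polynomial.X - Polynomial.C (1 : ℚ)) :=
      Polynomial.irreducible_X_sub_C 1
    have h2 : IsCoprime (Polynomial.X - Polynomial.C (1 : ℚ)) Ep := by
      rw [h1.coprime_iff_not_dvd, Polynomial.dvd_iff_isRoot]
      exact hEp0
    have h3 : (1 - Polynomial.X : Polynomial ℚ) = -(Polynomial.X - Polynomial.C (1 : ℚ)) := by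
      rw [Polynomial.C_1]
      ring
    rw [h3]
    exact h2.neg_left
  obtain ⟨P2, hP2⟩ : (1 - Polynomial.X : Polynomial ℚ) ^ m ∣ P :=
    hcop.dvd_of_dvd_mul_right ⟨A1, hPE⟩
  have hP2E : P2 * Ep = A1 := by
    apply mul_left_cancel₀ (pow_ne_zero m h1X)
    rw [← hPE, hP2]
    ring
  -- Taylor coefficients
  have htay : ∀ k, ∑ i, (E i : ℝ) * (num i).tay n0 k (q : ℝ) =
      (((Polynomial.hasseDeriv k P).eval 1 : ℚ) : ℝ) := by
    intro k
    rw [hP, map_sum, Polynomial.eval_finsetSum, Rat.cast_sum]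
    apply Finset.sum_congr rfl
    intro i _
    rw [← numP_tay, ← Polynomial.smul_eq_C_mul, map_smul, Polynomial.eval_smul, smul_eq_mul]
    push_cast
    rfl
  refine ⟨hcz, ?_, ?_⟩
  · intro k hk
    rw [hzc] at hk
    rw [htay, hP2, (hasseDeriv_factor m k P2).1 hk, Rat.cast_zero]
  · rw [hzc, htay, hP2, (hasseDeriv_factor m m P2).2]
    have h1 : P2.eval 1 * ∏ i, (R i : ℚ) = (denQ q den).eval 1 * S := by
      rw [← hEp1, ← hA1e, ← hP2E, Polynomial.eval_mul]
    have h2 : S * (∏ i, ∏ j ∈ Finset.Ico 1 (W i), (1 - (q : ℚ) ^ j)) = ∏ i, (W i : ℚ) := by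
      rw [hSdef, ← Finset.prod_mul_distrib]
      apply Finset.prod_congr rfl
      intro i _
      rw [div_mul_cancel₀ _ (hden0 i)]
    have h3 : kProd W (q : ℝ) =
        (((∏ i, ∏ j ∈ Finset.Ico 1 (W i), (1 - (q : ℚ) ^ j)) : ℚ) : ℝ) := by
      rw [kProd]
      push_cast
      rfl
    have h4 := denQ_eval q den
    have h5 : (((P2.eval 1 : ℚ) : ℝ)) * (∏ i, (R i : ℝ)) =
        (((denQ q den).eval 1 : ℚ) : ℝ) * (S : ℝ) := by
      have := congrArg (fun x : ℚ => (x : ℝ)) h1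
      push_cast at this
      exact this
    have h6 : (S : ℝ) * kProd W (q : ℝ) = ∏ i, (W i : ℝ) := by
      rw [h3, ← Rat.cast_mul, h2]
      push_cast
      rfl
    push_cast
    calc (-1 : ℝ) ^ m * ((P2.eval 1 : ℚ) : ℝ) * (∏ i, (R i : ℝ)) * kProd W (q : ℝ)
        = (-1 : ℝ) ^ m * ((((P2.eval 1 : ℚ) : ℝ)) * (∏ i, (R i : ℝ))) * kProd W (q : ℝ) := by
          ring
      _ = (-1 : ℝ) ^ m * (((denQ q den).eval 1 : ℚ) : ℝ) * ((S : ℝ) * kProd W (q : ℝ)) := by
          rw [h5]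
          ring
      _ = (-1 : ℝ) ^ m * (zeroProd den : ℝ) * nonzeroProd den (q : ℝ) * ∏ i, (W i : ℝ) := by
          rw [h6, h4]
          ring

end Pool.Agent.TZ
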