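import Pool.Agent.TZ.DX
import Pool.Agent.TZ.DL

set_option autoImplicit false

/-! Transfer of the identities to real exponents. -/

namespace Pool.Agent.TZ

open Filter Topology

section formal

variable (P : ℂˣ)

/-- The formal power `q ^ m`. -/
noncomputable def fmon (m : ℤ) : MonoidAlgebra ℂ ℂˣ := MonoidAlgebra.single (P ^ m) 1

/-- The formal Taylor coefficient. -/
noncomputable def ftay (L : LPoly) (n0 k : ℕ) : MonoidAlgebra ℂ ℂˣ :=
  (L.map fun t => algebraMap ℂ (MonoidAlgebra ℂ ℂˣ)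
    ((t.1 : ℂ) * (((t.2.2 + (n0 : ℤ)).toNat.choose k : ℕ) : ℂ)) * fmon P t.2.1).sum

/-- The formal product over the factors with nonzero exponent. -/
noncomputable def fnonzeroProd (D : List (ℤ × ℕ)) : MonoidAlgebra ℂ ℂˣ :=
  ((D.filter (fun t => t.1 ≠ 0)).map fun t => 1 - fmon P t.1).prod

/-- The formal version of `kProd`. -/
noncomputable def fkProd {c : ℕ} (W : Fin c → ℕ) : MonoidAlgebra ℂ ℂˣ :=
  ∏ i, ∏ j ∈ Finset.Ico 1 (W i), (1 - fmon P (j : ℤ))

variable {P} (Φ : MonoidAlgebra ℂ ℂˣ →ₐ[ℂ] ℂ) (X : ℝ)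
  (hΦ : ∀ m : ℤ, Φ (fmon P m) = ((X ^ m : ℝ) : ℂ))

include hΦ

theorem eval_ftay (L : LPoly) (n0 k : ℕ) :
    Φ (ftay P L n0 k) = ((L.tay n0 k X : ℝ) : ℂ) := by
  unfold ftay LPoly.tay
  induction L with
  | nil => simp
  | cons t L ih =>
    rw [List.map_cons, List.sum_cons, map_add, ih, List.map_cons, List.sum_cons,
      Complex.ofReal_add, map_mul, AlgHom.commutes, hΦ]
    congr 1
    push_cast
    ring

theorem eval_fnonzeroProd (D : List (ℤ × ℕ)) :
    Φ (fnonzeroProd P D) = ((nonzeroProd D X : ℝ) : ℂ) := by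
  unfold fnonzeroProd nonzeroProd
  induction (D.filter (fun t => t.1 ≠ 0)) with
  | nil => simp
  | cons t L ih =>
    rw [List.map_cons, List.prod_cons, map_mul, ih, List.map_cons, List.prod_cons,
      Complex.ofReal_mul, map_sub, map_one, hΦ, Complex.ofReal_sub, Complex.ofReal_one]

theorem eval_fkProd {c : ℕ} (W : Fin c → ℕ) :
    Φ (fkProd P W) = ((kProd W X : ℝ) : ℂ) := by
  unfold fkProd kProd
  rw [map_prod, Complex.ofReal_prod]
  apply Finset.prod_congr rfl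
  intro i _
  rw [map_prod, Complex.ofReal_prod]
  apply Finset.prod_congr rfl
  intro j _
  rw [map_sub, map_one, hΦ, Complex.ofReal_sub, Complex.ofReal_one, zpow_natCast]

end formal

theorem evf_single (f : ℕ) (β : ℂˣ) (a : ℂ) :
    evf f (MonoidAlgebra.single β a) = a * (β : ℂ) ^ f := by
  unfold evf
  rw [MonoidAlgebra.lift_single]
  rfl

theorem evr_single (x : ℝ) (β : ℂˣ) (a : ℂ) :
    evr x (MonoidAlgebra.single β a) = a * ((‖(β : ℂ)‖ ^ x : ℝ) : ℂ) := by
  unfold evr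
  rw [MonoidAlgebra.lift_single]
  rfl

/-- Transfer to real exponents. -/
theorem transfer (p : ℕ) (hp : 1 < p) {c N : ℕ} (W R : Fin c → ℕ) (num : Fin N → LPoly)
    (den : List (ℤ × ℕ)) (n0 : ℕ) (e : Fin N → ℕ → ℤ) (n : Fin N → ℕ)
    (m : ∀ i, Fin (n i) → ℤ) (α : ∀ i, Fin (n i) → ℂ) (hα : ∀ i j, α i j ≠ 0)
    (he : ∀ i, ∀ f : ℕ, 1 ≤ f → (e i f : ℂ) = ∑ j, (m i j : ℂ) * α i j ^ f)
    (h0 : ∀ f : ℕ, 1 ≤ f → ∀ k < zeroCount den - c,
      ∑ i, (e i f : ℝ) * (num i).tay n0 k ((p ^ f : ℕ) : ℝ) = 0)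
    (h1 : ∀ f : ℕ, 1 ≤ f →
      (∑ i, (e i f : ℝ) * (num i).tay n0 (zeroCount den - c) ((p ^ f : ℕ) : ℝ)) *
          (∏ i, (R i : ℝ)) * kProd W ((p ^ f : ℕ) : ℝ) =
        (-1) ^ (zeroCount den - c) * (zeroProd den : ℝ) * nonzeroProd den ((p ^ f : ℕ) : ℝ) *
          ∏ i, (W i : ℝ)) :
    (∀ k < zeroCount den - c, ∀ x : ℝ, 0 < x →
      ∑ i, (∑ j, (m i j : ℝ) * ‖α i j‖ ^ x) * (num i).tay n0 k ((p : ℝ) ^ x) = 0) ∧
    ∀ x : ℝ, 0 < x →
      (∑ i, (∑ j, (m i j : ℝ) * ‖α i j‖ ^ x) *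
          (num i).tay n0 (zeroCount den - c) ((p : ℝ) ^ x)) *
        (∏ i, (R i : ℝ)) * kProd W ((p : ℝ) ^ x) =
      (-1) ^ (zeroCount den - c) * (zeroProd den : ℝ) * nonzeroProd den ((p : ℝ) ^ x) *
        ∏ i, (W i : ℝ) := by
  classical
  have hp0 : (p : ℂ) ≠ 0 := by
    have : p ≠ 0 := by omega
    exact_mod_cast this
  set P : ℂˣ := Units.mk0 (p : ℂ) hp0 with hP
  have hf : ∀ f : ℕ, ∀ m : ℤ, evf f (fmon P m) = (((((p ^ f : ℕ) : ℝ)) ^ m : ℝ) : ℂ) := by
    intro f m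
    unfold fmon
    rw [evf_single, one_mul, hP, Units.val_zpow_eq_zpow_val, Units.val_mk0]
    push_cast
    rw [← zpow_natCast, ← zpow_natCast, ← zpow_mul, ← zpow_mul, mul_comm]
  have hr : ∀ x : ℝ, ∀ m : ℤ, evr x (fmon P m) = (((((p : ℝ) ^ x)) ^ m : ℝ) : ℂ) := by
    intro x m
    unfold fmon
    rw [evr_single, one_mul, hP, Units.val_zpow_eq_zpow_val, Units.val_mk0, norm_zpow,
      Complex.norm_natCast]
    congr 1
    have hp1 : (0 : ℝ) ≤ (p : ℝ) := Nat.cast_nonneg p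
    rw [← Real.rpow_intCast, ← Real.rpow_mul hp1, ← Real.rpow_intCast, ← Real.rpow_mul hp1,
      mul_comm]
  let cnt : Fin N → MonoidAlgebra ℂ ℂˣ := fun i =>
    ∑ j, MonoidAlgebra.single (Units.mk0 (α i j) (hα i j)) ((m i j : ℤ) : ℂ)
  have hcf : ∀ i, ∀ f : ℕ, 1 ≤ f → evf f (cnt i) = (((e i f : ℝ) : ℝ) : ℂ) := by
    intro i f hf1
    simp only [cnt, map_sum, evf_single, Units.val_mk0]
    rw [← he i f hf1]
    push_cast
    rfl
  have hcr : ∀ i, ∀ x : ℝ, evr x (cnt i) = ((∑ j, (m i j : ℝ) * ‖α i j‖ ^ x : ℝ) : ℂ) := by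
    intro i x
    simp only [cnt, map_sum, evr_single, Units.val_mk0]
    push_cast
    rfl
  constructor
  · intro k hk x _
    have h := evr_eq_of_evf_eq (∑ i, cnt i * ftay P (num i) n0 k) 0 (by
      intro f hf1
      rw [map_sum, map_zero]
      have h2 := h0 f hf1 k hk
      rw [← Complex.ofReal_inj] at h2
      rw [Complex.ofReal_sum] at h2
      rw [← Complex.ofReal_zero, ← h2]
      apply Finset.sum_congr rfl
      intro i _
      rw [map_mul, hcf i f hf1, eval_ftay (evf f) _ (hf f), Complex.ofReal_mul]) x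
    rw [map_sum, map_zero] at h
    rw [← Complex.ofReal_inj, Complex.ofReal_sum, Complex.ofReal_zero, ← h]
    apply Finset.sum_congr rfl
    intro i _
    rw [map_mul, hcr i x, eval_ftay (evr x) _ (hr x), Complex.ofReal_mul]
  · intro x _
    have h := evr_eq_of_evf_eq
      ((∑ i, cnt i * ftay P (num i) n0 (zeroCount den - c)) *
        algebraMap ℂ _ (∏ i, (R i : ℂ)) * fkProd P W)
      (algebraMap ℂ _ ((-1) ^ (zeroCount den - c) * (zeroProd den : ℂ)) * fnonzeroProd P den *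
        algebraMap ℂ _ (∏ i, (W i : ℂ))) (by
      intro f hf1
      have h2 := h1 f hf1
      rw [← Complex.ofReal_inj] at h2
      simp only [Complex.ofReal_sum, Complex.ofReal_mul, Complex.ofReal_prod, Complex.ofReal_pow,
        Complex.ofReal_neg, Complex.ofReal_one, Complex.ofReal_natCast] at h2
      simp only [map_mul, map_sum, AlgHom.commutes, Algebra.algebraMap_self_apply,
        eval_ftay (evf f) _ (hf f), eval_fkProd (evf f) _ (hf f),
        eval_fnonzeroProd (evf f) _ (hf f), hcf _ f hf1]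
      exact h2) x
    rw [← Complex.ofReal_inj]
    simp only [Complex.ofReal_sum, Complex.ofReal_mul, Complex.ofReal_prod, Complex.ofReal_pow,
      Complex.ofReal_neg, Complex.ofReal_one, Complex.ofReal_natCast]
    simp only [map_mul, map_sum, AlgHom.commutes, Algebra.algebraMap_self_apply,
      eval_ftay (evr x) _ (hr x), eval_fkProd (evr x) _ (hr x),
      eval_fnonzeroProd (evr x) _ (hr x), hcr _ x, Complex.ofReal_sum, Complex.ofReal_mul] at h
    exact h

end Pool.Agent.TZ
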