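import Pool.Agent.TZ.GF

set_option autoImplicit false

/-! Counting sublattices of a free module of finite rank. -/

namespace Pool.Agent.TZ

variable {o : Type} [CommRing o] [IsDomain o] [IsDiscreteValuationRing o] {p q : ℕ}

namespace LC

theorem finite_res (h : RingHyp o p q) : Finite (o ⧸ Ideal.span {(p : o)}) := by
  by_contra hf
  rw [not_finite_iff_infinite] at hf
  have h1 := h.card
  rw [Nat.card_eq_zero_of_infinite] at h1
  have h2 := h.one_lt
  omega

theorem finite_res_pow (h : RingHyp o p q) (n : ℕ) : Finite (o ⧸ Ideal.span {(p : o)} ^ n) := by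
  have := finite_res h
  exact Ideal.finite_quotient_pow ⟨{(p : o)}, by simp⟩ n

theorem isUnit_one_sub (h : RingHyp o p q) (b : ℕ) (hb : 0 < b) : IsUnit (1 - (p : o) ^ b) := by
  apply IsLocalRing.isUnit_one_sub_self_of_mem_nonunits
  intro hu
  rw [isUnit_pow_iff (by omega)] at hu
  exact h.irr.not_isUnit hu

theorem exists_pow_smul_eq_zero (h : RingHyp o p q) {Q : Type} [AddCommGroup Q] [Module o Q]
    [Finite Q] (x : Q) : ∃ n : ℕ, (p : o) ^ n • x = 0 := by
  obtain ⟨a, b, hab, he⟩ := Finite.exists_ne_map_eq_of_infinite (fun n : ℕ => (p : o) ^ n • x)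
  wlog hlt : a < b generalizing a b
  · exact this b a (Ne.symm hab) he.symm (by omega)
  refine ⟨a, ?_⟩
  have h1 : (1 - (p : o) ^ (b - a)) • ((p : o) ^ a • x) = 0 := by
    have he' : (p : o) ^ a • x = (p : o) ^ b • x := he
    rw [sub_smul, one_smul, smul_smul, ← pow_add, Nat.sub_add_cancel hlt.le, he', sub_self]
  have hu := isUnit_one_sub h (b - a) (by omega)
  rw [hu.smul_eq_zero] at h1
  exact h1

/-- If the module has at most `C` elements then `p ^ C` kills it. -/
theorem pow_card_smul (h : RingHyp o p q) {Q : Type} [AddCommGroup Q] [Module o Q]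
    [Finite Q] (x : Q) : (p : o) ^ (Nat.card Q) • x = 0 := by
  have hinj : ¬ Function.Injective (fun n : Fin (Nat.card Q + 1) => (p : o) ^ (n : ℕ) • x) := by
    intro hi
    have := Nat.card_le_card_of_injective _ hi
    rw [Nat.card_fin] at this
    omega
  rw [Function.not_injective_iff] at hinj
  obtain ⟨a, b, he, hab⟩ := hinj
  wlog hlt : a < b generalizing a b
  · exact this b a he.symm (Ne.symm hab) (lt_of_le_of_ne (not_lt.1 hlt) (Ne.symm hab))
  have hlt' : (a : ℕ) < b := hlt
  have h1 : (1 - (p : o) ^ ((b : ℕ) - a)) • ((p : o) ^ (a : ℕ) • x) = 0 := by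
    have he' : (p : o) ^ (a : ℕ) • x = (p : o) ^ (b : ℕ) • x := he
    rw [sub_smul, one_smul, smul_smul, ← pow_add, Nat.sub_add_cancel hlt'.le, he', sub_self]
  have hu := isUnit_one_sub h ((b : ℕ) - a) (by omega)
  rw [hu.smul_eq_zero] at h1
  have hle : (a : ℕ) ≤ Nat.card Q := by omega
  rw [← Nat.sub_add_cancel hle, pow_add, mul_smul, h1, smul_zero]

theorem card_span_singleton (h : RingHyp o p q) {Q : Type} [AddCommGroup Q] [Module o Q]
    (x : Q) (hx : x ≠ 0) (hpx : (p : o) • x = 0) :
    Nat.card (Submodule.span o {x}) = q := by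
  have hmax : (Ideal.span {(p : o)}).IsMaximal := by
    have := (IsDiscreteValuationRing.irreducible_iff_uniformizer (p : o)).1 h.irr
    rw [← this]
    infer_instance
  have hker : LinearMap.ker (LinearMap.toSpanSingleton o Q x) = Ideal.span {(p : o)} := by
    symm
    refine hmax.eq_of_le ?_ ?_
    · intro htop
      have : (1 : o) ∈ LinearMap.ker (LinearMap.toSpanSingleton o Q x) := by
        rw [htop]; trivial
      rw [LinearMap.mem_ker, LinearMap.toSpanSingleton_apply, one_smul] at this
      exact hx this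
    · rw [Ideal.span_singleton_le_iff_mem]
      simpa [LinearMap.mem_ker] using hpx
  have e1 := (LinearMap.toSpanSingleton o Q x).quotKerEquivRange
  have e2 : Nat.card (o ⧸ LinearMap.ker (LinearMap.toSpanSingleton o Q x)) =
      Nat.card (LinearMap.range (LinearMap.toSpanSingleton o Q x)) := Nat.card_congr e1.toEquiv
  rw [LinearMap.range_toSpanSingleton, hker, h.card] at e2
  exact e2.symm

theorem exists_card_eq (h : RingHyp o p q) (m : ℕ) : ∀ (Q : Type) [AddCommGroup Q] [Module o Q]
    [Finite Q], Nat.card Q = m → ∃ k : ℕ, Nat.card Q = q ^ k := by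
  induction m using Nat.strong_induction_on with
  | _ m ih =>
    intro Q _ _ _ hm
    by_cases hs : Subsingleton Q
    · exact ⟨0, by simp⟩
    · rw [not_subsingleton_iff_nontrivial] at hs
      obtain ⟨x, hx⟩ := exists_ne (0 : Q)
      obtain ⟨n, hn⟩ := exists_pow_smul_eq_zero h x
      classical
      have hex : ∃ n : ℕ, (p : o) ^ n • x = 0 := ⟨n, hn⟩
      have hfind := Nat.find_spec hex
      have hpos : 0 < Nat.find hex := by
        rw [Nat.pos_iff_ne_zero]
        intro h0
        rw [h0, pow_zero, one_smul] at hfind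
        exact hx hfind
      have hy : (p : o) ^ (Nat.find hex - 1) • x ≠ 0 := Nat.find_min hex (by omega)
      have hpy : (p : o) • ((p : o) ^ (Nat.find hex - 1) • x) = 0 := by
        rw [smul_smul, ← pow_succ', Nat.sub_add_cancel hpos]
        exact hfind
      set y := (p : o) ^ (Nat.find hex - 1) • x with hydef
      have hc := card_span_singleton h y hy hpy
      have hmul : Nat.card Q = Nat.card (Submodule.span o {y}) *
          Nat.card (Q ⧸ Submodule.span o {y}) :=
        Submodule.card_eq_card_quotient_mul_card _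
      have hq := h.one_lt
      have hfQ : Finite (Q ⧸ Submodule.span o {y}) :=
        Finite.of_surjective _ (Submodule.mkQ_surjective _)
      have hposQ : 0 < Nat.card (Q ⧸ Submodule.span o {y}) := Nat.card_pos
      obtain ⟨k, hk⟩ := ih (Nat.card (Q ⧸ Submodule.span o {y})) (by
        rw [← hm, hmul, hc]
        nlinarith) (Q ⧸ Submodule.span o {y}) rfl
      exact ⟨k + 1, by rw [hmul, hc, hk, pow_succ, mul_comm]⟩

end LC

open LC

/-- Some power of `p` kills the quotient. -/
theorem lat_pow_mem (h : RingHyp o p q) {M : Type} [AddCommGroup M] [Module o M]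
    [Module.Finite o M] (N : Submodule o M) (hN : Finite (M ⧸ N)) :
    ∃ n : ℕ, ∀ x : M, (p : o) ^ n • x ∈ N := by
  refine ⟨Nat.card (M ⧸ N), fun x => ?_⟩
  have := pow_card_smul h (Submodule.Quotient.mk (p := N) x)
  rwa [← Submodule.Quotient.mk_smul, Submodule.Quotient.mk_eq_zero] at this

/-- Submodules containing `p ^ n M` have finite index. -/
theorem finite_quot_of_pow_mem (h : RingHyp o p q) {M : Type} [AddCommGroup M] [Module o M]
    [Module.Finite o M] (N : Submodule o M) (n : ℕ) (hN : ∀ x : M, (p : o) ^ n • x ∈ N) :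
    Finite (M ⧸ N) := by
  have := finite_res_pow h n
  have : Finite (M ⧸ (⊤ : Submodule o M)) := inferInstance
  have : Finite (M ⧸ (Ideal.span {(p : o)} ^ n) • (⊤ : Submodule o M)) :=
    Submodule.finite_quotient_smul _ Module.Finite.fg_top
  have hle : (Ideal.span {(p : o)} ^ n) • (⊤ : Submodule o M) ≤ N := by
    rw [Ideal.span_singleton_pow, Submodule.ideal_span_singleton_smul]
    rintro _ ⟨x, -, rfl⟩
    exact hN x
  exact Finite.of_surjective _ (Submodule.factor_surjective hle)

/-- There are finitely many submodules containing `p ^ n M`. -/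
theorem finite_setOf_pow_mem (h : RingHyp o p q) {M : Type} [AddCommGroup M] [Module o M]
    [Module.Finite o M] (n : ℕ) :
    {N : Submodule o M | ∀ x : M, (p : o) ^ n • x ∈ N}.Finite := by
  set P : Submodule o M := (Ideal.span {(p : o)} ^ n) • (⊤ : Submodule o M) with hP
  have hPmem : ∀ x : M, (p : o) ^ n • x ∈ P := fun x => by
    rw [hP, Ideal.span_singleton_pow]
    exact Submodule.smul_mem_smul (Ideal.mem_span_singleton_self _) trivial
  have : Finite (M ⧸ P) := finite_quot_of_pow_mem h P n hPmem
  have : Finite (Submodule o (M ⧸ P)) := inferInstance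
  refine Set.Finite.of_injOn (f := fun N : Submodule o M => N.map P.mkQ)
    (t := Set.univ) (fun _ _ => trivial) ?_ Set.finite_univ
  intro N hN N' hN' he
  have key : ∀ N : Submodule o M, (∀ x : M, (p : o) ^ n • x ∈ N) →
      (N.map P.mkQ).comap P.mkQ = N := by
    intro N hN
    rw [Submodule.comap_map_eq, Submodule.ker_mkQ, sup_eq_left, hP, Ideal.span_singleton_pow,
      Submodule.ideal_span_singleton_smul]
    rintro _ ⟨x, -, rfl⟩
    exact hN x
  simp only at he
  rw [← key N hN, ← key N' hN', he]

/-- The index is a power of `q`. -/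
theorem card_quot (h : RingHyp o p q) {M : Type} [AddCommGroup M] [Module o M]
    [Module.Finite o M] (N : Submodule o M) (hN : Finite (M ⧸ N)) :
    Nat.card (M ⧸ N) = q ^ len q N := by
  obtain ⟨k, hk⟩ := exists_card_eq h _ (M ⧸ N) rfl
  rw [len, hk, Nat.log_pow h.one_lt]

/-- Transport of the length by a linear equivalence. -/
theorem len_map_equiv {M M' : Type} [AddCommGroup M] [Module o M] [AddCommGroup M'] [Module o M']
    (e : M ≃ₗ[o] M') (N : Submodule o M) :
    len q (N.map (e : M →ₗ[o] M')) = len q N := by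
  unfold len
  rw [Nat.card_congr (Submodule.Quotient.equiv N (N.map (e : M →ₗ[o] M')) e rfl).toEquiv]

theorem finite_quot_map_equiv {M M' : Type} [AddCommGroup M] [Module o M] [AddCommGroup M']
    [Module o M'] (e : M ≃ₗ[o] M') (N : Submodule o M) (hN : Finite (M ⧸ N)) :
    Finite (M' ⧸ (N.map (e : M →ₗ[o] M'))) :=
  Finite.of_equiv _ (Submodule.Quotient.equiv N (N.map (e : M →ₗ[o] M')) e rfl).toEquiv

theorem lat_finite (h : RingHyp o p q) {M : Type} [AddCommGroup M] [Module o M]
    [Module.Free o M] [Module.Finite o M] (n : ℕ) :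
    Finite {N : Lat o M // len q N.1 = n} := by
  have hfin := finite_setOf_pow_mem h (M := M) (q ^ n)
  have := hfin.to_subtype
  refine Finite.of_injective (β := {N : Submodule o M | ∀ x : M, (p : o) ^ (q ^ n) • x ∈ N})
    (fun N => ⟨N.1.1, ?_⟩) ?_
  · intro x
    have := N.1.2
    have h1 := pow_card_smul h (Submodule.Quotient.mk (p := N.1.1) x)
    rw [card_quot h N.1.1 N.1.2, N.2, ← Submodule.Quotient.mk_smul,
      Submodule.Quotient.mk_eq_zero] at h1
    exact h1
  · intro N N' he
    apply Subtype.ext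
    apply Subtype.ext
    exact Subtype.mk.inj he

namespace LC

/-! ### Sublattices of `A × o` -/

section glue

variable {A : Type} [AddCommGroup A] [Module o A]

/-- The sublattice of `A × o` with intersection `N0` with `A`, image `p ^ j` in `o` and gluing
vector `y`. -/
def glue (p : ℕ) (N0 : Submodule o A) (y : A) (j : ℕ) : Submodule o (A × o) where
  carrier := {z | ∃ t : o, z.2 = (p : o) ^ j * t ∧ z.1 - t • y ∈ N0}
  add_mem' := by
    rintro z z' ⟨t, h1, h2⟩ ⟨t', h1', h2'⟩
    refine ⟨t + t', by rw [Prod.snd_add, h1, h1', mul_add], ?_⟩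
    have := N0.add_mem h2 h2'
    rw [Prod.fst_add, add_smul]
    convert this using 1
    abel
  zero_mem' := ⟨0, by simp, by simp⟩
  smul_mem' := by
    rintro c z ⟨t, h1, h2⟩
    refine ⟨c * t, by rw [Prod.smul_snd, h1, smul_eq_mul]; ring, ?_⟩
    have := N0.smul_mem c h2
    rw [Prod.smul_fst, mul_smul, ← smul_sub]
    exact this

theorem mem_glue {N0 : Submodule o A} {y : A} {j : ℕ} {z : A × o} :
    z ∈ glue p N0 y j ↔ ∃ t : o, z.2 = (p : o) ^ j * t ∧ z.1 - t • y ∈ N0 := Iff.rfl

theorem p_ne_zero (h : RingHyp o p q) (j : ℕ) : (p : o) ^ j ≠ 0 := pow_ne_zero _ h.irr.ne_zero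

theorem card_res_pow (h : RingHyp o p q) (j : ℕ) :
    Nat.card (o ⧸ Ideal.span {(p : o) ^ j}) = q ^ j := by
  have hmax : (Ideal.span {(p : o)}).IsMaximal := by
    have := (IsDiscreteValuationRing.irreducible_iff_uniformizer (p : o)).1 h.irr
    rw [← this]
    infer_instance
  have hne : Ideal.span {(p : o)} ≠ ⊥ := by
    rw [Ne, Ideal.span_singleton_eq_bot]
    exact h.irr.ne_zero
  have := cardQuot_pow_of_prime (P := Ideal.span {(p : o)}) hne (i := j)
  rw [Submodule.cardQuot_apply, Submodule.cardQuot_apply, h.card, Ideal.span_singleton_pow] at this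
  exact this

/-- The quotient by a glued lattice. -/
theorem card_glue (h : RingHyp o p q) (N0 : Submodule o A) (y : A) (j : ℕ) :
    Nat.card ((A × o) ⧸ glue p N0 y j) = Nat.card (A ⧸ N0) * q ^ j := by
  rw [← card_res_pow h j, ← Nat.card_prod]
  symm
  refine Nat.card_congr (Equiv.ofBijective
    (fun z => Submodule.Quotient.mk (p := glue p N0 y j) (Quotient.out z.1, Quotient.out z.2)) ?_)
  constructor
  · rintro ⟨a, c⟩ ⟨a', c'⟩ he
    simp only at he
    rw [Submodule.Quotient.eq, mem_glue] at he
    obtain ⟨t, h1, h2⟩ := he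
    have hc : c = c' := by
      have e1 : Submodule.Quotient.mk (p := Ideal.span {(p : o) ^ j}) (Quotient.out c) = c :=
        Quotient.out_eq c
      have e2 : Submodule.Quotient.mk (p := Ideal.span {(p : o) ^ j}) (Quotient.out c') = c' :=
        Quotient.out_eq c'
      rw [← e1, ← e2, Submodule.Quotient.eq]
      rw [Ideal.mem_span_singleton']
      exact ⟨t, by rw [mul_comm]; exact h1.symm⟩
    subst hc
    have ht : t = 0 := by
      have h3 : (p : o) ^ j * t = 0 := by rw [← h1]; simp
      exact (mul_eq_zero.1 h3).resolve_left (p_ne_zero h j)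
    subst ht
    have ha : a = a' := by
      have e1 : Submodule.Quotient.mk (p := N0) (Quotient.out a) = a := Quotient.out_eq a
      have e2 : Submodule.Quotient.mk (p := N0) (Quotient.out a') = a' := Quotient.out_eq a'
      rw [← e1, ← e2, Submodule.Quotient.eq]
      simpa using h2
    rw [ha]
  · intro z
    obtain ⟨⟨a, c⟩, rfl⟩ := Submodule.Quotient.mk_surjective _ z
    have hc : ∃ t : o, c - Quotient.out (Submodule.Quotient.mk (p := Ideal.span {(p : o) ^ j}) c)
        = (p : o) ^ j * t := by
      have e1 : Submodule.Quotient.mk (p := Ideal.span {(p : o) ^ j})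
          (Quotient.out (Submodule.Quotient.mk (p := Ideal.span {(p : o) ^ j}) c)) =
          Submodule.Quotient.mk c := Quotient.out_eq _
      have e2 := (Submodule.Quotient.eq _).1 e1.symm
      rw [Ideal.mem_span_singleton'] at e2
      obtain ⟨t, ht⟩ := e2
      exact ⟨t, by rw [← ht, mul_comm]⟩
    obtain ⟨t, ht⟩ := hc
    refine ⟨(Submodule.Quotient.mk (a - t • y), Submodule.Quotient.mk c), ?_⟩
    symm
    simp only
    rw [Submodule.Quotient.eq, mem_glue]
    refine ⟨t, ht, ?_⟩
    have e1 : Submodule.Quotient.mk (p := N0)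
        (Quotient.out (Submodule.Quotient.mk (p := N0) (a - t • y))) =
          Submodule.Quotient.mk (a - t • y) := Quotient.out_eq _
    have e2 := (Submodule.Quotient.eq _).1 e1.symm
    rw [Prod.fst_sub]
    convert e2 using 1
    simp only
    abel

theorem finite_glue (h : RingHyp o p q) (N0 : Submodule o A) (hN0 : Finite (A ⧸ N0)) (y : A)
    (j : ℕ) : Finite ((A × o) ⧸ glue p N0 y j) := by
  apply Nat.finite_of_card_ne_zero
  rw [card_glue h]
  have h1 := h.one_lt
  have : 0 < Nat.card (A ⧸ N0) := Nat.card_pos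
  positivity

theorem len_glue (h : RingHyp o p q) [Module.Finite o A] (N0 : Submodule o A)
    (hN0 : Finite (A ⧸ N0)) (y : A) (j : ℕ) : len q (glue p N0 y j) = len q N0 + j := by
  have h1 := card_glue h N0 y j
  rw [card_quot h _ (finite_glue h N0 hN0 y j), card_quot h _ hN0, ← pow_add] at h1
  exact Nat.pow_right_injective h.one_lt h1

/-- The gluing map. -/
noncomputable def glueMap (h : RingHyp o p q) (A : Type) [AddCommGroup A] [Module o A] :
    (Σ N0 : Lat o A, A ⧸ N0.1) × ℕ → Lat o (A × o) :=
  fun z => ⟨glue p z.1.1.1 (Quotient.out z.1.2) z.2, finite_glue h _ z.1.1.2 _ _⟩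

theorem glue_comap (h : RingHyp o p q) (N0 : Submodule o A) (y : A) (j : ℕ) :
    (glue p N0 y j).comap (LinearMap.inl o A o) = N0 := by
  ext a
  rw [Submodule.mem_comap, mem_glue]
  simp only [LinearMap.inl_apply]
  constructor
  · rintro ⟨t, h1, h2⟩
    have ht : t = 0 := (mul_eq_zero.1 h1.symm).resolve_left (p_ne_zero h j)
    subst ht
    simpa using h2
  · intro ha
    exact ⟨0, by simp, by simpa using ha⟩

theorem glueMap_bijective (h : RingHyp o p q) [Module.Finite o A] :
    Function.Bijective (glueMap h A) := by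
  constructor
  · rintro ⟨⟨N0, a⟩, j⟩ ⟨⟨N0', a'⟩, j'⟩ he
    have he' : glue p N0.1 (Quotient.out a) j = glue p N0'.1 (Quotient.out a') j' :=
      Subtype.mk.inj he
    have h1 : N0 = N0' := by
      apply Subtype.ext
      rw [← glue_comap h N0.1 (Quotient.out a) j, he', glue_comap h]
    subst h1
    have h2 : j = j' := by
      have e1 := len_glue h N0.1 N0.2 (Quotient.out a) j
      have e2 := len_glue h N0.1 N0.2 (Quotient.out a') j'
      rw [he', e2] at e1
      omega
    subst h2
    have h3 : a = a' := by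
      have hm : (Quotient.out a, (p : o) ^ j) ∈ glue p N0.1 (Quotient.out a) j :=
        ⟨1, by simp, by simp⟩
      rw [he', mem_glue] at hm
      obtain ⟨t, h3, h4⟩ := hm
      have ht : t = 1 := by
        have : (p : o) ^ j * 1 = (p : o) ^ j * t := by rw [mul_one]; exact h3
        exact (mul_left_cancel₀ (p_ne_zero h j) this).symm
      subst ht
      have e1 : Submodule.Quotient.mk (p := N0.1) (Quotient.out a) = a := Quotient.out_eq a
      have e2 : Submodule.Quotient.mk (p := N0.1) (Quotient.out a') = a' := Quotient.out_eq a'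
      rw [← e1, ← e2, Submodule.Quotient.eq]
      simpa using h4
    subst h3
    rfl
  · rintro ⟨N, hN⟩
    set N0 : Submodule o A := N.comap (LinearMap.inl o A o) with hN0
    have hfin0 : Finite (A ⧸ N0) := by
      refine Finite.of_injective (fun z : A ⧸ N0 => N0.mapQ N (LinearMap.inl o A o) le_rfl z) ?_
      intro z z' he
      have := LinearMap.ker_eq_bot.1 (Submodule.ker_liftQ_eq_bot' N0
        (N.mkQ ∘ₗ LinearMap.inl o A o) (by rw [LinearMap.ker_comp, Submodule.ker_mkQ]))
      exact this he
    -- the image in `o`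
    set I : Ideal o := N.map (LinearMap.snd o A o) with hI
    obtain ⟨n, hn⟩ := lat_pow_mem h N hN
    have hIne : I ≠ ⊥ := by
      intro hb
      have hm : (p : o) ^ n ∈ I := by
        rw [hI, Submodule.mem_map]
        exact ⟨(p : o) ^ n • ((0 : A), (1 : o)), hn _, by simp⟩
      rw [hb, Ideal.mem_bot] at hm
      exact p_ne_zero h n hm
    obtain ⟨j, hj⟩ := IsDiscreteValuationRing.ideal_eq_span_pow_irreducible hIne h.irr
    have hpj : (p : o) ^ j ∈ I := by rw [hj]; exact Ideal.mem_span_singleton_self _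
    rw [hI, Submodule.mem_map] at hpj
    obtain ⟨⟨y, c⟩, hyN, hc⟩ := hpj
    simp only [LinearMap.snd_apply] at hc
    subst hc
    refine ⟨(⟨⟨N0, hfin0⟩, Submodule.Quotient.mk y⟩, j), ?_⟩
    apply Subtype.ext
    have e1 : Submodule.Quotient.mk (p := N0)
        (Quotient.out (Submodule.Quotient.mk (p := N0) y)) = Submodule.Quotient.mk y :=
      Quotient.out_eq _
    have e2 := (Submodule.Quotient.eq _).1 e1.symm
    set y' := Quotient.out (Submodule.Quotient.mk (p := N0) y) with hy'
    have hyN' : (y', (p : o) ^ j) ∈ N := by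
      have h5 : ((y - y' : A), (0 : o)) ∈ N := e2
      have := N.sub_mem hyN h5
      simpa using this
    change glue p N0 y' j = N
    ext ⟨a, c⟩
    rw [mem_glue]
    constructor
    · rintro ⟨t, h1, h2⟩
      simp only at h1 h2
      have h3 : ((a - t • y' : A), (0 : o)) ∈ N := h2
      have h4 := N.add_mem h3 (N.smul_mem t hyN')
      rw [h1]
      convert h4 using 1
      ext <;> simp [mul_comm]
    · intro hm
      have hcI : c ∈ I := by
        rw [hI, Submodule.mem_map]
        exact ⟨(a, c), hm, rfl⟩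
      rw [hj, Ideal.mem_span_singleton'] at hcI
      obtain ⟨t, ht⟩ := hcI
      refine ⟨t, by rw [← ht, mul_comm], ?_⟩
      have h4 := N.sub_mem hm (N.smul_mem t hyN')
      change ((a - t • y' : A), (0 : o)) ∈ N
      convert h4 using 1
      ext
      · simp
      · simp [ht]

end glue

/-- Transport of lattices. -/
noncomputable def latEquiv {M M' : Type} [AddCommGroup M] [Module o M] [AddCommGroup M']
    [Module o M'] (e : M ≃ₗ[o] M') : Lat o M ≃ Lat o M' where
  toFun N := ⟨N.1.map (e : M →ₗ[o] M'), finite_quot_map_equiv e N.1 N.2⟩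
  invFun N := ⟨N.1.map (e.symm : M' →ₗ[o] M), finite_quot_map_equiv e.symm N.1 N.2⟩
  left_inv N := by
    apply Subtype.ext
    change (N.1.map (e : M →ₗ[o] M')).map (e.symm : M' →ₗ[o] M) = N.1
    rw [← Submodule.map_comp]
    simp
  right_inv N := by
    apply Subtype.ext
    change (N.1.map (e.symm : M' →ₗ[o] M)).map (e : M →ₗ[o] M') = N.1
    rw [← Submodule.map_comp]
    simp

theorem gf_congr_equiv {M M' : Type} [AddCommGroup M] [Module o M] [AddCommGroup M']
    [Module o M'] (e : M ≃ₗ[o] M') :
    gf (fun N : Lat o M => len q N.1) = gf (fun N : Lat o M' => len q N.1) := by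
  rw [← gf_equiv (latEquiv e)]
  congr 1
  funext N
  exact (len_map_equiv e N.1).symm

section step

variable (A : Type) [AddCommGroup A] [Module o A] [Module.Finite o A] [Module.Free o A]

/-- The fibres of the weight on pairs (lattice, class). -/
noncomputable def fibEquiv (q n : ℕ) : {x : Σ N0 : Lat o A, A ⧸ N0.1 // len q x.1.1 = n} ≃
    Σ N0 : {N : Lat o A // len q N.1 = n}, A ⧸ N0.1.1 where
  toFun x := ⟨⟨x.1.1, x.2⟩, x.1.2⟩
  invFun x := ⟨⟨x.1.1, x.2⟩, x.1.2⟩
  left_inv _ := rfl
  right_inv _ := rfl

theorem finite_fib (h : RingHyp o p q) (n : ℕ) :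
    Finite {x : Σ N0 : Lat o A, A ⧸ N0.1 // len q x.1.1 = n} := by
  have := lat_finite h (M := A) n
  have : ∀ N0 : {N : Lat o A // len q N.1 = n}, Finite (A ⧸ N0.1.1) := fun N0 => N0.1.2
  exact Finite.of_equiv _ (fibEquiv A q n).symm

theorem card_fib (h : RingHyp o p q) (n : ℕ) :
    Nat.card {x : Σ N0 : Lat o A, A ⧸ N0.1 // len q x.1.1 = n} =
      Nat.card {N : Lat o A // len q N.1 = n} * q ^ n := by
  have := lat_finite h (M := A) n
  have hf : ∀ N0 : {N : Lat o A // len q N.1 = n}, Finite (A ⧸ N0.1.1) := fun N0 => N0.1.2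
  have := Fintype.ofFinite {N : Lat o A // len q N.1 = n}
  rw [Nat.card_congr (fibEquiv A q n), Nat.card_sigma]
  rw [Finset.sum_congr rfl (fun N0 _ => (card_quot h N0.1.1 N0.1.2).trans (by rw [N0.2]))]
  rw [Finset.sum_const, Finset.card_univ, Nat.card_eq_fintype_card, smul_eq_mul]

theorem gf_step (h : RingHyp o p q) :
    gf (fun N : Lat o (A × o) => len q N.1) * (1 - PowerSeries.X) =
      PowerSeries.rescale (q : ℤ) (gf (fun N : Lat o A => len q N.1)) := by
  have e1 : gf (fun N : Lat o (A × o) => len q N.1) =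
      gf (fun z : (Σ N0 : Lat o A, A ⧸ N0.1) × ℕ => len q z.1.1.1 + 1 * z.2) := by
    rw [← gf_equiv (Equiv.ofBijective _ (glueMap_bijective h (A := A)))]
    congr 1
    funext z
    rw [one_mul]
    exact len_glue h z.1.1.1 z.1.1.2 _ _
  have e2 := gf_prod (fun x : Σ N0 : Lat o A, A ⧸ N0.1 => len q x.1.1) (fun n : ℕ => 1 * n)
    (finite_fib A h) (fun n => Finite.of_injective (β := Unit) (fun _ => ())
      (fun a b _ => Subtype.ext (by have := a.2; have := b.2; omega)))
  have e3 := gf_nat 1 one_pos
  rw [pow_one] at e3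
  rw [e1, e2, mul_assoc, e3, mul_one]
  ext n
  rw [PowerSeries.coeff_rescale, gf, gf, PowerSeries.coeff_mk, PowerSeries.coeff_mk,
    card_fib A h n]
  push_cast
  ring

end step

theorem gf_fin (h : RingHyp o p q) (n : ℕ) :
    gf (fun N : Lat o (Fin n → o) => len q N.1) *
      ∏ k ∈ Finset.range n, (1 - PowerSeries.C ((q : ℤ) ^ k) * PowerSeries.X) = 1 := by
  induction n with
  | zero =>
    rw [Finset.range_zero, Finset.prod_empty, mul_one]
    ext m
    rw [gf, PowerSeries.coeff_mk, PowerSeries.coeff_one]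
    have hlen : ∀ N : Lat o (Fin 0 → o), len q N.1 = 0 := by
      intro N
      rw [len, Nat.card_of_subsingleton (0 : (Fin 0 → o) ⧸ N.1), Nat.log_one_right]
    have huniq : ∀ N N' : Lat o (Fin 0 → o), N = N' := by
      intro N N'
      apply Subtype.ext
      exact Subsingleton.elim _ _
    by_cases hm : m = 0
    · subst hm
      rw [if_pos rfl]
      have : Nat.card {N : Lat o (Fin 0 → o) // len q N.1 = 0} = 1 := by
        rw [Nat.card_eq_one_iff_unique]
        refine ⟨⟨fun a b => Subtype.ext (huniq _ _)⟩, ⟨⟨⊤, inferInstance⟩, hlen _⟩⟩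
      rw [this]
      rfl
    · rw [if_neg hm]
      have : IsEmpty {N : Lat o (Fin 0 → o) // len q N.1 = m} :=
        ⟨fun N => hm (by rw [← N.2, hlen])⟩
      rw [Nat.card_of_isEmpty]
      rfl
  | succ n ih =>
    have e : (Fin (n + 1) → o) ≃ₗ[o] (Fin n → o) × o :=
      (Fin.consLinearEquiv o (fun _ : Fin (n + 1) => o)).symm.trans (LinearEquiv.prodComm o _ _)
    rw [gf_congr_equiv e, Finset.prod_range_succ', pow_zero, map_one, one_mul, mul_comm (∏ k ∈ _, _),
      ← mul_assoc, gf_step (Fin n → o) h]
    have h2 := congrArg (PowerSeries.rescale (q : ℤ)) ih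
    rw [map_mul, map_one, map_prod] at h2
    refine Eq.trans (congrArg (fun z => _ * z) (Finset.prod_congr rfl (fun k _ => ?_))) h2
    rw [map_sub, map_one, map_mul, PowerSeries.rescale_X]
    have : PowerSeries.rescale (q : ℤ) (PowerSeries.C ((q : ℤ) ^ k)) =
        PowerSeries.C ((q : ℤ) ^ k) := by
      ext m
      rw [PowerSeries.coeff_rescale, PowerSeries.coeff_C]
      split_ifs with hm
      · rw [hm]; simp
      · simp
    rw [this, ← mul_assoc, ← map_mul, pow_succ]

end LC

/-- The zeta function of `o ^ n`. -/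
theorem gf_lat (h : RingHyp o p q) {M : Type} [AddCommGroup M] [Module o M]
    [Module.Free o M] [Module.Finite o M] :
    gf (fun N : Lat o M => len q N.1) *
      ∏ k ∈ Finset.range (Module.finrank o M),
        (1 - PowerSeries.C ((q : ℤ) ^ k) * PowerSeries.X) = 1 := by
  rw [gf_congr_equiv (Module.finBasis o M).equivFun]
  exact gf_fin h _

end Pool.Agent.TZ
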