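import Mathlib

set_option autoImplicit false

/-!
Internal definitions for the proof (lattices over a discrete valuation ring, towers).
-/

namespace Pool.Agent.TZ

open scoped Pointwise

/-- Generating function of a weight function with finite fibres. -/
noncomputable def gf {X : Type} (w : X → ℕ) : PowerSeries ℤ :=
  PowerSeries.mk fun n => (Nat.card {x : X // w x = n} : ℤ)

section lat

variable {o : Type} [CommRing o] {M : Type} [AddCommGroup M] [Module o M]

/-- Submodules of finite index. -/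
abbrev Lat (o : Type) [CommRing o] (M : Type) [AddCommGroup M] [Module o M] : Type :=
  {N : Submodule o M // Finite (M ⧸ N)}

/-- Colength: the index is `q ^ len q N`. -/
noncomputable def len (q : ℕ) (N : Submodule o M) : ℕ := Nat.log q (Nat.card (M ⧸ N))

/-- Primitive submodules of finite index: not contained in `p M`. -/
abbrev Prim (o : Type) [CommRing o] (p : ℕ) (M : Type) [AddCommGroup M] [Module o M] : Type :=
  {N : Submodule o M // Finite (M ⧸ N) ∧ ¬ ∀ x ∈ N, ∃ y : M, x = (p : o) • y}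

end lat

/-- The ring `o` is a discrete valuation ring with uniformizer `p` and residue field with `q`
elements. -/
structure RingHyp (o : Type) [CommRing o] [IsDomain o] [IsDiscreteValuationRing o] (p q : ℕ) :
    Prop where
  prime : p.Prime
  irr : Irreducible (p : o)
  card : Nat.card (o ⧸ Ideal.span {(p : o)}) = q
  one_lt : 1 < q

section tower

variable {o : Type} [CommRing o] [IsDomain o] [IsDiscreteValuationRing o]

/-- The submodule generated by all brackets of elements of `N` with generators. -/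
def br {M M' : Type} [AddCommGroup M] [Module o M] [AddCommGroup M'] [Module o M'] {d : ℕ}
    (ad : Fin d → M →ₗ[o] M') (N : Submodule o M) : Submodule o M' :=
  ⨆ j, N.map (ad j)

/-- The congruence subgroup of invertible matrices congruent to `1` modulo `p ^ n`. -/
def Gam (o : Type) [CommRing o] (p : ℕ) (d : ℕ) (n : ℕ) :
    Subgroup (Matrix (Fin d) (Fin d) o)ˣ where
  carrier := {g | ∃ X : Matrix (Fin d) (Fin d) o, (g : Matrix (Fin d) (Fin d) o) = 1 + (p : o) ^ n • X}
  one_mem' := ⟨0, by simp⟩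
  mul_mem' := by
    rintro g h ⟨X, hX⟩ ⟨Y, hY⟩
    refine ⟨X + Y + (p : o) ^ n • (X * Y), ?_⟩
    rw [Units.val_mul, hX, hY]
    simp only [mul_add, add_mul, one_mul, mul_one, smul_add, Matrix.smul_mul, Matrix.mul_smul]
    abel
  inv_mem' := by
    rintro g ⟨X, hX⟩
    refine ⟨-(((g⁻¹ : (Matrix (Fin d) (Fin d) o)ˣ) : Matrix (Fin d) (Fin d) o) * X), ?_⟩
    have h1 : ((g⁻¹ : (Matrix (Fin d) (Fin d) o)ˣ) : Matrix (Fin d) (Fin d) o) *
        (g : Matrix (Fin d) (Fin d) o) = 1 := g.inv_mul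
    rw [hX, mul_add, mul_one, Matrix.mul_smul] at h1
    rw [smul_neg, ← sub_eq_add_neg, eq_sub_iff_add_eq, h1]

/-- Hypotheses on a tower `M 0 → M 1 → ... → M (c - 1)` of free modules with `d` maps between
consecutive ones and a group action. -/
structure TowerHyp (o : Type) [CommRing o] [IsDomain o] [IsDiscreteValuationRing o]
    (p c d : ℕ) (M : ℕ → Type) [∀ i, AddCommGroup (M i)] [∀ i, Module o (M i)]
    (ad : ∀ i, Fin d → M i →ₗ[o] M (i + 1)) (W : ℕ → ℕ) : Prop where
  free : ∀ i < c, Module.Free o (M i)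
  fin : ∀ i < c, Module.Finite o (M i)
  rank : ∀ i < c, Module.finrank o (M i) = W i
  pos : ∀ i < c, 0 < W i
  gen : ∀ i, i + 1 < c → br (ad i) ⊤ = ⊤
  cent : ∀ i, i + 1 < c → ∀ x : M i, (∀ j, ∃ y : M (i + 1), ad i j x = (p : o) • y) →
    ∃ y : M i, x = (p : o) • y
  act : ∃ ρ : ∀ i, (Matrix (Fin d) (Fin d) o)ˣ →* (M i ≃ₗ[o] M i),
    (∀ i, i + 1 < c → ∀ (g : (Matrix (Fin d) (Fin d) o)ˣ) (N : Submodule o (M i)),
      br (ad i) (N.map (ρ i g : M i →ₗ[o] M i)) =
        (br (ad i) N).map (ρ (i + 1) g : M (i + 1) →ₗ[o] M (i + 1))) ∧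
    (∀ i < c, ∀ (n : ℕ), ∀ g ∈ Gam o p d n, ∀ x : M i, ∃ y : M i,
      ρ i g x = x + (p : o) ^ n • y) ∧
    (∀ i, i + 1 < c → ∀ k : ℕ, 1 ≤ k → ∃ n : ℕ, ∀ N : Submodule o (M i),
      (¬ ∀ x ∈ N, ∃ y : M i, x = (p : o) • y) →
      (∀ g ∈ Gam o p d k, N.map (ρ i g : M i →ₗ[o] M i) ≤ N) →
      ∀ x : M i, (p : o) ^ n • x ∈ N)

/-- Graded tuples of finite index: sublattices `I i` of `M i` for `i < c` with
`[I i, V] ≤ I (i + 1)`. -/
abbrev Tup {c d : ℕ} {M : ℕ → Type} [∀ i, AddCommGroup (M i)] [∀ i, Module o (M i)]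
    (ad : ∀ i, Fin d → M i →ₗ[o] M (i + 1)) : Type :=
  {I : ∀ i : Fin c, Lat o (M i) // ∀ (i : ℕ) (h : i + 1 < c), ∀ j : Fin d,
    ∀ x ∈ (I ⟨i, Nat.lt_of_succ_lt h⟩).1, ad i j x ∈ (I ⟨i + 1, h⟩).1}

end tower

end Pool.Agent.TZ
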