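import Pool.Agent.TZ.Defs
import Pool.Agent.TZ.Base

set_option autoImplicit false

/-! The unramified extensions as discrete valuation rings. -/

namespace Pool.Agent.TZ

theorem ringHyp_unram (p f : ℕ) [Fact p.Prime] (hf : 1 ≤ f) : RingHyp (Unram p f) p (p ^ f) where
  prime := Fact.out
  irr := WittVector.irreducible p
  card := by
    rw [Nat.card_congr (WittVector.quotientPEquiv (p := p) (k := GaloisField p f)).toEquiv]
    exact GaloisField.card p f (by omega)
  one_lt := Nat.one_lt_pow (by omega) (Fact.out : p.Prime).one_lt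


/-- Integers prime to `p` are units. -/
theorem isUnit_natCast {o : Type} [CommRing o] [IsDomain o] [IsDiscreteValuationRing o] {p q : ℕ}
    (h : RingHyp o p q) (n : ℕ) (hn : ¬ p ∣ n) : IsUnit (n : o) := by
  have hc : Nat.Coprime n p := ((h.prime.coprime_iff_not_dvd).2 hn).symm
  have hb : IsCoprime (n : ℤ) (p : ℤ) := Nat.isCoprime_iff_coprime.2 hc
  obtain ⟨a, b, hab⟩ := hb
  have hab' : (a : o) * (n : o) + (b : o) * (p : o) = 1 := by
    have := congrArg (Int.cast : ℤ → o) hab
    push_cast at this
    exact this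
  have hp : ¬ IsUnit (p : o) := h.irr.not_isUnit
  by_contra hu
  have h1 : (n : o) ∈ IsLocalRing.maximalIdeal o := (IsLocalRing.mem_maximalIdeal _).2 hu
  have h2 : (p : o) ∈ IsLocalRing.maximalIdeal o := (IsLocalRing.mem_maximalIdeal _).2 hp
  have h3 : (1 : o) ∈ IsLocalRing.maximalIdeal o := by
    rw [← hab']
    exact Ideal.add_mem _ (Ideal.mul_mem_left _ _ h1) (Ideal.mul_mem_left _ _ h2)
  exact (Ideal.ne_top_iff_one _).1 (IsLocalRing.maximalIdeal.isMaximal o).ne_top h3

theorem charZero_unram (p f : ℕ) [Fact p.Prime] : CharZero (Unram p f) := by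
  have hp : (p : Unram p f) ≠ 0 := WittVector.p_nonzero p (GaloisField p f)
  have hpp : p.Prime := Fact.out
  have key : ∀ n : ℕ, n ≠ 0 → (n : Unram p f) ≠ 0 := by
    intro n hn
    obtain ⟨m, u, hu, rfl⟩ := Nat.exists_eq_pow_mul_and_not_dvd hn p hpp.ne_one
    have hu0 : (u : Unram p f) ≠ 0 := by
      intro h0
      have h1 : ((u : ℕ) : GaloisField p f) = 0 := by
        have := congrArg (WittVector.constantCoeff (p := p) (R := GaloisField p f)) h0
        simpa using this
      exact hu ((CharP.cast_eq_zero_iff (GaloisField p f) p u).1 h1)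
    push_cast
    exact mul_ne_zero (pow_ne_zero _ hp) hu0
  exact charZero_of_inj_zero fun n h => by
    by_contra hn
    exact key n hn h

end Pool.Agent.TZ
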