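import Pool.Agent.TZ.LR
import Pool.Agent.TZ.LC
import Pool.Agent.TZ.WV

set_option autoImplicit false

/-! Graded ideals and tuples of lattices. -/

namespace Pool.Agent.TZ

namespace GI

theorem bracket_aux {R : Type} [CommRing R] {c d : ℕ}
    (I : Fin c → Submodule R (FreeLieAlgebra R (Fin d)))
    (h : ∀ (i : ℕ) (hi : i + 1 < c), ∀ x ∈ I ⟨i, Nat.lt_of_succ_lt hi⟩, ∀ j : Fin d,
      ⁅x, FreeLieAlgebra.of R j⁆ ∈ I ⟨i + 1, hi⟩) (j : ℕ) :
    ∀ (i : ℕ) (hk : i + j + 1 < c) (x : FreeLieAlgebra R (Fin d)), x ∈ I ⟨i, by omega⟩ →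
    ∀ y ∈ lieDeg R d j, ⁅x, y⁆ ∈ I ⟨i + j + 1, hk⟩ := by
  induction j with
  | zero =>
    intro i hk x hx y hy
    rw [lieDeg] at hy
    induction hy using Submodule.span_induction with
    | mem y hy =>
      obtain ⟨a, rfl⟩ := hy
      exact h i hk x hx a
    | zero => rw [lie_zero]; exact Submodule.zero_mem _
    | add y z _ _ hy hz => rw [lie_add]; exact Submodule.add_mem _ hy hz
    | smul a y _ hy => rw [lie_smul]; exact Submodule.smul_mem _ _ hy
  | succ j ih =>
    intro i hk x hx y hy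
    rw [lieDeg] at hy
    induction hy using Submodule.span_induction with
    | mem y hy =>
      obtain ⟨z, hz, a, rfl⟩ := hy
      rw [leibniz_lie x z (FreeLieAlgebra.of R a), ← lie_skew z ⁅x, FreeLieAlgebra.of R a⁆]
      refine Submodule.add_mem _ ?_ (Submodule.neg_mem _ ?_)
      · exact h (i + j + 1) (by omega) _ (ih i (by omega) x hx z hz) a
      · have h1 := ih (i + 1) (by omega) _ (h i (by omega) x hx a) z hz
        have h2 : (⟨i + 1 + j + 1, by omega⟩ : Fin c) = ⟨i + (j + 1) + 1, hk⟩ := by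
          apply Fin.ext; simp only; omega
        rwa [h2] at h1
    | zero => rw [lie_zero]; exact Submodule.zero_mem _
    | add y z _ _ hy hz => rw [lie_add]; exact Submodule.add_mem _ hy hz
    | smul a y _ hy => rw [lie_smul]; exact Submodule.smul_mem _ _ hy

end GI

/-- It is enough to bracket with generators. -/
theorem bracket_mem_of_gen {R : Type} [CommRing R] {c d : ℕ}
    (I : Fin c → Submodule R (FreeLieAlgebra R (Fin d)))
    (h : ∀ (i : ℕ) (hi : i + 1 < c), ∀ x ∈ I ⟨i, Nat.lt_of_succ_lt hi⟩, ∀ j : Fin d,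
      ⁅x, FreeLieAlgebra.of R j⁆ ∈ I ⟨i + 1, hi⟩)
    (i j k : Fin c) (hk : (k : ℕ) = i + j + 1) (x : FreeLieAlgebra R (Fin d)) (hx : x ∈ I i)
    (y : FreeLieAlgebra R (Fin d)) (hy : y ∈ lieDeg R d j) : ⁅x, y⁆ ∈ I k := by
  have hk' : (i : ℕ) + j + 1 < c := by rw [← hk]; exact k.2
  have h1 := GI.bracket_aux I h j i hk' x hx y hy
  have h2 : (⟨(i : ℕ) + j + 1, hk'⟩ : Fin c) = k := Fin.ext hk.symm
  rwa [h2] at h1

namespace GI

theorem relIndex_eq {R M : Type} [CommRing R] [AddCommGroup M] [Module R M]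
    (P N : Submodule R M) :
    N.toAddSubgroup.relIndex P.toAddSubgroup = Nat.card (P ⧸ N.comap P.subtype) := by
  rfl

/-- The graded ideal of a tuple. -/
noncomputable def toIdeal {R : Type} [CommRing R] [IsDomain R] [IsDiscreteValuationRing R]
    {c d : ℕ} (T : Tup (c := c) (adL R d)) : GradedIdeal R c d where
  part i := (T.1 i).1.map (lieDeg R d i).subtype
  le_deg i := Submodule.map_subtype_le _ _
  bracket_mem i j k hk x hx y hy := by
    refine bracket_mem_of_gen (fun i : Fin c => (T.1 i).1.map (lieDeg R d i).subtype) ?_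
      i j k hk x hx y hy
    intro i hi x hx j
    rw [Submodule.mem_map] at hx ⊢
    obtain ⟨x', hx', rfl⟩ := hx
    exact ⟨adL R d i j x', T.2 i hi j x' hx', rfl⟩

theorem comap_toIdeal {R : Type} [CommRing R] [IsDomain R] [IsDiscreteValuationRing R]
    {c d : ℕ} (T : Tup (c := c) (adL R d)) (i : Fin c) :
    ((toIdeal T).part i).comap (lieDeg R d i).subtype = (T.1 i).1 :=
  Submodule.comap_map_eq_of_injective (Submodule.subtype_injective _) _

theorem index_toIdeal {R : Type} [CommRing R] [IsDomain R] [IsDiscreteValuationRing R]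
    {p q : ℕ} (h : RingHyp R p q) {c d : ℕ} (hfin : ∀ i : Fin c, Module.Finite R (LM R d i))
    (T : Tup (c := c) (adL R d)) :
    (toIdeal T).index = q ^ ∑ i, len q (T.1 i).1 := by
  rw [GradedIdeal.index, ← Finset.prod_pow_eq_pow_sum]
  refine Finset.prod_congr rfl fun i _ => ?_
  rw [relIndex_eq, comap_toIdeal]
  have := hfin i
  exact card_quot h _ (T.1 i).2

theorem toIdeal_injective {R : Type} [CommRing R] [IsDomain R] [IsDiscreteValuationRing R]
    {c d : ℕ} : Function.Injective (toIdeal (R := R) (c := c) (d := d)) := by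
  intro T T' he
  apply Subtype.ext
  funext i
  apply Subtype.ext
  rw [← comap_toIdeal T i, he, comap_toIdeal]

theorem exists_toIdeal {R : Type} [CommRing R] [IsDomain R] [IsDiscreteValuationRing R]
    {c d : ℕ} (I : GradedIdeal R c d) (hI : I.index ≠ 0) : ∃ T, toIdeal T = I := by
  have h1 : ∀ i : Fin c, Finite (LM R d i ⧸ (I.part i).comap (lieDeg R d i).subtype) := by
    intro i
    apply Nat.finite_of_card_ne_zero
    rw [← relIndex_eq]
    exact (Finset.prod_ne_zero_iff.1 hI) i (Finset.mem_univ i)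
  refine ⟨⟨fun i => ⟨(I.part i).comap (lieDeg R d i).subtype, h1 i⟩, ?_⟩, ?_⟩
  · intro i hi j x hx
    have h2 : FreeLieAlgebra.of R j ∈ lieDeg R d 0 := Submodule.subset_span ⟨j, rfl⟩
    have hc : 0 < c := by omega
    exact I.bracket_mem ⟨i, Nat.lt_of_succ_lt hi⟩ ⟨0, hc⟩ ⟨i + 1, hi⟩ rfl _ hx _ h2
  · have h2 : ∀ i : Fin c, ((I.part i).comap (lieDeg R d i).subtype).map
        (lieDeg R d i).subtype = I.part i := by
      intro i
      rw [Submodule.map_comap_subtype]
      exact inf_eq_right.2 (I.le_deg i)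
    cases I with
    | mk part le_deg bm =>
      simp only [toIdeal]
      congr 1
      funext i
      exact h2 i

end GI

theorem idealCount_eq_gf (c d p f : ℕ) [Fact p.Prime] (hf : 1 ≤ f) (hc : c ≤ 4) (hp : 5 ≤ p) :
    PowerSeries.mk (fun n => (idealCount c d p f n : ℤ)) =
      gf (fun I : Tup (c := c) (adL (Unram p f) d) => ∑ i, len (p ^ f) (I.1 i).1) := by
  have h := ringHyp_unram p f hf
  have hfin : ∀ i : Fin c, Module.Finite (Unram p f) (LM (Unram p f) d i) := by
    intro i
    apply finite_LM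
    apply isUnit_natCast h
    intro hd
    have := Nat.le_of_dvd (by omega) hd
    omega
  ext n
  rw [PowerSeries.coeff_mk, gf, PowerSeries.coeff_mk, idealCount]
  congr 1
  symm
  have hlt := h.one_lt
  refine Nat.card_congr (Equiv.ofBijective (fun T => ⟨GI.toIdeal T.1, ?_⟩) ⟨?_, ?_⟩)
  · rw [GI.index_toIdeal h hfin, T.2]
  · intro T T' he
    exact Subtype.ext (GI.toIdeal_injective (Subtype.mk.inj he))
  · rintro ⟨I, hI⟩
    obtain ⟨T, hT⟩ := GI.exists_toIdeal I (by rw [hI]; positivity)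
    refine ⟨⟨T, ?_⟩, Subtype.ext hT⟩
    have h1 := GI.index_toIdeal h hfin T
    rw [hT, hI] at h1
    exact (Nat.pow_right_injective hlt h1).symm

end Pool.Agent.TZ
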