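import Pool.Agent.TZ.TH
import Pool.Agent.TZ.GI
import Pool.Agent.TZ.CM
import Pool.Agent.TZ.DT1
import Pool.Agent.TZ.DT2

set_option autoImplicit false

/-! The main theorem. -/

namespace Pool.Agent.TZ

open Filter Topology

/-- The value for one ring. -/
theorem tower_psum {o : Type} [CommRing o] [IsDomain o] [IsDiscreteValuationRing o] {p q : ℕ}
    [Fact p.Prime] (h : RingHyp o p q) (hq : p ∣ q) (hp : p ≠ 2) {c d : ℕ} (hc : 1 ≤ c)
    {M : ℕ → Type} [∀ i, AddCommGroup (M i)] [∀ i, Module o (M i)]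
    {ad : ∀ i, Fin d → M i →ₗ[o] M (i + 1)} {W : ℕ → ℕ} (H : TowerHyp o p c d M ad W) :
    ∃ F : PowerSeries ℤ, gf (fun I : Tup (c := c) ad => ∑ i, len q (I.1 i).1) *
      ∏ k : Fin c, (1 - PowerSeries.X ^ (∑ i ∈ Finset.range ((k : ℕ) + 1), W i)) = F ∧
      PSum p F (((∏ i : Fin c, (W i : ℚ) / ∏ j ∈ Finset.Ico 1 (W i), (1 - (q : ℚ) ^ j)) : ℚ) :
        ℚ_[p]) := by
  refine ⟨_, gf_tup h H, ?_⟩
  refine psum_of_padicEq (tower_padicEq h hp hc H) ?_
  have e1 : gf (fun L : ∀ i : Fin c, Prim o p (M i) => ∑ i, len q (L i).1) =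
      ∏ i : Fin c, gf (fun N : Prim o p (M i) => len q N.1) := by
    apply gf_pi (X := fun i : Fin c => Prim o p (M i)) (fun i N => len q N.1)
    intro i n
    have := H.free i i.2
    have := H.fin i i.2
    exact prim_finite h n
  rw [e1]
  have e2 : (((∏ i : Fin c, (W i : ℚ) / ∏ j ∈ Finset.Ico 1 (W i), (1 - (q : ℚ) ^ j)) : ℚ) :
      ℚ_[p]) = ∏ i : Fin c, ((W i : ℚ_[p]) / ∏ j ∈ Finset.Ico 1 (W i), (1 - (q : ℚ_[p]) ^ j)) := by
    push_cast
    rfl
  rw [e2]
  apply psum_prod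
  intro i
  have := H.free i i.2
  have := H.fin i i.2
  have hr := H.rank i i.2
  have hpos := H.pos i i.2
  have := gf_prim h (M := M i) (by rw [hr]; exact hpos)
  rw [hr] at this
  exact psum_prim hq hpos this

theorem exists_prime_ge (B : ℕ) : ∃ p : ℕ, p.Prime ∧ B ≤ p := by
  obtain ⟨p, h1, h2⟩ := Nat.exists_infinite_primes B
  exact ⟨p, h2, h1⟩

theorem main {c d : ℕ} (hd : 2 ≤ d) (hc : 1 ≤ c) (hc4 : c ≤ 4) (F : DenefFormula c d)
    (z : ℝ → ℝ) (hz : F.IsTopological (wittSum d c) z) :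
    Tendsto (fun s : ℝ => s ^ c * z s) (𝓝[≠] 0) (𝓝 (leadingValue c d)) ∧
      leadingValue c d ≠ 0 := by
  have hW : ∀ i : Fin c, 1 ≤ wittFn d (i + 1) := fun i =>
    wittFn_pos hd (Nat.le_add_left _ _) (by have := i.2; omega)
  have hsum : ∀ k : ℕ, wittSum d k = ∑ i ∈ Finset.range k, wittFn d (i + 1) := by
    intro k
    rw [wittSum, Finset.range_eq_Ico, Finset.sum_Ico_add' (fun i => wittFn d i) 0 k 1]
    rfl
  have hR : ∀ i : Fin c, 1 ≤ wittSum d (i + 1) := fun i => by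
    rw [hsum]
    calc 1 ≤ wittFn d (i + 1) := hW i
      _ ≤ _ := Finset.single_le_sum (f := fun j => wittFn d (j + 1)) (fun _ _ => Nat.zero_le _)
          (Finset.self_mem_range_succ _)
  -- the prime
  choose Bc hBc using F.count
  obtain ⟨B0, hB0⟩ := F.formula
  obtain ⟨p, hp, hpB⟩ := exists_prime_ge (5 + B0 + ∑ i, Bc i)
  have : Fact p.Prime := ⟨hp⟩
  have hp5 : 5 ≤ p := by omega
  have hpBc : ∀ i, Bc i ≤ p := fun i => by
    have : Bc i ≤ ∑ i, Bc i := Finset.single_le_sum (f := Bc) (fun _ _ => Nat.zero_le _)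
      (Finset.mem_univ i)
    omega
  choose n m α hα hm he using fun i => hBc i p hp (hpBc i)
  -- exponent shift
  obtain ⟨n0, hn0⟩ : ∃ n0 : ℕ, ∀ i, ∀ t ∈ F.num i, 0 ≤ t.2.2 + (n0 : ℤ) := by
    have : ∀ i, ∃ a : ℕ, ∀ t ∈ F.num i, 0 ≤ t.2.2 + (a : ℤ) := by
      intro i
      generalize F.num i = L
      induction L with
      | nil => exact ⟨0, by simp⟩
      | cons t L ih =>
        obtain ⟨a, ha⟩ := ih
        refine ⟨a + t.2.2.natAbs, ?_⟩
        intro t' ht'
        rcases List.mem_cons.mp ht' with rfl | h'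
        · push_cast
          have := neg_abs_le t'.2.2
          omega
        · have := ha t' h'
          have h0 := abs_nonneg t.2.2
          push_cast
          omega
    choose a ha using this
    refine ⟨∑ i, a i, fun i t ht => ?_⟩
    have h1 := ha i t ht
    have h2 : a i ≤ ∑ i, a i := Finset.single_le_sum (f := a) (fun _ _ => Nat.zero_le _)
      (Finset.mem_univ i)
    have : (a i : ℤ) ≤ ((∑ i, a i : ℕ) : ℤ) := by exact_mod_cast h2
    omega
  -- local statement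
  have hloc : ∀ f : ℕ, 1 ≤ f → c ≤ zeroCount F.den ∧
      (∀ k < zeroCount F.den - c,
        ∑ i, (F.e i p f : ℝ) * (F.num i).tay n0 k ((p ^ f : ℕ) : ℝ) = 0) ∧
      (∑ i, (F.e i p f : ℝ) * (F.num i).tay n0 (zeroCount F.den - c) ((p ^ f : ℕ) : ℝ)) *
          (∏ i : Fin c, ((wittSum d (i + 1) : ℕ) : ℝ)) *
          kProd (fun i : Fin c => wittFn d (i + 1)) ((p ^ f : ℕ) : ℝ) =
        (-1) ^ (zeroCount F.den - c) * (zeroProd F.den : ℝ) *
          nonzeroProd F.den ((p ^ f : ℕ) : ℝ) * ∏ i : Fin c, ((wittFn d (i + 1) : ℕ) : ℝ) := by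
    intro f hf
    have := charZero_unram p f
    have hring := ringHyp_unram p f hf
    have htow : TowerHyp (Unram p f) p c d (LM (Unram p f) d) (adL (Unram p f) d)
        (fun i => wittFn d (i + 1)) := tower_lie hring hp5 hc4 hd
    have hq : p ∣ p ^ f := dvd_pow_self p (by omega)
    obtain ⟨G, hG1, hG2⟩ := tower_psum hring hq (by omega) hc htow
    rw [← idealCount_eq_gf c d p f hf hc4 hp5] at hG1
    refine local_taylor p (p ^ f) hq hring.one_lt (fun i : Fin c => wittFn d (i + 1))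
      (fun i : Fin c => wittSum d (i + 1)) hW hR F.num F.den F.den_ne n0 hn0
      (fun i => F.e i p f) (idealCount c d p f) ?_ G ?_ hG2
    · exact hB0 p (by omega) f hf
    · rw [← hG1]
      congr 1
      apply Finset.prod_congr rfl
      intro k _
      rw [hsum]
  have hzc := (hloc 1 le_rfl).1
  obtain ⟨ht0, ht1⟩ := transfer p (by omega) (fun i : Fin c => wittFn d (i + 1))
    (fun i : Fin c => wittSum d (i + 1)) F.num F.den n0 (fun i f => F.e i p f) n m α hα
    (fun i f hf => he i f hf) (fun f hf => (hloc f hf).2.1) (fun f hf => (hloc f hf).2.2)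
  obtain ⟨S, w, hw⟩ := hz
  have hE : ∀ i, Tendsto (fun x : ℝ => ∑ j, (m i j : ℝ) * ‖α i j‖ ^ x) (𝓝[>] 0)
      (𝓝 (F.χ i : ℝ)) := by
    intro i
    have h1 : Tendsto (fun x : ℝ => ∑ j, (m i j : ℝ) * ‖α i j‖ ^ x) (𝓝 0)
        (𝓝 (∑ j, (m i j : ℝ) * ‖α i j‖ ^ (0 : ℝ))) := by
      apply tendsto_finsetSum
      intro j _
      apply Tendsto.const_mul
      exact (Real.continuous_const_rpow (norm_ne_zero_iff.mpr (hα i j))).tendsto 0
    have h2 : (∑ j, (m i j : ℝ) * ‖α i j‖ ^ (0 : ℝ)) = (F.χ i : ℝ) := by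
      rw [← hm i]
      push_cast
      apply Finset.sum_congr rfl
      intro j _
      rw [Real.rpow_zero, mul_one]
    rw [h2] at h1
    exact h1.mono_left nhdsWithin_le_nhds
  have hp1 : (1 : ℝ) < p := by exact_mod_cast hp.one_lt
  have hr : ∑ i : Fin c, wittFn d (i + 1) = wittSum d c := by
    rw [hsum, Finset.sum_range]
  have key := limit_main (p : ℝ) hp1 (fun i : Fin c => wittFn d (i + 1))
    (fun i : Fin c => wittSum d (i + 1)) hW hR F.num F.den F.den_ne n0 hn0
    (fun i => (F.χ i : ℝ)) (fun i x => ∑ j, (m i j : ℝ) * ‖α i j‖ ^ x) hE hzc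
    ht0 ht1 S w (fun s hs i => by rw [hr]; exact (hw s hs).1 i)
  have hval : ((∏ i : Fin c, ((wittFn d (i + 1) : ℕ) : ℝ) / ((wittSum d (i + 1) : ℕ) : ℝ)) *
      ∏ i : Fin c, ∏ j ∈ Finset.Ico 1 (wittFn d (i + 1)), (-(j : ℝ))⁻¹) = leadingValue c d := by
    have h3 : ∀ n : ℕ, 1 ≤ n → ∏ j ∈ Finset.Ico 1 n, (-(j : ℝ))⁻¹ =
        (-1) ^ (n - 1) / ((n - 1).factorial : ℝ) := by
      intro n hn
      obtain ⟨n, rfl⟩ : ∃ k, n = k + 1 := ⟨n - 1, by omega⟩
      rw [Nat.add_sub_cancel]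
      induction n with
      | zero => simp
      | succ n ih =>
        rw [Finset.prod_Ico_succ_top (by omega), ih (by omega), Nat.factorial_succ]
        have : (n.factorial : ℝ) ≠ 0 := by exact_mod_cast n.factorial_ne_zero
        have h4 : ((n : ℝ) + 1) ≠ 0 := by positivity
        push_cast
        field_simp
        ring
    rw [leadingValue]
    have h5 : wittSum d c - c = ∑ i : Fin c, (wittFn d (i + 1) - 1) := by
      rw [← hr, Finset.sum_tsub_distrib _ (fun i _ => hW i)]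
      simp
    rw [h5, ← Finset.prod_pow_eq_pow_sum]
    have h6 : ∏ i ∈ Finset.Icc 1 c, (wittFn d i : ℝ) /
        ((wittSum d i : ℝ) * ((wittFn d i - 1).factorial : ℝ)) =
        ∏ i : Fin c, (wittFn d (i + 1) : ℝ) /
        ((wittSum d (i + 1) : ℝ) * ((wittFn d (i + 1) - 1).factorial : ℝ)) := by
      rw [← Finset.prod_range (fun i => (wittFn d (i + 1) : ℝ) /
        ((wittSum d (i + 1) : ℝ) * ((wittFn d (i + 1) - 1).factorial : ℝ))),
        Finset.range_eq_Ico, Finset.prod_Ico_add' (fun i => (wittFn d i : ℝ) /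
        ((wittSum d i : ℝ) * ((wittFn d i - 1).factorial : ℝ))) 0 c 1]
      rfl
    rw [h6, ← Finset.prod_mul_distrib, ← Finset.prod_mul_distrib]
    apply Finset.prod_congr rfl
    intro i _
    rw [h3 _ (hW i)]
    have h7 : ((wittSum d (i + 1) : ℕ) : ℝ) ≠ 0 := by
      have := hR i
      positivity
    have h8 : (((wittFn d (i + 1) - 1).factorial : ℕ) : ℝ) ≠ 0 := by
      exact_mod_cast Nat.factorial_ne_zero _
    field_simp
  constructor
  · rw [← hval]
    refine (tendsto_congr' ?_).mp key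
    have hS : ∀ᶠ s : ℝ in 𝓝[≠] 0, s ∉ S := by
      have h9 : ∀ᶠ s : ℝ in 𝓝[≠] 0, s ∉ (S.erase 0 : Finset ℝ) := by
        apply Filter.Eventually.filter_mono nhdsWithin_le_nhds
        apply IsOpen.mem_nhds (S.erase 0).finite_toSet.isClosed.isOpen_compl
        simp
      filter_upwards [h9, self_mem_nhdsWithin] with s hs hs0
      intro hmem
      exact hs (Finset.mem_erase.mpr ⟨hs0, hmem⟩)
    filter_upwards [hS] with s hs
    rw [(hw s hs).2]
  · rw [leadingValue]
    apply mul_ne_zero (by positivity)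
    rw [Finset.prod_ne_zero_iff]
    intro i hi
    rw [Finset.mem_Icc] at hi
    have h1 := hW ⟨i - 1, by omega⟩
    have h2 := hR ⟨i - 1, by omega⟩
    simp only [Nat.sub_add_cancel hi.1] at h1 h2
    have h8 : (((wittFn d i - 1).factorial : ℕ) : ℝ) ≠ 0 := by
      exact_mod_cast Nat.factorial_ne_zero _
    positivity

end Pool.Agent.TZ
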