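import Pool.Agent.TZ.LB

set_option autoImplicit false

/-! The action of matrices on the free Lie algebra. -/

namespace Pool.Agent.TZ

attribute [local instance 100] LieRing.ofAssociativeRing

variable {o : Type} [CommRing o] {d : ℕ}

theorem phiG_of (g : Matrix (Fin d) (Fin d) o) (j : Fin d) :
    phiG o d g (FreeLieAlgebra.of o j) = ∑ a, g a j • FreeLieAlgebra.of o a := by
  unfold phiG
  exact FreeLieAlgebra.lift_of_apply _ _

theorem phiG_lie_of (g : Matrix (Fin d) (Fin d) o) (x : FreeLieAlgebra o (Fin d)) (j : Fin d) :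
    phiG o d g ⁅x, FreeLieAlgebra.of o j⁆ =
      ∑ a, g a j • ⁅phiG o d g x, FreeLieAlgebra.of o a⁆ := by
  rw [LieHom.map_lie, phiG_of, lie_sum]
  simp only [lie_smul]

theorem of_mem_lieDeg (j : Fin d) : FreeLieAlgebra.of o j ∈ lieDeg o d 0 := by
  rw [lieDeg]
  exact Submodule.subset_span ⟨j, rfl⟩

theorem lie_of_mem_lieDeg (i : ℕ) (x : FreeLieAlgebra o (Fin d)) (hx : x ∈ lieDeg o d i)
    (j : Fin d) : ⁅x, FreeLieAlgebra.of o j⁆ ∈ lieDeg o d (i + 1) := by
  rw [lieDeg]
  exact Submodule.subset_span ⟨x, hx, j, rfl⟩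

theorem phiG_mem (g : Matrix (Fin d) (Fin d) o) (i : ℕ) (x : FreeLieAlgebra o (Fin d))
    (hx : x ∈ lieDeg o d i) : phiG o d g x ∈ lieDeg o d i := by
  induction i generalizing x with
  | zero =>
    have hx' := hx
    rw [lieDeg] at hx'
    induction hx' using Submodule.span_induction with
    | mem y hy =>
      obtain ⟨j, rfl⟩ := hy
      rw [phiG_of]
      exact Submodule.sum_mem _ fun a _ => Submodule.smul_mem _ _ (of_mem_lieDeg a)
    | zero => rw [map_zero]; exact Submodule.zero_mem _
    | add y z h1 h2 hy hz =>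
      rw [map_add]
      exact Submodule.add_mem _ (hy (by rw [lieDeg]; exact h1)) (hz (by rw [lieDeg]; exact h2))
    | smul a y h1 hy =>
      rw [map_smul]
      exact Submodule.smul_mem _ _ (hy (by rw [lieDeg]; exact h1))
  | succ i ih =>
    have hx' := hx
    rw [lieDeg] at hx'
    induction hx' using Submodule.span_induction with
    | mem y hy =>
      obtain ⟨y, hy, j, rfl⟩ := hy
      rw [phiG_lie_of]
      exact Submodule.sum_mem _ fun a _ => Submodule.smul_mem _ _
        (lie_of_mem_lieDeg i _ (ih y hy) a)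
    | zero => rw [map_zero]; exact Submodule.zero_mem _
    | add y z h1 h2 hy hz =>
      rw [map_add]
      exact Submodule.add_mem _ (hy (by rw [lieDeg]; exact h1)) (hz (by rw [lieDeg]; exact h2))
    | smul a y h1 hy =>
      rw [map_smul]
      exact Submodule.smul_mem _ _ (hy (by rw [lieDeg]; exact h1))

theorem phiG_one (x : FreeLieAlgebra o (Fin d)) : phiG o d 1 x = x := by
  have h : phiG o d 1 = LieHom.id := by
    apply FreeLieAlgebra.hom_ext
    intro j
    rw [phiG_of]
    simp [Matrix.one_apply]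
  rw [h]
  rfl

theorem phiG_mul (g h : Matrix (Fin d) (Fin d) o) (x : FreeLieAlgebra o (Fin d)) :
    phiG o d (g * h) x = phiG o d g (phiG o d h x) := by
  have h : phiG o d (g * h) = (phiG o d g).comp (phiG o d h) := by
    apply FreeLieAlgebra.hom_ext
    intro j
    rw [phiG_of, LieHom.comp_apply, phiG_of, map_sum]
    simp only [map_smul, phiG_of, Matrix.mul_apply, Finset.sum_smul, Finset.smul_sum, smul_smul]
    rw [Finset.sum_comm]
    apply Finset.sum_congr rfl
    intro a _
    apply Finset.sum_congr rfl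
    intro b _
    rw [mul_comm]
  rw [h]
  rfl

theorem phiG_congr_aux (a : o) (X : Matrix (Fin d) (Fin d) o) (i : ℕ)
    (x : FreeLieAlgebra o (Fin d)) (hx : x ∈ lieDeg o d i) :
    ∃ y ∈ lieDeg o d i, phiG o d (1 + a • X) x = x + a • y := by
  have h0 : ∀ j : Fin d, phiG o d (1 + a • X) (FreeLieAlgebra.of o j) =
      FreeLieAlgebra.of o j + a • ∑ b, X b j • FreeLieAlgebra.of o b := by
    intro j
    rw [phiG_of, Finset.smul_sum]
    simp only [Matrix.add_apply, Matrix.smul_apply, add_smul, Finset.sum_add_distrib,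
      smul_eq_mul, mul_smul]
    congr 1
    simp [Matrix.one_apply]
  have h0' : ∀ j : Fin d, ∑ b, X b j • FreeLieAlgebra.of o b ∈ lieDeg o d 0 := fun j =>
    Submodule.sum_mem _ fun a _ => Submodule.smul_mem _ _ (of_mem_lieDeg a)
  induction i generalizing x with
  | zero =>
    have hx' := hx
    rw [lieDeg] at hx'
    induction hx' using Submodule.span_induction with
    | mem y hy =>
      obtain ⟨j, rfl⟩ := hy
      exact ⟨_, h0' j, h0 j⟩
    | zero => exact ⟨0, Submodule.zero_mem _, by simp⟩
    | add y z h1 h2 hy hz =>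
      obtain ⟨y', hy', ey⟩ := hy (by rw [lieDeg]; exact h1)
      obtain ⟨z', hz', ez⟩ := hz (by rw [lieDeg]; exact h2)
      refine ⟨y' + z', Submodule.add_mem _ hy' hz', ?_⟩
      rw [map_add, ey, ez, smul_add]
      abel
    | smul b y h1 hy =>
      obtain ⟨y', hy', ey⟩ := hy (by rw [lieDeg]; exact h1)
      refine ⟨b • y', Submodule.smul_mem _ _ hy', ?_⟩
      rw [map_smul, ey, smul_add, smul_comm]
  | succ i ih =>
    have hx' := hx
    rw [lieDeg] at hx'
    induction hx' using Submodule.span_induction with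
    | mem y hy =>
      obtain ⟨y, hy, j, rfl⟩ := hy
      obtain ⟨y', hy', ey⟩ := ih y hy
      refine ⟨⁅y, ∑ b, X b j • FreeLieAlgebra.of o b⁆ + ⁅y', FreeLieAlgebra.of o j⁆ +
        a • ⁅y', ∑ b, X b j • FreeLieAlgebra.of o b⁆, ?_, ?_⟩
      · have hl : ∀ z ∈ lieDeg o d i, ⁅z, ∑ b, X b j • FreeLieAlgebra.of o b⁆ ∈
            lieDeg o d (i + 1) := by
          intro z hz
          rw [lie_sum]
          simp only [lie_smul]
          exact Submodule.sum_mem _ fun a _ => Submodule.smul_mem _ _
            (lie_of_mem_lieDeg i _ hz a)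
        exact Submodule.add_mem _ (Submodule.add_mem _ (hl y hy) (lie_of_mem_lieDeg i _ hy' j))
          (Submodule.smul_mem _ _ (hl y' hy'))
      · rw [LieHom.map_lie, h0, ey]
        simp only [add_lie, lie_add, smul_lie, lie_smul, smul_add]
        abel
    | zero => exact ⟨0, Submodule.zero_mem _, by simp⟩
    | add y z h1 h2 hy hz =>
      obtain ⟨y', hy', ey⟩ := hy (by rw [lieDeg]; exact h1)
      obtain ⟨z', hz', ez⟩ := hz (by rw [lieDeg]; exact h2)
      refine ⟨y' + z', Submodule.add_mem _ hy' hz', ?_⟩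
      rw [map_add, ey, ez, smul_add]
      abel
    | smul b y h1 hy =>
      obtain ⟨y', hy', ey⟩ := hy (by rw [lieDeg]; exact h1)
      refine ⟨b • y', Submodule.smul_mem _ _ hy', ?_⟩
      rw [map_smul, ey, smul_add, smul_comm]

/-- Matrices congruent to `1` modulo `a` act trivially modulo `a`. -/
theorem phiG_congr (a : o) (X : Matrix (Fin d) (Fin d) o) (i : ℕ) (x : LM o d i) :
    ∃ y : LM o d i, phiG o d (1 + a • X) x = (x : FreeLieAlgebra o (Fin d)) +
      a • (y : FreeLieAlgebra o (Fin d)) := by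
  obtain ⟨y, hy, h⟩ := phiG_congr_aux a X i x x.2
  exact ⟨⟨y, hy⟩, h⟩

/-- The action of a matrix on a component. -/
noncomputable def actL (o : Type) [CommRing o] (d : ℕ) (i : ℕ) (g : Matrix (Fin d) (Fin d) o) :
    LM o d i →ₗ[o] LM o d i where
  toFun := fun x => ⟨phiG o d g x, phiG_mem g i x x.2⟩
  map_add' := fun x y => by ext; simp
  map_smul' := fun a x => by ext; simp

theorem actL_apply (i : ℕ) (g : Matrix (Fin d) (Fin d) o) (x : LM o d i) :
    (actL o d i g x : FreeLieAlgebra o (Fin d)) = phiG o d g x := rfl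

theorem actL_mul (i : ℕ) (g h : Matrix (Fin d) (Fin d) o) (x : LM o d i) :
    actL o d i (g * h) x = actL o d i g (actL o d i h x) := by
  ext
  simp only [actL_apply, phiG_mul]

theorem actL_one (i : ℕ) (x : LM o d i) : actL o d i 1 x = x := by
  ext
  simp only [actL_apply, phiG_one]

theorem actL_adL (i : ℕ) (g : Matrix (Fin d) (Fin d) o) (j : Fin d) (x : LM o d i) :
    actL o d (i + 1) g (adL o d i j x) = ∑ a, g a j • adL o d i a (actL o d i g x) := by
  ext
  rw [actL_apply]
  show phiG o d g ⁅(x : FreeLieAlgebra o (Fin d)), FreeLieAlgebra.of o j⁆ = _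
  rw [phiG_lie_of, Submodule.coe_sum]
  rfl

/-- `actW` as a linear map. -/
theorem actW_add (n : ℕ) (g : Matrix (Fin d) (Fin d) o) (y z : (Fin n → Fin d) → o) :
    actW o d n g (y + z) = actW o d n g y + actW o d n g z := by
  funext w
  simp [actW, mul_add, Finset.sum_add_distrib]

theorem actW_smul (n : ℕ) (g : Matrix (Fin d) (Fin d) o) (a : o) (y : (Fin n → Fin d) → o) :
    actW o d n g (a • y) = a • actW o d n g y := by
  funext w
  simp only [actW, Pi.smul_apply, smul_eq_mul, Finset.mul_sum]
  apply Finset.sum_congr rfl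
  intro u _
  ring

theorem actW_zero (n : ℕ) (g : Matrix (Fin d) (Fin d) o) :
    actW o d n g 0 = 0 := by
  funext w
  simp [actW]

theorem actW_ev_adL (i : ℕ) (g : Matrix (Fin d) (Fin d) o) (j : Fin d) (x : LM o d i)
    (w : Fin (i + 2) → Fin d) :
    actW o d (i + 2) g (ev o d (i + 1) (adL o d i j x)) w =
      g (w (Fin.last (i + 1))) j * actW o d (i + 1) g (ev o d i x) (Fin.init w) -
      g (w 0) j * actW o d (i + 1) g (ev o d i x) (Fin.tail w) := by
  have h1 : actW o d (i + 2) g (ev o d (i + 1) (adL o d i j x)) w =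
      (∑ u : Fin (i + 2) → Fin d, (∏ k, g (w k) (u k)) *
        (if u (Fin.last (i + 1)) = j then ev o d i x (Fin.init u) else 0)) -
      (∑ u : Fin (i + 2) → Fin d, (∏ k, g (w k) (u k)) *
        (if u 0 = j then ev o d i x (Fin.tail u) else 0)) := by
    rw [← Finset.sum_sub_distrib]
    apply Finset.sum_congr rfl
    intro u _
    rw [ev_adL]
    ring
  rw [h1]
  congr 1
  · rw [← (Fin.snocEquiv (fun _ => Fin d)).sum_comp, Fintype.sum_prod_type]
    rw [Finset.sum_eq_single j]
    · rw [actW, Finset.mul_sum]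
      apply Finset.sum_congr rfl
      intro u _
      simp only [Fin.snocEquiv, Equiv.coe_fn_mk]
      rw [Fin.prod_univ_castSucc]
      simp only [Fin.snoc_last (α := fun _ => Fin d), Fin.snoc_castSucc (α := fun _ => Fin d),
        Fin.init_snoc (α := fun _ => Fin d), if_true]
      unfold Fin.init
      ring
    · intro b _ hb
      apply Finset.sum_eq_zero
      intro u _
      simp only [Fin.snocEquiv, Equiv.coe_fn_mk, Fin.snoc_last (α := fun _ => Fin d)]
      rw [if_neg hb, mul_zero]
    · intro h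
      exact absurd (Finset.mem_univ _) h
  · rw [← (Fin.consEquiv (fun _ => Fin d)).sum_comp, Fintype.sum_prod_type]
    rw [Finset.sum_eq_single j]
    · rw [actW, Finset.mul_sum]
      apply Finset.sum_congr rfl
      intro u _
      simp only [Fin.consEquiv, Equiv.coe_fn_mk]
      rw [Fin.prod_univ_succ]
      simp only [Fin.cons_zero, Fin.cons_succ, Fin.tail_cons, if_true]
      unfold Fin.tail
      ring
    · intro b _ hb
      apply Finset.sum_eq_zero
      intro u _
      simp only [Fin.consEquiv, Equiv.coe_fn_mk, Fin.cons_zero]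
      rw [if_neg hb, mul_zero]
    · intro h
      exact absurd (Finset.mem_univ _) h

theorem ev_of (j : Fin d) (w : Fin 1 → Fin d) :
    ev o d 0 ⟨FreeLieAlgebra.of o j, of_mem_lieDeg j⟩ w = if w 0 = j then 1 else 0 := by
  show (theta o d (FreeLieAlgebra.of o j)).coeff (FreeMonoid.ofList (List.ofFn w)) = _
  rw [theta_of]
  have h1 : (FreeMonoid.ofList (List.ofFn w) : FreeMonoid (Fin d)) =
      1 * FreeMonoid.of (w 0) := by
    rw [List.ofFn_succ, one_mul]
    rfl
  have h2 : letter o d j = 1 * letter o d j := by rw [one_mul]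
  rw [h1, h2, coeff_mul_letter, MonoidAlgebra.one_def, MonoidAlgebra.coeff_single,
    Finsupp.single_eq_same]

/-- The action on coordinates. -/
theorem ev_actL (g : Matrix (Fin d) (Fin d) o) (i : ℕ) (x : LM o d i) :
    ev o d i (actL o d i g x) = actW o d (i + 1) g (ev o d i x) := by
  induction i with
  | zero =>
    obtain ⟨x, hx⟩ := x
    have hx' := hx
    rw [lieDeg] at hx'
    induction hx' using Submodule.span_induction with
    | mem y hy =>
      obtain ⟨j, rfl⟩ := hy
      have h1 : actL o d 0 g ⟨FreeLieAlgebra.of o j, hx⟩ =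
          ∑ a, g a j • (⟨FreeLieAlgebra.of o a, of_mem_lieDeg a⟩ : LM o d 0) := by
        ext
        rw [actL_apply, phiG_of, Submodule.coe_sum]
        rfl
      rw [h1]
      funext w
      rw [map_sum, Finset.sum_apply]
      simp only [map_smul, Pi.smul_apply, ev_of, smul_eq_mul]
      rw [actW]
      simp only [ev_of]
      rw [Finset.sum_eq_single (w 0), if_pos rfl, mul_one]
      · rw [Finset.sum_eq_single (fun _ => j)]
        · simp
        · intro u _ hu
          rw [if_neg, mul_zero]
          intro h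
          apply hu
          funext k
          have hk : k = 0 := Fin.ext (by have := k.2; omega)
          rw [hk, h]
        · intro h
          exact absurd (Finset.mem_univ _) h
      · intro b _ hb
        rw [if_neg (Ne.symm hb), mul_zero]
      · intro h
        exact absurd (Finset.mem_univ _) h
    | zero =>
      have h0 : (⟨0, hx⟩ : LM o d 0) = 0 := rfl
      rw [h0, map_zero, map_zero, actW_zero]
    | add y z h1 h2 hy hz =>
      have hy1 : y ∈ lieDeg o d 0 := by rw [lieDeg]; exact h1
      have hz1 : z ∈ lieDeg o d 0 := by rw [lieDeg]; exact h2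
      have h0 : (⟨y + z, hx⟩ : LM o d 0) = ⟨y, hy1⟩ + ⟨z, hz1⟩ := rfl
      rw [h0, map_add, map_add, map_add, actW_add, hy hy1, hz hz1]
    | smul a y h1 hy =>
      have hy1 : y ∈ lieDeg o d 0 := by rw [lieDeg]; exact h1
      have h0 : (⟨a • y, hx⟩ : LM o d 0) = a • ⟨y, hy1⟩ := rfl
      rw [h0, map_smul, map_smul, map_smul, actW_smul, hy hy1]
  | succ i ih =>
    obtain ⟨x, hx⟩ := x
    have hx' := hx
    rw [lieDeg] at hx'
    induction hx' using Submodule.span_induction with
    | mem y hy =>
      obtain ⟨y, hy, j, rfl⟩ := hy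
      have h0 : (⟨⁅y, FreeLieAlgebra.of o j⁆, hx⟩ : LM o d (i + 1)) = adL o d i j ⟨y, hy⟩ := rfl
      rw [h0, actL_adL]
      funext w
      rw [actW_ev_adL, map_sum, Finset.sum_apply]
      simp only [map_smul, Pi.smul_apply, smul_eq_mul, ev_adL, mul_sub, Finset.sum_sub_distrib,
        mul_ite, mul_zero, Finset.sum_ite_eq, Finset.mem_univ, if_true]
      rw [ih]
    | zero =>
      have h0 : (⟨0, hx⟩ : LM o d (i + 1)) = 0 := rfl
      rw [h0, map_zero, map_zero, actW_zero]
    | add y z h1 h2 hy hz =>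
      have hy1 : y ∈ lieDeg o d (i + 1) := by rw [lieDeg]; exact h1
      have hz1 : z ∈ lieDeg o d (i + 1) := by rw [lieDeg]; exact h2
      have h0 : (⟨y + z, hx⟩ : LM o d (i + 1)) = ⟨y, hy1⟩ + ⟨z, hz1⟩ := rfl
      rw [h0, map_add, map_add, map_add, actW_add, hy hy1, hz hz1]
    | smul a y h1 hy =>
      have hy1 : y ∈ lieDeg o d (i + 1) := by rw [lieDeg]; exact h1
      have h0 : (⟨a • y, hx⟩ : LM o d (i + 1)) = a • ⟨y, hy1⟩ := rfl
      rw [h0, map_smul, map_smul, map_smul, actW_smul, hy hy1]

/-- The action as a homomorphism to linear automorphisms. -/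
noncomputable def rhoL (o : Type) [CommRing o] (d : ℕ) (i : ℕ) :
    (Matrix (Fin d) (Fin d) o)ˣ →* (LM o d i ≃ₗ[o] LM o d i) where
  toFun g := LinearEquiv.ofLinearMap (actL o d i (g : Matrix (Fin d) (Fin d) o))
    (actL o d i ((g⁻¹ : (Matrix (Fin d) (Fin d) o)ˣ) : Matrix (Fin d) (Fin d) o))
    (by ext1 x; rw [LinearMap.comp_apply, ← actL_mul, Units.mul_inv, actL_one]; rfl)
    (by ext1 x; rw [LinearMap.comp_apply, ← actL_mul, Units.inv_mul, actL_one]; rfl)
  map_one' := by
    ext1 x
    exact actL_one i x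
  map_mul' g h := by
    ext1 x
    exact actL_mul i _ _ x

theorem rhoL_apply (i : ℕ) (g : (Matrix (Fin d) (Fin d) o)ˣ) (x : LM o d i) :
    rhoL o d i g x = actL o d i (g : Matrix (Fin d) (Fin d) o) x := rfl

theorem br_map_rhoL (i : ℕ) (g : (Matrix (Fin d) (Fin d) o)ˣ) (N : Submodule o (LM o d i)) :
    br (adL o d i) (N.map (rhoL o d i g : LM o d i →ₗ[o] LM o d i)) =
      (br (adL o d i) N).map (rhoL o d (i + 1) g : LM o d (i + 1) →ₗ[o] LM o d (i + 1)) := by
  unfold br
  rw [Submodule.map_iSup]
  apply le_antisymm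
  · apply iSup_le
    intro a
    rintro _ ⟨_, ⟨x, hx, rfl⟩, rfl⟩
    have key : adL o d i a (actL o d i (g : Matrix (Fin d) (Fin d) o) x) =
        ∑ j, ((g⁻¹ : (Matrix (Fin d) (Fin d) o)ˣ) : Matrix (Fin d) (Fin d) o) j a •
          actL o d (i + 1) (g : Matrix (Fin d) (Fin d) o) (adL o d i j x) := by
      simp only [actL_adL, Finset.smul_sum, smul_smul]
      rw [Finset.sum_comm]
      have h2 : ∀ b : Fin d, ∑ j, (((g⁻¹ : (Matrix (Fin d) (Fin d) o)ˣ) :
          Matrix (Fin d) (Fin d) o) j a * (g : Matrix (Fin d) (Fin d) o) b j) •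
            adL o d i b (actL o d i (g : Matrix (Fin d) (Fin d) o) x) =
          (if b = a then (1 : o) else 0) • adL o d i b (actL o d i (g : Matrix (Fin d) (Fin d) o) x) := by
        intro b
        rw [← Finset.sum_smul]
        congr 1
        have h3 := congrFun (congrFun (g.mul_inv) b) a
        rw [Matrix.mul_apply, Matrix.one_apply] at h3
        rw [← h3]
        apply Finset.sum_congr rfl
        intro j _
        rw [mul_comm]
      simp only [h2]
      simp
    show adL o d i a (actL o d i (g : Matrix (Fin d) (Fin d) o) x) ∈ _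
    rw [key]
    apply Submodule.sum_mem
    intro j _
    apply Submodule.smul_mem
    apply Submodule.mem_iSup_of_mem j
    exact ⟨adL o d i j x, Submodule.mem_map_of_mem hx, rfl⟩
  · apply iSup_le
    intro j
    rintro _ ⟨_, ⟨x, hx, rfl⟩, rfl⟩
    show actL o d (i + 1) (g : Matrix (Fin d) (Fin d) o) (adL o d i j x) ∈ _
    rw [actL_adL]
    apply Submodule.sum_mem
    intro a _
    apply Submodule.smul_mem
    apply Submodule.mem_iSup_of_mem a
    exact ⟨actL o d i (g : Matrix (Fin d) (Fin d) o) x, Submodule.mem_map_of_mem hx, rfl⟩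

end Pool.Agent.TZ
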