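import Pool.Agent.TZ.Base

set_option autoImplicit false

/-! Generating functions of weight functions. -/

namespace Pool.Agent.TZ

theorem gf_equiv {X Y : Type} (e : X ≃ Y) (w : Y → ℕ) : gf (fun x => w (e x)) = gf w := by
  unfold gf
  ext n
  simp only [PowerSeries.coeff_mk]
  congr 1
  exact Nat.card_congr (e.subtypeEquiv (fun a => Iff.rfl))

theorem setFinite_le {X : Type} (w : X → ℕ) (hX : ∀ n, Finite {x : X // w x = n}) (n : ℕ) :
    {x : X | w x ≤ n}.Finite := by
  have h1 : {x : X | w x ≤ n} = ⋃ m ∈ Finset.range (n + 1), {x : X | w x = m} := by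
    ext x
    simp
  rw [h1]
  refine Set.Finite.biUnion (Finset.finite_toSet _) (fun m _ => ?_)
  have : Finite ({x : X | w x = m} : Set X) := hX m
  exact Set.toFinite {x : X | w x = m}

theorem finite_prod {X Y : Type} (w : X → ℕ) (w' : Y → ℕ)
    (hX : ∀ n, Finite {x : X // w x = n}) (hY : ∀ n, Finite {y : Y // w' y = n}) (n : ℕ) :
    Finite {z : X × Y // w z.1 + w' z.2 = n} := by
  have h : {z : X × Y | w z.1 + w' z.2 = n}.Finite := by
    refine ((setFinite_le w hX n).prod (setFinite_le w' hY n)).subset ?_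
    rintro ⟨x, y⟩ hz
    simp only [Set.mem_ofPred_eq, Set.mem_prod] at hz ⊢
    omega
  exact h.to_subtype

theorem gf_prod {X Y : Type} (w : X → ℕ) (w' : Y → ℕ)
    (hX : ∀ n, Finite {x : X // w x = n}) (hY : ∀ n, Finite {y : Y // w' y = n}) :
    gf (fun z : X × Y => w z.1 + w' z.2) = gf w * gf w' := by
  ext n
  rw [PowerSeries.coeff_mul]
  unfold gf
  simp only [PowerSeries.coeff_mk]
  let e : {z : X × Y // w z.1 + w' z.2 = n} ≃
      Σ p : {p : ℕ × ℕ // p ∈ Finset.HasAntidiagonal.antidiagonal n},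
        {x : X // w x = p.1.1} × {y : Y // w' y = p.1.2} :=
    { toFun := fun z => ⟨⟨(w z.1.1, w' z.1.2), by simpa using z.2⟩, ⟨z.1.1, rfl⟩, ⟨z.1.2, rfl⟩⟩
      invFun := fun s => ⟨(s.2.1.1, s.2.2.1), by
        have := s.1.2
        rw [Finset.HasAntidiagonal.mem_antidiagonal] at this
        rw [s.2.1.2, s.2.2.2, this]⟩
      left_inv := fun z => rfl
      right_inv := by
        rintro ⟨⟨⟨a, b⟩, hp⟩, ⟨x, hx⟩, ⟨y, hy⟩⟩
        simp only at hx hy
        subst hx hy
        rfl }
  rw [Nat.card_congr e, Nat.card_sigma]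
  push_cast
  rw [← Finset.sum_coe_sort (Finset.HasAntidiagonal.antidiagonal n)
    (fun p : ℕ × ℕ => (Nat.card {x : X // w x = p.1} : ℤ) * (Nat.card {y : Y // w' y = p.2} : ℤ))]
  refine Finset.sum_congr rfl (fun p _ => ?_)
  rw [Nat.card_prod]
  push_cast
  rfl

theorem finite_pi {c : ℕ} {X : Fin c → Type} (w : ∀ i, X i → ℕ)
    (h : ∀ i n, Finite {x : X i // w i x = n}) (n : ℕ) :
    Finite {z : ∀ i, X i // ∑ i, w i (z i) = n} := by
  have h1 : {z : ∀ i, X i | ∑ i, w i (z i) = n}.Finite := by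
    refine (Set.Finite.pi (fun i => setFinite_le (w i) (h i) n)).subset ?_
    intro z hz
    simp only [Set.mem_pi, Set.mem_univ, forall_true_left, Set.mem_ofPred_eq] at hz ⊢
    intro i
    rw [← hz]
    exact Finset.single_le_sum (f := fun i => w i (z i)) (fun _ _ => Nat.zero_le _)
      (Finset.mem_univ i)
  exact h1.to_subtype

theorem gf_pi {c : ℕ} {X : Fin c → Type} (w : ∀ i, X i → ℕ)
    (h : ∀ i n, Finite {x : X i // w i x = n}) :
    gf (fun z : ∀ i, X i => ∑ i, w i (z i)) = ∏ i, gf (w i) := by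
  induction c with
  | zero =>
    simp only [Finset.univ_eq_empty, Finset.sum_empty, Finset.prod_empty]
    ext n
    unfold gf
    rw [PowerSeries.coeff_mk, PowerSeries.coeff_one]
    split_ifs with hn
    · subst hn
      have : Unique {x : (∀ i : Fin 0, X i) // 0 = 0} :=
        { default := ⟨fun i => i.elim0, rfl⟩
          uniq := fun x => Subtype.ext (funext fun i => i.elim0) }
      rw [Nat.card_unique]
      rfl
    · have : IsEmpty {x : (∀ i : Fin 0, X i) // 0 = n} := ⟨fun x => hn x.2.symm⟩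
      rw [Nat.card_of_isEmpty]
      rfl
  | succ c ih =>
    rw [Fin.prod_univ_succ, ← ih (fun i => w i.succ) (fun i => h i.succ),
      ← gf_prod _ _ (h 0) (finite_pi _ (fun i => h i.succ)),
      ← gf_equiv (Fin.consEquiv X)]
    congr 1
    funext z
    rw [Fin.sum_univ_succ]
    simp [Fin.consEquiv]

theorem gf_nat (R : ℕ) (hR : 0 < R) :
    gf (fun n : ℕ => R * n) * (1 - PowerSeries.X ^ R) = 1 := by
  have hc : ∀ n, Nat.card {x : ℕ // R * x = n} = if R ∣ n then 1 else 0 := by
    intro n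
    split_ifs with hd
    · obtain ⟨k, rfl⟩ := hd
      have : Unique {x : ℕ // R * x = R * k} :=
        { default := ⟨k, rfl⟩
          uniq := fun x => Subtype.ext (Nat.eq_of_mul_eq_mul_left hR x.2) }
      exact Nat.card_unique
    · have : IsEmpty {x : ℕ // R * x = n} := ⟨fun x => hd ⟨x.1, x.2.symm⟩⟩
      exact Nat.card_of_isEmpty
  rw [mul_sub, mul_one]
  ext n
  rw [map_sub, PowerSeries.coeff_mul_X_pow', PowerSeries.coeff_one]
  unfold gf
  simp only [PowerSeries.coeff_mk, hc]
  by_cases hn : n = 0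
  · subst hn
    have : ¬ R ≤ 0 := by omega
    simp [this]
  · by_cases hRn : R ≤ n
    · have : (R ∣ n - R) ↔ R ∣ n := by
        constructor
        · intro h
          have h2 := Dvd.dvd.add h (dvd_refl R)
          rwa [Nat.sub_add_cancel hRn] at h2
        · intro h
          exact Nat.dvd_sub h (dvd_refl R)
      simp [hn, hRn, this]
    · have : ¬ R ∣ n := fun h => hRn (Nat.le_of_dvd (Nat.pos_of_ne_zero hn) h)
      simp [hn, hRn, this]

/-- The combination used for the free parameters. -/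
theorem gf_prod_pi_nat {X : Type} (w : X → ℕ) (hX : ∀ n, Finite {x : X // w x = n}) {c : ℕ}
    (R : Fin c → ℕ) (hR : ∀ k, 0 < R k) :
    gf (fun z : X × (Fin c → ℕ) => w z.1 + ∑ k, R k * z.2 k) *
      ∏ k, (1 - PowerSeries.X ^ (R k)) = gf w := by
  have hf : ∀ k n, Finite {x : ℕ // R k * x = n} := by
    intro k n
    have : Subsingleton {x : ℕ // R k * x = n} :=
      ⟨fun x y => Subtype.ext (Nat.eq_of_mul_eq_mul_left (hR k) (x.2.trans y.2.symm))⟩
    infer_instance
  rw [gf_prod w (fun z : Fin c → ℕ => ∑ k, R k * z k) hX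
      (finite_pi (X := fun _ : Fin c => ℕ) (fun k n => R k * n) hf),
    gf_pi (X := fun _ : Fin c => ℕ) (fun k n => R k * n) hf, mul_assoc, ← Finset.prod_mul_distrib,
    Finset.prod_congr rfl (fun k _ => gf_nat (R k) (hR k))]
  simp

end Pool.Agent.TZ
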