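import Pool.Agent.TZ.LC

set_option autoImplicit false
set_option linter.unusedSectionVars false

/-! Primitive sublattices. -/

namespace Pool.Agent.TZ

variable {o : Type} [CommRing o] [IsDomain o] [IsDiscreteValuationRing o] {p q : ℕ}

namespace PR

section aux

variable {M : Type} [AddCommGroup M] [Module o M]

/-- Multiplication by `p ^ k`. -/
def mp (o : Type) [CommRing o] (p : ℕ) (M : Type) [AddCommGroup M] [Module o M] (k : ℕ) :
    M →ₗ[o] M := LinearMap.lsmul o M ((p : o) ^ k)

lemma mp_apply (k : ℕ) (x : M) : mp o p M k x = (p : o) ^ k • x := rfl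

lemma p_ne (h : RingHyp o p q) : (p : o) ≠ 0 := h.irr.ne_zero

lemma smul_cancel [Module.Free o M] (h : RingHyp o p q) (k : ℕ) {x y : M}
    (e : (p : o) ^ k • x = (p : o) ^ k • y) : x = y := by
  have hk : (p : o) ^ k ≠ 0 := pow_ne_zero _ (p_ne h)
  exact smul_right_injective M hk e

lemma mp_inj [Module.Free o M] (h : RingHyp o p q) (k : ℕ) :
    Function.Injective (mp o p M k) := fun _ _ e => smul_cancel h k e

lemma mem_map_mp (k : ℕ) (L : Submodule o M) (x : M) :
    x ∈ L.map (mp o p M k) ↔ ∃ y ∈ L, x = (p : o) ^ k • y := by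
  constructor
  · rintro ⟨y, hy, rfl⟩
    exact ⟨y, hy, rfl⟩
  · rintro ⟨y, hy, rfl⟩
    exact ⟨y, hy, rfl⟩

variable [Module.Free o M] [Module.Finite o M]

/-- An element of `M` not divisible by `p`. -/
lemma exists_not_div (h : RingHyp o p q) (hpos : 0 < Module.finrank o M) :
    ∃ b : M, ∀ y : M, b ≠ (p : o) • y := by
  classical
  let B := Module.finBasis o M
  let i0 : Fin (Module.finrank o M) := ⟨0, hpos⟩
  refine ⟨B i0, ?_⟩
  intro y hy
  have h1 := congrArg (fun z => B.repr z i0) hy
  simp only [Module.Basis.repr_self, map_smul, Finsupp.smul_apply, Finsupp.single_eq_same,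
    smul_eq_mul] at h1
  exact h.irr.not_isUnit (IsUnit.of_mul_eq_one _ h1.symm)

lemma index_p (h : RingHyp o p q) :
    (LinearMap.range (mp o p M 1)).toAddSubgroup.index = q ^ Module.finrank o M := by
  classical
  let B := Module.finBasis o M
  let f : M →ₗ[o] (Fin (Module.finrank o M) → o ⧸ Ideal.span {(p : o)}) :=
    LinearMap.pi (fun i => (Ideal.Quotient.mkₐ o (Ideal.span {(p : o)})).toLinearMap.comp
      (B.coord i))
  have hf : ∀ x i, f x i = Ideal.Quotient.mk (Ideal.span {(p : o)}) (B.repr x i) := fun x i => rfl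
  have hker : f.ker = LinearMap.range (mp o p M 1) := by
    ext x
    rw [LinearMap.mem_ker, LinearMap.mem_range]
    constructor
    · intro hx
      have h1 : ∀ i, ∃ c : o, B.repr x i = (p : o) * c := by
        intro i
        have := congrFun hx i
        rw [hf, Pi.zero_apply, Ideal.Quotient.eq_zero_iff_mem, Ideal.mem_span_singleton] at this
        obtain ⟨c, hc⟩ := this
        exact ⟨c, hc⟩
      choose c hc using h1
      refine ⟨∑ i, c i • B i, ?_⟩
      rw [mp_apply, pow_one, Finset.smul_sum]
      rw [← B.sum_repr x]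
      refine Finset.sum_congr rfl (fun i _ => ?_)
      rw [hc, mul_smul]
    · rintro ⟨y, rfl⟩
      funext i
      rw [hf, Pi.zero_apply, Ideal.Quotient.eq_zero_iff_mem, Ideal.mem_span_singleton, mp_apply,
        pow_one, map_smul, Finsupp.smul_apply, smul_eq_mul]
      exact dvd_mul_right _ _
  have hsurj : Function.Surjective f := by
    intro g
    choose c hc using fun i => Ideal.Quotient.mk_surjective (g i)
    refine ⟨∑ i, c i • B i, ?_⟩
    funext i
    rw [hf, B.repr_sum_self, hc]
  rw [← hker]
  have h2 : Nat.card (M ⧸ f.ker) = q ^ Module.finrank o M := by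
    rw [Nat.card_congr (f.quotKerEquivOfSurjective hsurj).toEquiv, Nat.card_fun, h.card,
      Nat.card_eq_fintype_card, Fintype.card_fin]
  exact h2

lemma index_mp_one (h : RingHyp o p q) (L : Submodule o M) :
    (L.map (mp o p M 1)).toAddSubgroup.index
      = L.toAddSubgroup.index * q ^ Module.finrank o M := by
  have hle : (L.map (mp o p M 1)).toAddSubgroup ≤ (LinearMap.range (mp o p M 1)).toAddSubgroup := by
    rintro x ⟨y, _, rfl⟩
    exact ⟨y, rfl⟩
  rw [← AddSubgroup.relIndex_mul_index hle, index_p h]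
  congr 1
  have e1 : (L.map (mp o p M 1)).toAddSubgroup = L.toAddSubgroup.map (mp o p M 1).toAddMonoidHom := by
    rfl
  have e2 : (LinearMap.range (mp o p M 1)).toAddSubgroup
      = (⊤ : AddSubgroup M).map (mp o p M 1).toAddMonoidHom := by
    ext x
    simp [AddSubgroup.mem_map]
  rw [e1, e2, AddSubgroup.relIndex_map_map_of_injective _ _ (mp_inj h 1),
    AddSubgroup.relIndex_top_right]

lemma index_mp (h : RingHyp o p q) (L : Submodule o M) (k : ℕ) :
    (L.map (mp o p M k)).toAddSubgroup.index
      = L.toAddSubgroup.index * q ^ (Module.finrank o M * k) := by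
  induction k with
  | zero =>
    have : L.map (mp o p M 0) = L := by
      ext x
      rw [mem_map_mp]
      simp
    rw [this]; simp
  | succ k ih =>
    have : L.map (mp o p M (k + 1)) = (L.map (mp o p M k)).map (mp o p M 1) := by
      rw [← Submodule.map_comp]
      congr 1
      ext x
      rw [LinearMap.comp_apply, mp_apply, mp_apply, mp_apply, smul_smul, pow_one, pow_succ']
    rw [this, index_mp_one h, ih, Nat.mul_succ, pow_add, mul_assoc]

lemma finite_mp (h : RingHyp o p q) (L : Submodule o M) (hL : Finite (M ⧸ L)) (k : ℕ) :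
    Finite (M ⧸ L.map (mp o p M k)) := by
  obtain ⟨m, hm⟩ := lat_pow_mem h L hL
  apply finite_quot_of_pow_mem h _ (m + k)
  intro x
  rw [mem_map_mp]
  exact ⟨_, hm x, by rw [smul_smul, ← pow_add, add_comm]⟩

lemma len_mp (h : RingHyp o p q) (L : Submodule o M) (hL : Finite (M ⧸ L)) (k : ℕ) :
    len q (L.map (mp o p M k)) = len q L + Module.finrank o M * k := by
  have h1 : Nat.card (M ⧸ L.map (mp o p M k)) = Nat.card (M ⧸ L) * q ^ (Module.finrank o M * k) :=
    index_mp h L k
  rw [card_quot h _ (finite_mp h L hL k), card_quot h L hL, ← pow_add] at h1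
  exact Nat.pow_right_injective h.one_lt h1

end aux

/-- The lattice `p ^ k L`. -/
noncomputable def bld (h : RingHyp o p q) {M : Type} [AddCommGroup M] [Module o M]
    [Module.Free o M] [Module.Finite o M] (z : Prim o p M × ℕ) : Lat o M :=
  ⟨z.1.1.map (mp o p M z.2), finite_mp h _ z.1.2.1 z.2⟩

lemma bld_inj_aux (h : RingHyp o p q) {M : Type} [AddCommGroup M] [Module o M]
    [Module.Free o M] {L L' : Submodule o M} {k k' : ℕ}
    (hprim : ¬ ∀ x ∈ L, ∃ y : M, x = (p : o) • y)
    (e : L.map (mp o p M k) = L'.map (mp o p M k')) : k' ≤ k := by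
  by_contra hlt
  push Not at hlt
  apply hprim
  intro x hx
  have h1 : (p : o) ^ k • x ∈ L'.map (mp o p M k') := by
    rw [← e, mem_map_mp]
    exact ⟨x, hx, rfl⟩
  rw [mem_map_mp] at h1
  obtain ⟨y, _, hy⟩ := h1
  obtain ⟨j, rfl⟩ := Nat.exists_eq_add_of_lt hlt
  refine ⟨(p : o) ^ j • y, ?_⟩
  apply smul_cancel h k
  rw [hy, smul_smul, smul_smul]
  congr 1
  ring

lemma bld_bij (h : RingHyp o p q) {M : Type} [AddCommGroup M] [Module o M]
    [Module.Free o M] [Module.Finite o M] (hpos : 0 < Module.finrank o M) :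
    Function.Bijective (bld (M := M) h) := by
  constructor
  · rintro ⟨L, k⟩ ⟨L', k'⟩ e
    have e1 : L.1.map (mp o p M k) = L'.1.map (mp o p M k') := congrArg Subtype.val e
    have hk : k = k' := le_antisymm (bld_inj_aux h L'.2.2 e1.symm) (bld_inj_aux h L.2.2 e1)
    subst hk
    have hL : L.1 = L'.1 := Submodule.map_injective_of_injective (mp_inj h k) e1
    have : L = L' := Subtype.ext hL
    rw [this]
  · rintro ⟨N, hN⟩
    obtain ⟨b, hb⟩ := exists_not_div (M := M) h hpos
    obtain ⟨n, hn⟩ := lat_pow_mem h N hN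
    have hbound : ∀ e, (∀ x ∈ N, ∃ y : M, x = (p : o) ^ e • y) → e ≤ n := by
      intro e he
      by_contra hlt
      push Not at hlt
      obtain ⟨y, hy⟩ := he _ (hn b)
      obtain ⟨j, rfl⟩ := Nat.exists_eq_add_of_lt hlt
      apply hb ((p : o) ^ j • y)
      apply smul_cancel h n
      rw [hy, smul_smul, smul_smul]
      congr 1
      ring
    classical
    have hex : ∃ e, ¬ ∀ x ∈ N, ∃ y : M, x = (p : o) ^ (e + 1) • y := by
      refine ⟨n, fun h' => ?_⟩
      have := hbound _ h'
      omega
    set e := Nat.find hex with he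
    have h1 : ¬ ∀ x ∈ N, ∃ y : M, x = (p : o) ^ (e + 1) • y := Nat.find_spec hex
    have h2 : ∀ x ∈ N, ∃ y : M, x = (p : o) ^ e • y := by
      rcases Nat.eq_zero_or_pos e with h0 | h0
      · intro x _
        exact ⟨x, by rw [h0, pow_zero, one_smul]⟩
      · obtain ⟨e', he'⟩ := Nat.exists_eq_succ_of_ne_zero h0.ne'
        have := Nat.find_min hex (m := e') (by omega)
        push Not at this
        intro x hx
        rw [he']
        exact this x hx
    let L : Submodule o M := N.comap (mp o p M e)
    have hNL : N ≤ L := fun x hx => N.smul_mem _ hx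
    have hLfin : Finite (M ⧸ L) := finite_quot_of_pow_mem h L n (fun x => hNL (hn x))
    have hLprim : ¬ ∀ x ∈ L, ∃ y : M, x = (p : o) • y := by
      intro h'
      apply h1
      intro x hx
      obtain ⟨y, rfl⟩ := h2 x hx
      obtain ⟨z, rfl⟩ := h' y hx
      exact ⟨z, by rw [smul_smul, pow_succ]⟩
    refine ⟨(⟨L, hLfin, hLprim⟩, e), ?_⟩
    apply Subtype.ext
    show L.map (mp o p M e) = N
    ext x
    rw [mem_map_mp]
    constructor
    · rintro ⟨y, hy, rfl⟩
      exact hy
    · intro hx
      obtain ⟨y, rfl⟩ := h2 x hx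
      exact ⟨y, hx, rfl⟩

end PR

open PR

/-- Every sublattice is `p ^ e` times a primitive one, uniquely. -/
theorem exists_prim_equiv (h : RingHyp o p q) {M : Type} [AddCommGroup M] [Module o M]
    [Module.Free o M] [Module.Finite o M] (hpos : 0 < Module.finrank o M) :
    ∃ e : Lat o M ≃ Prim o p M × ℕ, ∀ N : Lat o M,
      (∀ x : M, x ∈ N.1 ↔ ∃ y ∈ (e N).1.1, x = (p : o) ^ (e N).2 • y) ∧
      len q N.1 = len q (e N).1.1 + Module.finrank o M * (e N).2 := by
  refine ⟨(Equiv.ofBijective _ (bld_bij (M := M) h hpos)).symm, ?_⟩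
  intro N
  set z := (Equiv.ofBijective _ (bld_bij (M := M) h hpos)).symm N with hz
  have hN : bld h z = N := by
    rw [hz]
    exact Equiv.ofBijective_apply_symm_apply _ _ _
  rw [← hN]
  refine ⟨fun x => ?_, ?_⟩
  · exact mem_map_mp _ _ _
  · exact len_mp h _ z.1.2.1 _

theorem prim_finite (h : RingHyp o p q) {M : Type} [AddCommGroup M] [Module o M]
    [Module.Free o M] [Module.Finite o M] (n : ℕ) :
    Finite {N : Prim o p M // len q N.1 = n} := by
  have := lat_finite (M := M) h n
  refine Finite.of_injective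
    (fun N : {N : Prim o p M // len q N.1 = n} =>
      (⟨⟨N.1.1, N.1.2.1⟩, N.2⟩ : {N : Lat o M // len q N.1 = n})) ?_
  intro a b hab
  have h1 : a.1.1 = b.1.1 := congrArg (fun z => z.1.1) hab
  exact Subtype.ext (Subtype.ext h1)

theorem gf_prim (h : RingHyp o p q) {M : Type} [AddCommGroup M] [Module o M]
    [Module.Free o M] [Module.Finite o M] (hpos : 0 < Module.finrank o M) :
    gf (fun N : Prim o p M => len q N.1) *
      ∏ k ∈ Finset.range (Module.finrank o M),
        (1 - PowerSeries.C ((q : ℤ) ^ k) * PowerSeries.X) =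
      1 - PowerSeries.X ^ (Module.finrank o M) := by
  obtain ⟨e, he⟩ := exists_prim_equiv (M := M) h hpos
  have h1 : gf (fun N : Lat o M => len q N.1)
      = gf (fun N : Prim o p M => len q N.1) * gf (fun k : ℕ => Module.finrank o M * k) := by
    rw [← gf_prod _ _ (fun n => prim_finite h n) (fun n => ?_), ← gf_equiv e]
    · congr 1
      funext N
      exact (he N).2
    · apply Finite.of_injective (fun k : {k : ℕ // Module.finrank o M * k = n} =>
        (⟨k.1, Nat.lt_succ_of_le (by
          have := k.2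
          nlinarith [Nat.le_mul_of_pos_left k.1 hpos])⟩ : Fin (n + 1)))
      intro a b hab
      exact Subtype.ext (congrArg Fin.val hab)
  have h2 := gf_lat (M := M) h
  have h3 := gf_nat (Module.finrank o M) hpos
  rw [h1] at h2
  calc gf (fun N : Prim o p M => len q N.1) *
      ∏ k ∈ Finset.range (Module.finrank o M),
        (1 - PowerSeries.C ((q : ℤ) ^ k) * PowerSeries.X)
      = (gf (fun N : Prim o p M => len q N.1) *
      ∏ k ∈ Finset.range (Module.finrank o M),
        (1 - PowerSeries.C ((q : ℤ) ^ k) * PowerSeries.X)) *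
          (gf (fun k : ℕ => Module.finrank o M * k) * (1 - PowerSeries.X ^ (Module.finrank o M))) := by
        rw [h3, mul_one]
    _ = (gf (fun N : Prim o p M => len q N.1) * gf (fun k : ℕ => Module.finrank o M * k) *
      ∏ k ∈ Finset.range (Module.finrank o M),
        (1 - PowerSeries.C ((q : ℤ) ^ k) * PowerSeries.X)) *
          (1 - PowerSeries.X ^ (Module.finrank o M)) := by ring
    _ = _ := by rw [h2, one_mul]

end Pool.Agent.TZ
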