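import Pool.Agent.TZ.Defs

set_option autoImplicit false

/-! Convergence of coefficients from convergence of values. -/

namespace Pool.Agent.TZ

open Filter Topology Matrix

/-- If `∑ ρ_k(x) y(s,x)^k` converges for all `s` outside a finite set, where `y(s,x) → -s`, then
the coefficients converge, and the limit is the polynomial in `-s` with the limit coefficients. -/
theorem coeff_tendsto {K : ℕ} (ρ : Fin K → ℝ → ℝ) (y : ℝ → ℝ → ℝ) (B : ℝ → ℝ) (S : Finset ℝ)
    (l : Filter ℝ) [l.NeBot] (hy : ∀ s : ℝ, Tendsto (y s) l (𝓝 (-s)))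
    (h : ∀ s : ℝ, s ∉ S → Tendsto (fun x => ∑ k : Fin K, ρ k x * y s x ^ (k : ℕ)) l (𝓝 (B s))) :
    ∃ R : Fin K → ℝ, (∀ k, Tendsto (ρ k) l (𝓝 (R k))) ∧
      ∀ s : ℝ, s ∉ S → B s = ∑ k : Fin K, R k * (-s) ^ (k : ℕ) := by
  obtain ⟨M, hM⟩ : BddAbove (S : Set ℝ) := S.finite_toSet.bddAbove
  let s : Fin K → ℝ := fun i => M + 1 + ((i : ℕ) : ℝ)
  have hsS : ∀ i, s i ∉ S := by
    intro i hi
    have h1 := hM (Finset.mem_coe.2 hi)
    have h2 : (0 : ℝ) ≤ ((i : ℕ) : ℝ) := Nat.cast_nonneg _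
    have h3 : s i = M + 1 + ((i : ℕ) : ℝ) := rfl
    linarith
  let A : ℝ → Matrix (Fin K) (Fin K) ℝ := fun x => Matrix.vandermonde (fun i => y (s i) x)
  let A0 : Matrix (Fin K) (Fin K) ℝ := Matrix.vandermonde (fun i => -s i)
  have hA : Tendsto A l (𝓝 A0) := by
    apply tendsto_pi_nhds.2
    intro i
    apply tendsto_pi_nhds.2
    intro k
    exact (hy (s i)).pow (k : ℕ)
  have cdet : Continuous (fun X : Matrix (Fin K) (Fin K) ℝ => X.det) :=
    Continuous.matrix_det continuous_id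
  have cadj : Continuous (fun X : Matrix (Fin K) (Fin K) ℝ => X.adjugate) :=
    Continuous.matrix_adjugate continuous_id
  have hdet : Tendsto (fun x => (A x).det) l (𝓝 A0.det) := (cdet.tendsto A0).comp hA
  have hadj : Tendsto (fun x => (A x).adjugate) l (𝓝 A0.adjugate) := (cadj.tendsto A0).comp hA
  have hA0 : A0.det ≠ 0 := by
    apply Matrix.det_vandermonde_ne_zero_iff.2
    intro i j hij
    have h1 : M + 1 + ((i : ℕ) : ℝ) = M + 1 + ((j : ℕ) : ℝ) := neg_injective hij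
    have h2 : ((i : ℕ) : ℝ) = ((j : ℕ) : ℝ) := by linarith
    exact Fin.ext (by exact_mod_cast h2)
  let v : ℝ → Fin K → ℝ := fun x i => ∑ k : Fin K, ρ k x * y (s i) x ^ (k : ℕ)
  have hmul : ∀ x, A x *ᵥ (fun k => ρ k x) = v x := by
    intro x
    funext i
    show ∑ k, A x i k * ρ k x = ∑ k, ρ k x * y (s i) x ^ (k : ℕ)
    apply Finset.sum_congr rfl
    intro k _
    show y (s i) x ^ (k : ℕ) * ρ k x = _
    ring
  clear_value A A0
  have hv : Tendsto v l (𝓝 (fun i => B (s i))) := by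
    apply tendsto_pi_nhds.2
    intro i
    exact h (s i) (hsS i)
  have hadjv : ∀ x, (A x).adjugate *ᵥ v x = (A x).det • (fun k => ρ k x) := by
    intro x
    rw [← hmul, Matrix.mulVec_mulVec, Matrix.adjugate_mul, Matrix.smul_mulVec, Matrix.one_mulVec]
  have hlim : ∀ k, Tendsto (fun x => ((A x).adjugate *ᵥ v x) k) l
      (𝓝 ((A0.adjugate *ᵥ (fun i => B (s i))) k)) := by
    intro k
    have h1 : ∀ j, Tendsto (fun x => (A x).adjugate k j) l (𝓝 (A0.adjugate k j)) :=
      fun j => tendsto_pi_nhds.1 (tendsto_pi_nhds.1 hadj k) j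
    have h2 : ∀ j, Tendsto (fun x => v x j) l (𝓝 (B (s j))) := fun j => tendsto_pi_nhds.1 hv j
    simp only [Matrix.mulVec, dotProduct]
    exact tendsto_finsetSum _ (fun j _ => (h1 j).mul (h2 j))
  refine ⟨fun k => (A0.adjugate *ᵥ (fun i => B (s i))) k / A0.det, ?_, ?_⟩
  · intro k
    have h1 : Tendsto (fun x => ((A x).adjugate *ᵥ v x) k / (A x).det) l
        (𝓝 ((A0.adjugate *ᵥ (fun i => B (s i))) k / A0.det)) :=
      (hlim k).div hdet hA0
    have h2 : ∀ᶠ x in l, (A x).det ≠ 0 := hdet.eventually_ne hA0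
    apply h1.congr'
    filter_upwards [h2] with x hx
    rw [hadjv x, Pi.smul_apply, smul_eq_mul, mul_div_cancel_left₀ _ hx]
  · intro t ht
    have h1 : ∀ k : Fin K, Tendsto (ρ k) l
        (𝓝 ((A0.adjugate *ᵥ (fun i => B (s i))) k / A0.det)) := by
      intro k
      have h1 : Tendsto (fun x => ((A x).adjugate *ᵥ v x) k / (A x).det) l
          (𝓝 ((A0.adjugate *ᵥ (fun i => B (s i))) k / A0.det)) :=
        (hlim k).div hdet hA0
      have h2 : ∀ᶠ x in l, (A x).det ≠ 0 := hdet.eventually_ne hA0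
      apply h1.congr'
      filter_upwards [h2] with x hx
      rw [hadjv x, Pi.smul_apply, smul_eq_mul, mul_div_cancel_left₀ _ hx]
    have h2 : Tendsto (fun x => ∑ k : Fin K, ρ k x * y t x ^ (k : ℕ)) l
        (𝓝 (∑ k : Fin K, (A0.adjugate *ᵥ (fun i => B (s i))) k / A0.det * (-t) ^ (k : ℕ))) :=
      tendsto_finsetSum _ (fun k _ => (h1 k).mul ((hy t).pow (k : ℕ)))
    exact tendsto_nhds_unique (h t ht) h2

end Pool.Agent.TZ
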