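import Pool.Agent.TZ.Defs

set_option autoImplicit false

/-! Exponential sums: from integers to real exponents. -/

namespace Pool.Agent.TZ

/-- Evaluation of a formal combination of nonzero complex numbers at the exponent `f`. -/
noncomputable def evf (f : ℕ) : MonoidAlgebra ℂ ℂˣ →ₐ[ℂ] ℂ :=
  MonoidAlgebra.lift ℂ _ _
    { toFun := fun β => (β : ℂ) ^ f
      map_one' := by simp
      map_mul' := fun a b => by simp [mul_pow] }

/-- Evaluation of absolute values at a real exponent. -/
noncomputable def evr (x : ℝ) : MonoidAlgebra ℂ ℂˣ →ₐ[ℂ] ℂ :=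
  MonoidAlgebra.lift ℂ _ _
    { toFun := fun β => ((‖(β : ℂ)‖ ^ x : ℝ) : ℂ)
      map_one' := by simp
      map_mul' := fun a b => by
        rw [Units.val_mul, norm_mul, Real.mul_rpow (norm_nonneg _) (norm_nonneg _)]
        push_cast
        rfl }

/-- Linear independence of exponentials. -/
theorem evf_injective (x : MonoidAlgebra ℂ ℂˣ) (h : ∀ f : ℕ, 1 ≤ f → evf f x = 0) : x = 0 := by
  classical
  let χ : ℂˣ → (Multiplicative ℕ →* ℂ) := fun β => powersHom ℂ (β : ℂ)
  have hχ : Function.Injective χ := by
    intro a b hab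
    have := DFunLike.congr_fun hab (Multiplicative.ofAdd 1)
    simpa [χ, powersHom_apply, Units.ext_iff] using this
  have hli := (linearIndependent_monoidHom (Multiplicative ℕ) ℂ).comp χ hχ
  have hli' := linearIndependent_iff'.mp hli
  have hsum : ∀ f : ℕ, evf f x = ∑ β ∈ x.coeff.support, x.coeff β * (β : ℂ) ^ f := by
    intro f
    rw [evf, MonoidAlgebra.lift_apply, Finsupp.sum]
    simp
  have key := hli' x.coeff.support (fun β => x.coeff β * (β : ℂ)) (by
    funext n
    have h1 := h (n.toAdd + 1) (by omega)
    rw [hsum] at h1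
    simp only [Finset.sum_apply, Pi.smul_apply, Function.comp_apply, Pi.zero_apply, smul_eq_mul]
    rw [← h1]
    apply Finset.sum_congr rfl
    intro β _
    simp only [χ, powersHom_apply]
    ring)
  ext β
  by_cases hβ : β ∈ x.coeff.support
  · have := key β hβ
    rcases mul_eq_zero.mp this with h0 | h0
    · simpa using h0
    · exact absurd h0 β.ne_zero
  · simpa using hβ

/-- Identities valid for all positive integers transfer to real exponents. -/
theorem evr_eq_of_evf_eq (x y : MonoidAlgebra ℂ ℂˣ) (h : ∀ f : ℕ, 1 ≤ f → evf f x = evf f y)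
    (s : ℝ) : evr s x = evr s y := by
  have := evf_injective (x - y) (fun f hf => by rw [map_sub, h f hf, sub_self])
  rw [sub_eq_zero.mp this]

end Pool.Agent.TZ
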