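import Mathlib

set_option autoImplicit false

/-!
Definitions for the topological graded ideal zeta function of the free nilpotent Lie ring.
-/

namespace Pool.Agent.TZ

/-- `lieDeg R d n` is the homogeneous component of degree `n + 1` of the free Lie algebra over `R`
on `d` generators: it is spanned by the left normed brackets of `n + 1` generators. -/
noncomputable def lieDeg (R : Type) [CommRing R] (d : ℕ) :
    ℕ → Submodule R (FreeLieAlgebra R (Fin d))
  | 0 => Submodule.span R (Set.range (FreeLieAlgebra.of R))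
  | n + 1 => Submodule.span R
      {z | ∃ x ∈ lieDeg R d n, ∃ j : Fin d, z = ⁅x, FreeLieAlgebra.of R j⁆}

/-- A graded ideal of the free nilpotent Lie algebra of class `c` on `d` generators over `R`, which
is the direct sum of the components of degrees `1, ..., c` (here numbered `0, ..., c - 1`) of the
free Lie algebra, brackets of total degree larger than `c` being zero. It is given by its
homogeneous parts. -/
structure GradedIdeal (R : Type) [CommRing R] (c d : ℕ) where
  part : Fin c → Submodule R (FreeLieAlgebra R (Fin d))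
  le_deg : ∀ i, part i ≤ lieDeg R d i
  bracket_mem : ∀ i j k : Fin c, (k : ℕ) = i + j + 1 →
    ∀ x ∈ part i, ∀ y ∈ lieDeg R d j, ⁅x, y⁆ ∈ part k

/-- The index of a graded ideal in the free nilpotent Lie algebra (`0` if it is infinite): the
product of the indices of the homogeneous parts. -/
noncomputable def GradedIdeal.index {R : Type} [CommRing R] {c d : ℕ}
    (I : GradedIdeal R c d) : ℕ :=
  ∏ i : Fin c, (I.part i).toAddSubgroup.relIndex (lieDeg R d i).toAddSubgroup

/-- The unramified extension of degree `f` of the ring of `p`-adic integers. -/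
abbrev Unram (p f : ℕ) [Fact p.Prime] : Type := WittVector p (GaloisField p f)

/-- The number of graded ideals of index `q ^ n`, `q = p ^ f`, of the free nilpotent Lie algebra of
class `c` on `d` generators over the unramified extension of degree `f` of the `p`-adic
integers. -/
noncomputable def idealCount (c d p f : ℕ) [Fact p.Prime] (n : ℕ) : ℕ :=
  Nat.card {I : GradedIdeal (Unram p f) c d // I.index = (p ^ f) ^ n}

/-- The Witt function `W(i) = (1/i) ∑_{k ∣ i} μ(k) d^{i/k}`. -/
def wittFn (d i : ℕ) : ℕ :=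
  (∑ k ∈ Nat.divisors i, ArithmeticFunction.moebius k * (d : ℤ) ^ (i / k)).toNat / i

/-- `R_i = W(1) + ... + W(i)`. -/
def wittSum (d i : ℕ) : ℕ := ∑ k ∈ Finset.Icc 1 i, wittFn d k

/-- A Laurent polynomial in `X, Y`, as a list of monomials `a X^m Y^n` given by `(a, m, n)`. -/
abbrev LPoly : Type := List (ℚ × ℤ × ℤ)

/-- The value of a Laurent polynomial at `(x, y)`. -/
noncomputable def LPoly.eval (P : LPoly) (x y : ℝ) : ℝ :=
  (P.map fun t => (t.1 : ℝ) * x ^ t.2.1 * y ^ t.2.2).sum

/-- The value at `(x, y)` of the product of the factors `1 - X^a Y^b`. -/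
noncomputable def denEval (D : List (ℤ × ℕ)) (x y : ℝ) : ℝ :=
  (D.map fun t => 1 - x ^ t.1 * y ^ t.2).prod

/-- The function `e` (of a prime `p` and a degree `f`) behaves like the numbers of points over the
fields with `p ^ f` elements of a variety over the rationals with Euler characteristic `χ`: for
almost all `p` it is a sum of `f`-th powers of nonzero complex numbers with integer multiplicities
whose sum is `χ` (trace formula). -/
def IsPointCount (e : ℕ → ℕ → ℤ) (χ : ℤ) : Prop :=
  ∃ B : ℕ, ∀ p : ℕ, p.Prime → B ≤ p → ∃ (n : ℕ) (m : Fin n → ℤ) (α : Fin n → ℂ),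
    (∀ j, α j ≠ 0) ∧ ∑ j, m j = χ ∧ ∀ f : ℕ, 1 ≤ f → (e p f : ℂ) = ∑ j, (m j : ℂ) * α j ^ f

/-- A Denef type formula for the local graded ideal zeta functions of the free nilpotent Lie ring
of class `c` on `d` generators: rational functions `W_i = P_i / ∏ (1 - X^a Y^b)` (with a common
denominator) and point counts `e_i` with Euler characteristics `χ_i` such that for almost all `p`
and all `f`, with `q = p ^ f`, the zeta function `∑ (number of graded ideals of index q ^ n)
q^{-ns}` equals `∑ e_i(p, f) W_i(q, q^{-s})` for all large real `s`. -/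
structure DenefFormula (c d : ℕ) where
  N : ℕ
  num : Fin N → LPoly
  den : List (ℤ × ℕ)
  den_ne : ∀ t ∈ den, t ≠ (0, 0)
  e : Fin N → ℕ → ℕ → ℤ
  χ : Fin N → ℤ
  count : ∀ i, IsPointCount (e i) (χ i)
  formula : ∃ B : ℕ, ∀ (p : ℕ) [Fact p.Prime], B ≤ p → ∀ f : ℕ, 1 ≤ f →
    ∀ᶠ s : ℝ in Filter.atTop,
      HasSum (fun n : ℕ => (idealCount c d p f n : ℝ) * (((p ^ f : ℕ) : ℝ) ^ (-s)) ^ n)
        (∑ i, (e i p f : ℝ) * (num i).eval ((p ^ f : ℕ) : ℝ) (((p ^ f : ℕ) : ℝ) ^ (-s)) /
          denEval den ((p ^ f : ℕ) : ℝ) (((p ^ f : ℕ) : ℝ) ^ (-s)))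

/-- `z` is the topological zeta function attached to the Denef type formula `F`, with `r` the rank
of the Lie ring: away from finitely many `s`, every `(1 - X⁻¹) ^ r W_i(X, X^{-s})` has a limit
`w_i(s)` as `X → 1`, and `z(s) = ∑ χ_i w_i(s)`. -/
def DenefFormula.IsTopological {c d : ℕ} (F : DenefFormula c d) (r : ℕ) (z : ℝ → ℝ) : Prop :=
  ∃ (S : Finset ℝ) (w : Fin F.N → ℝ → ℝ), ∀ s : ℝ, s ∉ S →
    (∀ i, Filter.Tendsto
      (fun x : ℝ => (1 - x⁻¹) ^ r * ((F.num i).eval x (x ^ (-s)) / denEval F.den x (x ^ (-s))))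
      (nhdsWithin 1 (Set.Ioi 1)) (nhds (w i s))) ∧
    z s = ∑ i, (F.χ i : ℝ) * w i s

/-- The value of the leading coefficient. -/
noncomputable def leadingValue (c d : ℕ) : ℝ :=
  (-1) ^ (wittSum d c - c) *
    ∏ i ∈ Finset.Icc 1 c, (wittFn d i : ℝ) / ((wittSum d i : ℝ) * ((wittFn d i - 1).factorial : ℝ))

end Pool.Agent.TZ
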