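import Pool.Agent.TZ.LieDefs

set_option autoImplicit false

/-! The Dynkin operator on the free Lie algebra. -/

namespace Pool.Agent.TZ

attribute [local instance 100] LieRing.ofAssociativeRing

variable {o : Type} [CommRing o] {d : ℕ}

theorem theta_of (j : Fin d) : theta o d (FreeLieAlgebra.of o j) = letter o d j := by
  unfold theta
  exact FreeLieAlgebra.lift_of_apply _ _

theorem theta_lie (x y : FreeLieAlgebra o (Fin d)) :
    theta o d ⁅x, y⁆ = theta o d x * theta o d y - theta o d y * theta o d x := by
  rw [LieHom.map_lie, LieRing.of_associative_ring_bracket]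

/-- `x ↦ op (rbr x)` as a Lie homomorphism. -/
noncomputable def opRbr (o : Type) [CommRing o] (d : ℕ) :
    FreeLieAlgebra o (Fin d) →ₗ⁅o⁆ (Module.End o (FreeLieAlgebra o (Fin d)))ᵐᵒᵖ where
  toFun x := MulOpposite.op (rbr o d x)
  map_add' x y := by
    rw [← MulOpposite.op_add]
    congr 1
    ext z
    simp [rbr]
  map_smul' a x := by
    rw [RingHom.id_apply, ← MulOpposite.op_smul]
    congr 1
    ext z
    simp [rbr]
  map_lie' := by
    intro x y
    rw [LieRing.of_associative_ring_bracket, ← MulOpposite.op_mul, ← MulOpposite.op_mul,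
      ← MulOpposite.op_sub]
    congr 1
    ext z
    simp only [rbr, LinearMap.coe_mk, AddHom.coe_mk, LinearMap.sub_apply, Module.End.mul_apply]
    rw [leibniz_lie z x y, sub_eq_add_neg, lie_skew]

theorem Phi_letter (j : Fin d) : Phi o d (letter o d j) =
    MulOpposite.op (rbr o d (FreeLieAlgebra.of o j)) := by
  unfold Phi letter
  rw [MonoidAlgebra.lift_single]
  simp

/-- The right action of `theta x` is the right bracket with `x`. -/
theorem Phi_theta (x : FreeLieAlgebra o (Fin d)) :
    Phi o d (theta o d x) = MulOpposite.op (rbr o d x) := by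
  have h : ((Phi o d).toLieHom).comp (theta o d) = opRbr o d := by
    apply FreeLieAlgebra.hom_ext
    intro j
    show Phi o d (theta o d (FreeLieAlgebra.of o j)) =
      MulOpposite.op (rbr o d (FreeLieAlgebra.of o j))
    rw [theta_of, Phi_letter]
  exact LieHom.congr_fun h x

theorem Dyn_single (w : FreeMonoid (Fin d)) (a : o) :
    Dyn o d (MonoidAlgebra.single w a) = a • wordBr o d w := by
  unfold Dyn
  simp [MonoidAlgebra.coeffLinearEquiv]

theorem wordBr_one : wordBr o d 1 = 0 := rfl

theorem wordBr_cons (j : Fin d) (w : FreeMonoid (Fin d)) :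
    wordBr o d (FreeMonoid.of j * w) =
      MulOpposite.unop (Phi o d (MonoidAlgebra.single w 1)) (FreeLieAlgebra.of o j) := rfl

theorem single_eq_smul (w : FreeMonoid (Fin d)) (a : o) :
    (MonoidAlgebra.single w a : TA o d) = a • MonoidAlgebra.single w 1 := by
  rw [MonoidAlgebra.smul_single, smul_eq_mul, mul_one]

theorem of_mul_ne_one (j : Fin d) (w : FreeMonoid (Fin d)) :
    (FreeMonoid.of j * w : FreeMonoid (Fin d)) ≠ 1 := by
  intro h
  have := congrArg FreeMonoid.length h
  simp at this

theorem Dyn_mul_gen (u v : TA o d) :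
    Dyn o d (u * v) = MulOpposite.unop (Phi o d v) (Dyn o d u) + u.coeff 1 • Dyn o d v := by
  induction u using MonoidAlgebra.induction_linear with
  | zero => simp
  | add x y hx hy =>
    rw [add_mul, map_add, hx, hy, map_add, map_add, MonoidAlgebra.coeff_add, Finsupp.add_apply,
      add_smul]
    abel
  | single w a =>
    induction v using MonoidAlgebra.induction_linear with
    | zero => simp
    | add x y hx hy =>
      rw [mul_add, map_add, hx, hy, map_add, map_add, MulOpposite.unop_add, LinearMap.add_apply,
        smul_add]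
      abel
    | single w' b =>
      rw [MonoidAlgebra.single_mul_single, Dyn_single, Dyn_single, Dyn_single]
      induction w using FreeMonoid.casesOn with
      | one =>
        rw [wordBr_one, one_mul, MonoidAlgebra.coeff_single, Finsupp.single_eq_same]
        simp [mul_smul]
      | of_mul j w =>
        rw [mul_assoc, wordBr_cons, wordBr_cons, MonoidAlgebra.coeff_single,
          Finsupp.single_eq_of_ne (of_mul_ne_one j w).symm, zero_smul, add_zero]
        have h2 : (MonoidAlgebra.single (w * w') (1 : o) : TA o d) =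
          MonoidAlgebra.single w 1 * MonoidAlgebra.single w' 1 := by
          rw [MonoidAlgebra.single_mul_single, one_mul]
        rw [h2, map_mul, MulOpposite.unop_mul, Module.End.mul_apply, single_eq_smul w' b,
          map_smul (Phi o d), MulOpposite.unop_smul, LinearMap.smul_apply, map_smul,
          mul_comm a b, mul_smul, smul_comm]

/-- `Dyn (u v) = Dyn u ◁ v` when `u` has no constant term. -/
theorem Dyn_mul (u v : TA o d) (hu : u.coeff 1 = 0) :
    Dyn o d (u * v) = MulOpposite.unop (Phi o d v) (Dyn o d u) := by
  rw [Dyn_mul_gen, hu, zero_smul, add_zero]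

theorem Dyn_letter (j : Fin d) : Dyn o d (letter o d j) = FreeLieAlgebra.of o j := by
  unfold letter
  rw [Dyn_single, one_smul]
  have : (FreeMonoid.of j : FreeMonoid (Fin d)) = FreeMonoid.of j * 1 := (mul_one _).symm
  rw [this, wordBr_cons, ← MonoidAlgebra.one_def, map_one]
  simp

theorem letter_coeff (j : Fin d) (w : FreeMonoid (Fin d)) (hw : FreeMonoid.length w ≠ 1) :
    (letter o d j).coeff w = 0 := by
  unfold letter
  rw [MonoidAlgebra.coeff_single, Finsupp.single_eq_of_ne]
  intro h
  apply hw
  rw [h, FreeMonoid.length_of]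

theorem Dyn_letter_mul (j : Fin d) (v : TA o d) :
    Dyn o d (letter o d j * v) = MulOpposite.unop (Phi o d v) (FreeLieAlgebra.of o j) := by
  rw [Dyn_mul _ _ (letter_coeff j 1 (by simp)), Dyn_letter]

theorem hom_mul (u v : TA o d) (m n : ℕ)
    (hu : ∀ w, FreeMonoid.length w ≠ m → u.coeff w = 0)
    (hv : ∀ w, FreeMonoid.length w ≠ n → v.coeff w = 0)
    (w : FreeMonoid (Fin d)) (hw : FreeMonoid.length w ≠ m + n) : (u * v).coeff w = 0 := by
  classical
  rw [MonoidAlgebra.coeff_mul]
  apply Finset.sum_eq_zero
  intro a _
  apply Finset.sum_eq_zero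
  intro b _
  show (if a * b = w then u.coeff a * v.coeff b else 0) = 0
  split_ifs with h
  · by_cases ha : FreeMonoid.length a = m
    · have hb : FreeMonoid.length b ≠ n := by
        intro hb
        apply hw
        rw [← h, FreeMonoid.length_mul, ha, hb]
      rw [hv b hb, mul_zero]
    · rw [hu a ha, zero_mul]
  · rfl

/-- Elements of degree `i + 1` are combinations of words of length `i + 1`. -/
theorem theta_coeff_eq_zero (i : ℕ) (x : FreeLieAlgebra o (Fin d)) (hx : x ∈ lieDeg o d i)
    (w : FreeMonoid (Fin d)) (hw : FreeMonoid.length w ≠ i + 1) : (theta o d x).coeff w = 0 := by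
  induction i generalizing x w with
  | zero =>
    rw [lieDeg] at hx
    induction hx using Submodule.span_induction with
    | mem y hy =>
      obtain ⟨j, rfl⟩ := hy
      rw [theta_of]
      exact letter_coeff j w hw
    | zero => simp
    | add y z _ _ hy hz => rw [map_add, MonoidAlgebra.coeff_add, Finsupp.add_apply, hy, hz, add_zero]
    | smul a y _ hy =>
      rw [map_smul, MonoidAlgebra.coeff_smul_apply, hy, smul_zero]
  | succ i ih =>
    rw [lieDeg] at hx
    induction hx using Submodule.span_induction with
    | mem y hy =>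
      obtain ⟨y, hy, j, rfl⟩ := hy
      rw [theta_lie, theta_of, MonoidAlgebra.coeff_sub, Finsupp.sub_apply]
      rw [hom_mul _ _ (i + 1) 1 (fun w hw => ih y hy w hw) (fun w hw => letter_coeff j w hw) w hw,
        hom_mul _ _ 1 (i + 1) (fun w hw => letter_coeff j w hw) (fun w hw => ih y hy w hw) w
          (by omega), sub_zero]
    | zero => simp
    | add y z _ _ hy hz => rw [map_add, MonoidAlgebra.coeff_add, Finsupp.add_apply, hy, hz, add_zero]
    | smul a y _ hy =>
      rw [map_smul, MonoidAlgebra.coeff_smul_apply, hy, smul_zero]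

/-- Dynkin - Specht - Wever. -/
theorem Dyn_theta (i : ℕ) (x : FreeLieAlgebra o (Fin d)) (hx : x ∈ lieDeg o d i) :
    Dyn o d (theta o d x) = ((i + 1 : ℕ) : o) • x := by
  induction i generalizing x with
  | zero =>
    rw [lieDeg] at hx
    induction hx using Submodule.span_induction with
    | mem y hy =>
      obtain ⟨j, rfl⟩ := hy
      rw [theta_of, Dyn_letter]
      simp
    | zero => simp
    | add y z _ _ hy hz => rw [map_add, map_add, hy, hz, smul_add]
    | smul a y _ hy =>
      rw [map_smul, map_smul, hy, smul_comm]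
  | succ i ih =>
    rw [lieDeg] at hx
    induction hx using Submodule.span_induction with
    | mem y hy =>
      obtain ⟨y, hy, j, rfl⟩ := hy
      rw [theta_lie, theta_of, map_sub, Dyn_letter_mul, Dyn_mul _ _
        (theta_coeff_eq_zero i y hy 1 (by simp)), ih y hy, Phi_letter, Phi_theta,
        MulOpposite.unop_op, MulOpposite.unop_op]
      simp only [rbr, LinearMap.coe_mk, AddHom.coe_mk]
      rw [smul_lie, ← lie_skew (FreeLieAlgebra.of o j) y, sub_neg_eq_add]
      rw [Nat.cast_add (i + 1) 1, add_smul, Nat.cast_one, one_smul]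
    | zero => simp
    | add y z _ _ hy hz => rw [map_add, map_add, hy, hz, smul_add]
    | smul a y _ hy =>
      rw [map_smul, map_smul, hy, smul_comm]

theorem Phi_mem (w : FreeMonoid (Fin d)) (i : ℕ) (x : FreeLieAlgebra o (Fin d))
    (hx : x ∈ lieDeg o d i) :
    MulOpposite.unop (Phi o d (MonoidAlgebra.single w 1)) x ∈
      lieDeg o d (i + FreeMonoid.length w) := by
  induction w using FreeMonoid.inductionOn' generalizing i x with
  | one =>
    rw [← MonoidAlgebra.one_def, map_one]
    simpa using hx
  | of_mul j w ih =>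
    have h2 : (MonoidAlgebra.single (FreeMonoid.of j * w) (1 : o) : TA o d) =
        letter o d j * MonoidAlgebra.single w 1 := by
      unfold letter
      rw [MonoidAlgebra.single_mul_single, one_mul]
    rw [h2, map_mul, MulOpposite.unop_mul, Module.End.mul_apply, Phi_letter, MulOpposite.unop_op,
      FreeMonoid.length_mul, FreeMonoid.length_of, ← add_assoc]
    apply ih
    rw [lieDeg]
    exact Submodule.subset_span ⟨x, hx, j, rfl⟩

theorem wordBr_mem (w : FreeMonoid (Fin d)) (i : ℕ) (hw : FreeMonoid.length w = i + 1) :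
    wordBr o d w ∈ lieDeg o d i := by
  induction w using FreeMonoid.casesOn with
  | one => simp at hw
  | of_mul j w =>
    rw [wordBr_cons]
    have h : FreeMonoid.length w = i := by
      rw [FreeMonoid.length_mul, FreeMonoid.length_of] at hw
      omega
    have h2 := Phi_mem (o := o) w 0 (FreeLieAlgebra.of o j)
      (by rw [lieDeg]; exact Submodule.subset_span ⟨j, rfl⟩)
    rwa [h, zero_add] at h2

/-- Brackets of homogeneous elements are homogeneous. -/
theorem lie_mem_lieDeg (i j : ℕ) (x y : FreeLieAlgebra o (Fin d)) (hx : x ∈ lieDeg o d i)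
    (hy : y ∈ lieDeg o d j) : ⁅x, y⁆ ∈ lieDeg o d (i + j + 1) := by
  have h1 : ⁅x, y⁆ = MulOpposite.unop (Phi o d (theta o d y)) x := by
    rw [Phi_theta, MulOpposite.unop_op]
    rfl
  rw [h1, ← MonoidAlgebra.sum_coeff_single (theta o d y), Finsupp.sum, map_sum,
    Finset.unop_sum, LinearMap.sum_apply]
  apply Submodule.sum_mem
  intro w hw
  rw [single_eq_smul, map_smul, MulOpposite.unop_smul, LinearMap.smul_apply]
  apply Submodule.smul_mem
  have h2 : FreeMonoid.length w = j + 1 := by
    by_contra h
    rw [Finsupp.mem_support_iff] at hw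
    exact hw (theta_coeff_eq_zero j y hy w h)
  have h3 := Phi_mem (o := o) w i x hx
  rwa [h2, ← add_assoc] at h3

end Pool.Agent.TZ
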