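import Pool.Agent.TZ.LA

set_option autoImplicit false

/-! Coordinates of Lie elements: retraction, divisibility, centralisers. -/

namespace Pool.Agent.TZ

attribute [local instance 100] LieRing.ofAssociativeRing

variable {o : Type} [CommRing o] {d : ℕ}

/-- The left normed bracket of the word `w`, as an element of degree `i + 1`. -/
noncomputable def wbr (o : Type) [CommRing o] {d : ℕ} (i : ℕ) (w : Fin (i + 1) → Fin d) :
    LM o d i :=
  ⟨wordBr o d (FreeMonoid.ofList (List.ofFn w)), wordBr_mem _ i (by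
    show (List.ofFn w).length = i + 1
    exact List.length_ofFn)⟩

/-- The map from functions on words to Lie elements. -/
noncomputable def dyn (o : Type) [CommRing o] (d : ℕ) (i : ℕ) :
    ((Fin (i + 1) → Fin d) → o) →ₗ[o] LM o d i where
  toFun z := ∑ w, z w • wbr o i w
  map_add' x y := by simp [add_smul, Finset.sum_add_distrib]
  map_smul' a x := by simp [mul_smul, Finset.smul_sum]

/-- Words of length `n` as elements of the free monoid. -/
def wrd {d : ℕ} (n : ℕ) : (Fin n → Fin d) ↪ FreeMonoid (Fin d) where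
  toFun w := FreeMonoid.ofList (List.ofFn w)
  inj' _ _ h := List.ofFn_injective (FreeMonoid.ofList.injective h)

theorem Dyn_eq_sum (i : ℕ) (u : TA o d)
    (hu : ∀ w, FreeMonoid.length w ≠ i + 1 → u.coeff w = 0) :
    Dyn o d u = ∑ w : Fin (i + 1) → Fin d, u.coeff (FreeMonoid.ofList (List.ofFn w)) •
      wordBr o d (FreeMonoid.ofList (List.ofFn w)) := by
  have h1 : Dyn o d u = u.coeff.sum fun w a => a • wordBr o d w := by
    conv_lhs => rw [← MonoidAlgebra.sum_coeff_single u]
    rw [Finsupp.sum, map_sum]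
    apply Finset.sum_congr rfl
    intro w _
    rw [Dyn_single]
  rw [h1, Finsupp.sum_of_support_subset (s := Finset.univ.map (wrd (i + 1)))]
  · rw [Finset.sum_map]
    rfl
  · intro w hw
    rw [Finset.mem_map]
    have hl : FreeMonoid.length w = i + 1 := by
      by_contra h
      rw [Finsupp.mem_support_iff] at hw
      exact hw (hu w h)
    have hl2 : w.toList.length = i + 1 := hl
    refine ⟨fun k => w.toList.get (k.cast hl2.symm), Finset.mem_univ _, ?_⟩
    show FreeMonoid.ofList (List.ofFn fun k : Fin (i + 1) => w.toList.get (k.cast hl2.symm)) = w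
    have h3 : (List.ofFn fun k : Fin (i + 1) => w.toList.get (k.cast hl2.symm)) = w.toList := by
      apply List.ext_get
      · simp [hl2]
      · intro n h1 h2
        rw [List.get_eq_getElem, List.get_eq_getElem, List.getElem_ofFn]
        rfl
    rw [h3]
    rfl
  · intro w _
    exact zero_smul _ _

theorem dyn_ev (i : ℕ) (x : LM o d i) : dyn o d i (ev o d i x) = ((i + 1 : ℕ) : o) • x := by
  apply Subtype.ext
  have h := Dyn_eq_sum i (theta o d (x : FreeLieAlgebra o (Fin d)))
    (fun w hw => theta_coeff_eq_zero i (x : FreeLieAlgebra o (Fin d)) x.2 w hw)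
  rw [Dyn_theta i (x : FreeLieAlgebra o (Fin d)) x.2] at h
  rw [Submodule.coe_smul, h]
  show ((∑ w, ev o d i x w • wbr o i w : LM o d i) : FreeLieAlgebra o (Fin d)) = _
  rw [Submodule.coe_sum]
  rfl

theorem coeff_mul_letter (u : TA o d) (w : FreeMonoid (Fin d)) (j k : Fin d) :
    (u * letter o d j).coeff (w * FreeMonoid.of k) = if k = j then u.coeff w else 0 := by
  unfold letter
  split_ifs with h
  · subst h
    rw [MonoidAlgebra.coeff_mul_single_eq_coeff_mul (m₂ := w), mul_one]
    intro m' _
    exact mul_left_inj _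
  · apply MonoidAlgebra.coeff_mul_single_of_forall_mul_ne
    intro x hx
    have := congrArg (fun z => z.toList.getLast?) hx
    simp [FreeMonoid.toList_mul] at this
    exact h this.symm

theorem coeff_letter_mul (u : TA o d) (w : FreeMonoid (Fin d)) (j k : Fin d) :
    (letter o d j * u).coeff (FreeMonoid.of k * w) = if k = j then u.coeff w else 0 := by
  unfold letter
  split_ifs with h
  · subst h
    rw [MonoidAlgebra.coeff_single_mul_eq_mul_coeff (m₂ := w), one_mul]
    intro m' _
    exact mul_right_inj _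
  · apply MonoidAlgebra.coeff_single_mul_of_forall_mul_ne
    intro x hx
    have := congrArg (fun z => z.toList.head?) hx
    simp [FreeMonoid.toList_mul] at this
    exact h this.symm

theorem ev_adL (i : ℕ) (j : Fin d) (x : LM o d i) (w : Fin (i + 2) → Fin d) :
    ev o d (i + 1) (adL o d i j x) w =
      (if w (Fin.last (i + 1)) = j then ev o d i x (Fin.init w) else 0) -
        (if w 0 = j then ev o d i x (Fin.tail w) else 0) := by
  show (theta o d ⁅(x : FreeLieAlgebra o (Fin d)), FreeLieAlgebra.of o j⁆).coeff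
    (FreeMonoid.ofList (List.ofFn w)) = _
  rw [theta_lie, theta_of, MonoidAlgebra.coeff_sub, Finsupp.sub_apply]
  congr 1
  · have h1 : (FreeMonoid.ofList (List.ofFn w) : FreeMonoid (Fin d)) =
        FreeMonoid.ofList (List.ofFn (Fin.init w)) * FreeMonoid.of (w (Fin.last (i + 1))) := by
      rw [List.ofFn_succ']
      simp only [List.concat_eq_append]
      rfl
    rw [h1, coeff_mul_letter]
    rfl
  · have h1 : (FreeMonoid.ofList (List.ofFn w) : FreeMonoid (Fin d)) =
        FreeMonoid.of (w 0) * FreeMonoid.ofList (List.ofFn (Fin.tail w)) := by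
      rw [List.ofFn_succ]
      rfl
    rw [h1, coeff_letter_mul]
    rfl

/-- Divisibility by `a` can be read off the coordinates. -/
theorem exists_smul_of_ev (i : ℕ) (hi : IsUnit ((i + 1 : ℕ) : o)) (a : o) (x : LM o d i)
    (h : ∀ w, ∃ b, ev o d i x w = a * b) : ∃ y : LM o d i, x = a • y := by
  choose b hb using h
  obtain ⟨u, hu⟩ := hi
  have h1 : ev o d i x = a • b := by
    funext w
    rw [hb w]
    rfl
  have h2 := dyn_ev i x
  rw [h1, map_smul, ← hu] at h2
  refine ⟨((u⁻¹ : oˣ) : o) • dyn o d i b, ?_⟩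
  rw [smul_comm, h2, smul_smul, Units.inv_mul, one_smul]

theorem ev_injective (i : ℕ) (hi : IsUnit ((i + 1 : ℕ) : o)) :
    Function.Injective (ev o d i) := by
  intro x y h
  have h2 := dyn_ev i x
  rw [h, dyn_ev i y] at h2
  exact (hi.smul_left_cancel.mp h2).symm

/-- The centraliser property modulo `a`. -/
theorem cent_lie (hd : 2 ≤ d) (i : ℕ) (hi : IsUnit ((i + 1 : ℕ) : o)) (a : o) (x : LM o d i)
    (h : ∀ j, ∃ y : LM o d (i + 1), adL o d i j x = a • y) : ∃ y : LM o d i, x = a • y := by
  apply exists_smul_of_ev i hi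
  intro w
  obtain ⟨j, hj⟩ : ∃ j : Fin d, j ≠ w 0 := by
    have : Nontrivial (Fin d) := Fin.nontrivial_iff_two_le.mpr hd
    exact exists_ne (w 0)
  obtain ⟨y, hy⟩ := h j
  refine ⟨ev o d (i + 1) y (Fin.snoc w j : Fin (i + 2) → Fin d), ?_⟩
  have h1 := ev_adL i j x (Fin.snoc w j : Fin (i + 2) → Fin d)
  have h0 : (Fin.snoc w j : Fin (i + 2) → Fin d) 0 = w 0 := by
    have : (0 : Fin (i + 2)) = Fin.castSucc (0 : Fin (i + 1)) := rfl
    rw [this, Fin.snoc_castSucc (α := fun _ => Fin d)]
  rw [h0, if_neg (Ne.symm hj), Fin.snoc_last (α := fun _ => Fin d), if_pos rfl,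
    Fin.init_snoc (α := fun _ => Fin d), sub_zero, hy, map_smul] at h1
  rw [← h1]
  rfl

theorem br_adL (i : ℕ) : br (adL o d i) ⊤ = ⊤ := by
  rw [eq_top_iff]
  have key : lieDeg o d (i + 1) ≤ (br (adL o d i) ⊤).map (lieDeg o d (i + 1)).subtype := by
    conv_lhs => rw [lieDeg]
    rw [Submodule.span_le]
    rintro z ⟨x, hx, j, rfl⟩
    refine ⟨adL o d i j ⟨x, hx⟩, ?_, rfl⟩
    unfold br
    apply Submodule.mem_iSup_of_mem j
    exact Submodule.mem_map_of_mem Submodule.mem_top
  rintro ⟨y, hy⟩ _
  obtain ⟨z, hz, hzy⟩ := key hy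
  have : z = ⟨y, hy⟩ := Subtype.ext hzy
  rw [← this]
  exact hz

end Pool.Agent.TZ
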