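import Pool.Agent.TZ.LG

set_option autoImplicit false

/-! Irreducibility of the components of degrees 1, 2, 3. -/

namespace Pool.Agent.TZ

section tools

variable {o : Type} [CommRing o] {d : ℕ}

/-- Kronecker symbol. -/
def liD (o : Type) [CommRing o] {d : ℕ} (a b : Fin d) : o := if a = b then 1 else 0

/-- Matrix units. -/
def liE (o : Type) [CommRing o] {d : ℕ} (a w : Fin d) : Matrix (Fin d) (Fin d) o :=
  Matrix.of fun v u => liD o v a * liD o u w

theorem liE_apply (a w v u : Fin d) : liE o a w v u = liD o v a * liD o u w := rfl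

/-- Generators. -/
noncomputable def liG1 (o : Type) [CommRing o] {d : ℕ} (a : Fin d) : LM o d 0 :=
  ⟨FreeLieAlgebra.of o a, of_mem_lieDeg a⟩

/-- Brackets of two generators. -/
noncomputable def liG2 (o : Type) [CommRing o] {d : ℕ} (a b : Fin d) : LM o d 1 :=
  adL o d 0 b (liG1 o a)

/-- Brackets of three generators. -/
noncomputable def liG3 (o : Type) [CommRing o] {d : ℕ} (a b c : Fin d) : LM o d 2 :=
  adL o d 1 c (liG2 o a b)

theorem ev_liG1 (a : Fin d) (w : Fin 1 → Fin d) : ev o d 0 (liG1 o a) w = liD o (w 0) a :=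
  ev_of a w

theorem ite_liD (a b : Fin d) (x : o) : (if a = b then x else 0) = liD o a b * x := by
  unfold liD
  split_ifs <;> simp

theorem ev_liG2 (a b : Fin d) (w : Fin 2 → Fin d) : ev o d 1 (liG2 o a b) w =
    liD o (w 1) b * liD o (w 0) a - liD o (w 0) b * liD o (w 1) a := by
  unfold liG2
  rw [ev_adL, ev_liG1, ev_liG1, ite_liD, ite_liD]
  rfl

theorem ev_liG3 (a b c : Fin d) (w : Fin 3 → Fin d) : ev o d 2 (liG3 o a b c) w =
    liD o (w 2) c * (liD o (w 1) b * liD o (w 0) a - liD o (w 0) b * liD o (w 1) a) -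
    liD o (w 0) c * (liD o (w 2) b * liD o (w 1) a - liD o (w 1) b * liD o (w 2) a) := by
  unfold liG3
  rw [ev_adL, ev_liG2, ev_liG2, ite_liD, ite_liD]
  rfl

theorem li_top0 (P : Submodule o (LM o d 0)) (h : ∀ a, liG1 o a ∈ P) (x : LM o d 0) : x ∈ P := by
  have key : lieDeg o d 0 ≤ P.map (lieDeg o d 0).subtype := by
    conv_lhs => rw [lieDeg]
    rw [Submodule.span_le]
    rintro z ⟨j, rfl⟩
    exact ⟨liG1 o j, h j, rfl⟩
  obtain ⟨y, hy⟩ := x
  obtain ⟨z, hz, hzy⟩ := key hy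
  have : z = ⟨y, hy⟩ := Subtype.ext hzy
  rw [← this]
  exact hz

theorem li_step (i : ℕ) (P : Submodule o (LM o d (i + 1)))
    (h : ∀ j x, adL o d i j x ∈ P) (x : LM o d (i + 1)) : x ∈ P := by
  have h1 : br (adL o d i) ⊤ ≤ P := by
    unfold br
    apply iSup_le
    intro j
    rw [Submodule.map_le_iff_le_comap]
    intro y _
    exact h j y
  rw [br_adL] at h1
  exact h1 Submodule.mem_top

theorem li_top1 (P : Submodule o (LM o d 1)) (h : ∀ a b, liG2 o a b ∈ P) (x : LM o d 1) :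
    x ∈ P := by
  refine li_step 0 P ?_ x
  intro j y
  refine Submodule.mem_comap.mp (li_top0 (P.comap (adL o d 0 j)) ?_ y)
  intro a
  exact Submodule.mem_comap.mpr (h a j)

theorem li_top2 (P : Submodule o (LM o d 2)) (h : ∀ a b c, liG3 o a b c ∈ P) (x : LM o d 2) :
    x ∈ P := by
  refine li_step 1 P ?_ x
  intro j y
  refine Submodule.mem_comap.mp (li_top1 (P.comap (adL o d 1 j)) ?_ y)
  intro a b
  exact Submodule.mem_comap.mpr (h a b j)

theorem li_anti (x : LM o d 1) (a b : Fin d) : ev o d 1 x ![b, a] = - ev o d 1 x ![a, b] := by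
  have h : x ∈ LinearMap.ker ((LinearMap.proj ![b, a] : ((Fin 2 → Fin d) → o) →ₗ[o] o) ∘ₗ
      ev o d 1 + (LinearMap.proj ![a, b] : ((Fin 2 → Fin d) → o) →ₗ[o] o) ∘ₗ ev o d 1) := by
    apply li_top1
    intro a' b'
    rw [LinearMap.mem_ker]
    show ev o d 1 (liG2 o a' b') ![b, a] + ev o d 1 (liG2 o a' b') ![a, b] = 0
    rw [ev_liG2, ev_liG2]
    simp only [Matrix.cons_val_zero, Matrix.cons_val_one]
    ring
  rw [LinearMap.mem_ker] at h
  have h2 : ev o d 1 x ![b, a] + ev o d 1 x ![a, b] = 0 := h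
  linear_combination h2

theorem li_rev (x : LM o d 2) (a b c : Fin d) : ev o d 2 x ![c, b, a] = ev o d 2 x ![a, b, c] := by
  have h : x ∈ LinearMap.ker ((LinearMap.proj ![c, b, a] : ((Fin 3 → Fin d) → o) →ₗ[o] o) ∘ₗ
      ev o d 2 - (LinearMap.proj ![a, b, c] : ((Fin 3 → Fin d) → o) →ₗ[o] o) ∘ₗ ev o d 2) := by
    apply li_top2
    intro a' b' c'
    rw [LinearMap.mem_ker]
    show ev o d 2 (liG3 o a' b' c') ![c, b, a] - ev o d 2 (liG3 o a' b' c') ![a, b, c] = 0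
    rw [ev_liG3, ev_liG3]
    simp only [Matrix.cons_val]
    ring
  rw [LinearMap.mem_ker] at h
  have h2 : ev o d 2 x ![c, b, a] - ev o d 2 x ![a, b, c] = 0 := h
  linear_combination h2

theorem li_jac (x : LM o d 2) (a b c : Fin d) :
    ev o d 2 x ![b, a, c] = - ev o d 2 x ![a, b, c] - ev o d 2 x ![a, c, b] := by
  have h : x ∈ LinearMap.ker ((LinearMap.proj ![b, a, c] : ((Fin 3 → Fin d) → o) →ₗ[o] o) ∘ₗ
      ev o d 2 + (LinearMap.proj ![a, b, c] : ((Fin 3 → Fin d) → o) →ₗ[o] o) ∘ₗ ev o d 2 +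
      (LinearMap.proj ![a, c, b] : ((Fin 3 → Fin d) → o) →ₗ[o] o) ∘ₗ ev o d 2) := by
    apply li_top2
    intro a' b' c'
    rw [LinearMap.mem_ker]
    show ev o d 2 (liG3 o a' b' c') ![b, a, c] + ev o d 2 (liG3 o a' b' c') ![a, b, c] +
      ev o d 2 (liG3 o a' b' c') ![a, c, b] = 0
    rw [ev_liG3, ev_liG3, ev_liG3]
    simp only [Matrix.cons_val]
    ring
  rw [LinearMap.mem_ker] at h
  have h2 : ev o d 2 x ![b, a, c] + ev o d 2 x ![a, b, c] + ev o d 2 x ![a, c, b] = 0 := h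
  linear_combination h2

theorem li_vec1 (w : Fin 1 → Fin d) : w = ![w 0] := by
  funext i; fin_cases i; rfl

theorem li_vec2 (w : Fin 2 → Fin d) : w = ![w 0, w 1] := by
  funext i; fin_cases i <;> rfl

theorem li_vec3 (w : Fin 3 → Fin d) : w = ![w 0, w 1, w 2] := by
  funext i; fin_cases i <;> rfl

theorem liD_self (a : Fin d) : liD o a a = 1 := if_pos rfl

theorem liD_ne {a b : Fin d} (h : a ≠ b) : liD o a b = 0 := if_neg h

/-- Sums against matrix units. -/
theorem li_sum1 (y : (Fin 1 → Fin d) → o) (a w : Fin d) (v : Fin 1 → Fin d) :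
    ∑ u : Fin 1 → Fin d, liE o a w (v 0) (u 0) * y u = liD o (v 0) a * y ![w] := by
  rw [Finset.sum_eq_single ![w]]
  · rw [liE_apply]
    simp only [Matrix.cons_val_zero, liD_self, mul_one]
  · intro u _ hu
    have h : u 0 ≠ w := by
      intro h
      apply hu
      rw [li_vec1 u, h]
    rw [liE_apply, liD_ne h]
    ring
  · intro h
    exact absurd (Finset.mem_univ _) h

theorem li_sum2 (y : (Fin 2 → Fin d) → o) (a b w z : Fin d) (v : Fin 2 → Fin d) :
    ∑ u : Fin 2 → Fin d, liE o a w (v 0) (u 0) * liE o b z (v 1) (u 1) * y u =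
      liD o (v 0) a * liD o (v 1) b * y ![w, z] := by
  rw [Finset.sum_eq_single ![w, z]]
  · simp only [liE_apply, Matrix.cons_val_zero, Matrix.cons_val_one, liD_self, mul_one]
  · intro u _ hu
    simp only [liE_apply]
    by_cases h0 : u 0 = w
    · by_cases h1 : u 1 = z
      · exfalso
        apply hu
        rw [li_vec2 u, h0, h1]
      · rw [liD_ne h1]; ring
    · rw [liD_ne h0]; ring
  · intro h
    exact absurd (Finset.mem_univ _) h

theorem li_sum3 (y : (Fin 3 → Fin d) → o) (a b c w z t : Fin d) (v : Fin 3 → Fin d) :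
    ∑ u : Fin 3 → Fin d, liE o a w (v 0) (u 0) * liE o b z (v 1) (u 1) *
      liE o c t (v 2) (u 2) * y u =
      liD o (v 0) a * liD o (v 1) b * liD o (v 2) c * y ![w, z, t] := by
  rw [Finset.sum_eq_single ![w, z, t]]
  · simp only [liE_apply, Matrix.cons_val, liD_self, mul_one]
  · intro u _ hu
    simp only [liE_apply]
    by_cases h0 : u 0 = w
    · by_cases h1 : u 1 = z
      · by_cases h2 : u 2 = t
        · exfalso
          apply hu
          rw [li_vec3 u, h0, h1, h2]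
        · rw [liD_ne h2]; ring
      · rw [liD_ne h1]; ring
    · rw [liD_ne h0]; ring
  · intro h
    exact absurd (Finset.mem_univ _) h

/-- Polarisation in degree 1. -/
theorem li_pol1 (π : o) (E : Matrix (Fin d) (Fin d) o) (y : (Fin 1 → Fin d) → o)
    (v : Fin 1 → Fin d) : actW o d 1 (1 + π • E) y v - actW o d 1 1 y v =
      π * ∑ u : Fin 1 → Fin d, E (v 0) (u 0) * y u := by
  unfold actW
  rw [← Finset.sum_sub_distrib, Finset.mul_sum]
  apply Finset.sum_congr rfl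
  intro u _
  simp only [Fin.prod_univ_one, Matrix.add_apply, Matrix.smul_apply, smul_eq_mul]
  ring

/-- Polarisation in degree 2. -/
theorem li_pol2 (π : o) (E F : Matrix (Fin d) (Fin d) o) (y : (Fin 2 → Fin d) → o)
    (v : Fin 2 → Fin d) : actW o d 2 (1 + π • (E + F)) y v - actW o d 2 (1 + π • E) y v
      - actW o d 2 (1 + π • F) y v + actW o d 2 1 y v =
      π ^ 2 * (∑ u : Fin 2 → Fin d, E (v 0) (u 0) * F (v 1) (u 1) * y u +
        ∑ u : Fin 2 → Fin d, F (v 0) (u 0) * E (v 1) (u 1) * y u) := by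
  unfold actW
  rw [← Finset.sum_sub_distrib, ← Finset.sum_sub_distrib, ← Finset.sum_add_distrib,
    ← Finset.sum_add_distrib, Finset.mul_sum]
  apply Finset.sum_congr rfl
  intro u _
  simp only [Fin.prod_univ_two, Matrix.add_apply, Matrix.smul_apply, smul_eq_mul]
  ring

/-- Polarisation in degree 3. -/
theorem li_pol3 (π : o) (E F H : Matrix (Fin d) (Fin d) o) (y : (Fin 3 → Fin d) → o)
    (v : Fin 3 → Fin d) : actW o d 3 (1 + π • (E + F + H)) y v
      - actW o d 3 (1 + π • (E + F)) y v - actW o d 3 (1 + π • (E + H)) y v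
      - actW o d 3 (1 + π • (F + H)) y v
      + actW o d 3 (1 + π • E) y v + actW o d 3 (1 + π • F) y v + actW o d 3 (1 + π • H) y v
      - actW o d 3 1 y v =
      π ^ 3 * (∑ u : Fin 3 → Fin d, E (v 0) (u 0) * F (v 1) (u 1) * H (v 2) (u 2) * y u +
        ∑ u : Fin 3 → Fin d, E (v 0) (u 0) * H (v 1) (u 1) * F (v 2) (u 2) * y u +
        ∑ u : Fin 3 → Fin d, F (v 0) (u 0) * E (v 1) (u 1) * H (v 2) (u 2) * y u +
        ∑ u : Fin 3 → Fin d, H (v 0) (u 0) * E (v 1) (u 1) * F (v 2) (u 2) * y u +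
        ∑ u : Fin 3 → Fin d, H (v 0) (u 0) * F (v 1) (u 1) * E (v 2) (u 2) * y u +
        ∑ u : Fin 3 → Fin d, F (v 0) (u 0) * H (v 1) (u 1) * E (v 2) (u 2) * y u) := by
  unfold actW
  simp only [← Finset.sum_sub_distrib, ← Finset.sum_add_distrib, Finset.mul_sum]
  apply Finset.sum_congr rfl
  intro u _
  simp only [Fin.prod_univ_three, Matrix.add_apply, Matrix.smul_apply, smul_eq_mul]
  ring

end tools

variable {o : Type} [CommRing o] [IsDomain o] [IsDiscreteValuationRing o] {p : ℕ} {d : ℕ}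

theorem li_isUnit (hp : Irreducible (p : o)) {c : ℕ} (hc : 1 ≤ c)
    (X : Matrix (Fin d) (Fin d) o) : IsUnit (1 + (p : o) ^ c • X) := by
  rw [Matrix.isUnit_iff_isUnit_det]
  obtain ⟨e, rfl⟩ : ∃ e, c = e + 1 := ⟨c - 1, by omega⟩
  rw [Matrix.det_one_add_smul]
  have hnu : ¬ IsUnit (p : o) := hp.not_isUnit
  have hmem : (p : o) ∈ IsLocalRing.maximalIdeal o := hnu
  generalize Polynomial.eval ((p : o) ^ (e + 1))
    (Matrix.det (1 + (Polynomial.X : Polynomial o) • X.map Polynomial.C)).divX.divX = t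
  rw [show (1 : o) + Matrix.trace X * (p : o) ^ (e + 1) + t * ((p : o) ^ (e + 1)) ^ 2 =
    1 - (-((p : o) ^ e * (Matrix.trace X + t * (p : o) ^ (e + 1)))) * (p : o) by ring]
  exact IsLocalRing.isUnit_one_sub_self_of_mem_nonunits _
    (Ideal.mul_mem_left _ _ hmem)

theorem li_act (hp : Irreducible (p : o)) (i k : ℕ) (hk : 1 ≤ k) (N : Submodule o (LM o d i))
    (hst : ∀ g ∈ Gam o p d k, N.map (rhoL o d i g : LM o d i →ₗ[o] LM o d i) ≤ N)
    (X : Matrix (Fin d) (Fin d) o) (x : LM o d i) (hx : x ∈ N) :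
    actL o d i (1 + (p : o) ^ k • X) x ∈ N := by
  obtain ⟨g, hg⟩ := li_isUnit (d := d) hp hk X
  have h1 := hst g ⟨X, hg⟩ (Submodule.mem_map_of_mem hx)
  have h2 : rhoL o d i g x = actL o d i (1 + (p : o) ^ k • X) x := by
    rw [rhoL_apply, hg]
  rw [← h2]
  exact h1

theorem li_unit_coord (hp : Irreducible (p : o)) (i : ℕ) (hi : IsUnit ((i + 1 : ℕ) : o))
    (N : Submodule o (LM o d i)) (hN : ¬ ∀ x ∈ N, ∃ y : LM o d i, x = (p : o) • y) :
    ∃ x ∈ N, ∃ w, IsUnit (ev o d i x w) := by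
  by_contra hcon
  apply hN
  intro x hx
  apply exists_smul_of_ev i hi
  intro w
  by_contra h
  apply hcon
  refine ⟨x, hx, w, ?_⟩
  by_contra hu
  apply h
  have hmem : ev o d i x w ∈ IsLocalRing.maximalIdeal o := hu
  rw [(IsDiscreteValuationRing.irreducible_iff_uniformizer _).mp hp,
    Ideal.mem_span_singleton'] at hmem
  obtain ⟨b, hb⟩ := hmem
  exact ⟨b, by rw [← hb, mul_comm]⟩

omit [IsDomain o] [IsDiscreteValuationRing o] in
/-- Division by a unit. -/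
theorem li_div {i : ℕ} {N : Submodule o (LM o d i)} {a : o} (ha : IsUnit a) {z : LM o d i}
    (h : a • z ∈ N) : z ∈ N := by
  obtain ⟨u, rfl⟩ := ha
  have h2 := N.smul_mem ((u⁻¹ : oˣ) : o) h
  rwa [smul_smul, Units.inv_mul, one_smul] at h2

theorem irr_lie0 (hp : Irreducible (p : o)) (k : ℕ) (hk : 1 ≤ k) (N : Submodule o (LM o d 0))
    (hN : ¬ ∀ x ∈ N, ∃ y : LM o d 0, x = (p : o) • y)
    (hst : ∀ g ∈ Gam o p d k, N.map (rhoL o d 0 g : LM o d 0 →ₗ[o] LM o d 0) ≤ N)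
    (x : LM o d 0) : (p : o) ^ k • x ∈ N := by
  have h1 : IsUnit ((0 + 1 : ℕ) : o) := by simp
  obtain ⟨x₀, hx₀, w, hw⟩ := li_unit_coord hp 0 h1 N hN
  have hact := li_act hp 0 k hk N hst
  apply li_top0 (N.comap (LinearMap.lsmul o (LM o d 0) ((p : o) ^ k)))
  intro a
  show (p : o) ^ k • liG1 o a ∈ N
  apply li_div hw
  have hmem : actL o d 0 (1 + (p : o) ^ k • liE o a (w 0)) x₀ - actL o d 0 1 x₀ ∈ N := by
    rw [actL_one]
    exact N.sub_mem (hact _ x₀ hx₀) hx₀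
  have heq : actL o d 0 (1 + (p : o) ^ k • liE o a (w 0)) x₀ - actL o d 0 1 x₀ =
      ev o d 0 x₀ w • (p : o) ^ k • liG1 o a := by
    apply ev_injective 0 h1
    funext v
    rw [map_sub, map_smul, map_smul, ev_actL, ev_actL]
    show actW o d 1 _ _ v - actW o d 1 _ _ v = ev o d 0 x₀ w * ((p : o) ^ k *
      ev o d 0 (liG1 o a) v)
    rw [li_pol1, li_sum1, ev_liG1, ← li_vec1 w]
    ring
  rw [← heq]
  exact hmem

theorem irr_lie1 (hp : Irreducible (p : o)) (h2 : IsUnit (2 : o)) (k : ℕ) (hk : 1 ≤ k)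
    (N : Submodule o (LM o d 1))
    (hN : ¬ ∀ x ∈ N, ∃ y : LM o d 1, x = (p : o) • y)
    (hst : ∀ g ∈ Gam o p d k, N.map (rhoL o d 1 g : LM o d 1 →ₗ[o] LM o d 1) ≤ N)
    (x : LM o d 1) : ((p : o) ^ k) ^ 2 • x ∈ N := by
  have h1 : IsUnit ((1 + 1 : ℕ) : o) := by simpa using h2
  obtain ⟨x₀, hx₀, w, hw⟩ := li_unit_coord hp 1 h1 N hN
  have hact := li_act hp 1 k hk N hst
  apply li_top1 (N.comap (LinearMap.lsmul o (LM o d 1) (((p : o) ^ k) ^ 2)))
  intro a b
  show ((p : o) ^ k) ^ 2 • liG2 o a b ∈ N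
  apply li_div hw
  have hmem : actL o d 1 (1 + (p : o) ^ k • (liE o a (w 0) + liE o b (w 1))) x₀ -
      actL o d 1 (1 + (p : o) ^ k • liE o a (w 0)) x₀ -
      actL o d 1 (1 + (p : o) ^ k • liE o b (w 1)) x₀ + actL o d 1 1 x₀ ∈ N := by
    rw [actL_one]
    exact N.add_mem (N.sub_mem (N.sub_mem (hact _ x₀ hx₀) (hact _ x₀ hx₀)) (hact _ x₀ hx₀)) hx₀
  have heq : actL o d 1 (1 + (p : o) ^ k • (liE o a (w 0) + liE o b (w 1))) x₀ -
      actL o d 1 (1 + (p : o) ^ k • liE o a (w 0)) x₀ -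
      actL o d 1 (1 + (p : o) ^ k • liE o b (w 1)) x₀ + actL o d 1 1 x₀ =
      ev o d 1 x₀ w • ((p : o) ^ k) ^ 2 • liG2 o a b := by
    apply ev_injective 1 h1
    funext v
    rw [map_add, map_sub, map_sub, map_smul, map_smul, ev_actL, ev_actL, ev_actL, ev_actL]
    show actW o d 2 _ _ v - actW o d 2 _ _ v - actW o d 2 _ _ v + actW o d 2 _ _ v =
      ev o d 1 x₀ w * (((p : o) ^ k) ^ 2 * ev o d 1 (liG2 o a b) v)
    rw [li_pol2, li_sum2, li_sum2, ev_liG2, li_anti x₀ (w 0) (w 1), ← li_vec2 w]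
    ring
  rw [← heq]
  exact hmem

theorem irr_lie2 (hp : Irreducible (p : o)) (h3 : IsUnit (3 : o)) (k : ℕ) (hk : 1 ≤ k)
    (N : Submodule o (LM o d 2))
    (hN : ¬ ∀ x ∈ N, ∃ y : LM o d 2, x = (p : o) • y)
    (hst : ∀ g ∈ Gam o p d k, N.map (rhoL o d 2 g : LM o d 2 →ₗ[o] LM o d 2) ≤ N)
    (x : LM o d 2) : ((p : o) ^ k) ^ 3 • x ∈ N := by
  have h1 : IsUnit ((2 + 1 : ℕ) : o) := by simpa using h3
  obtain ⟨x₀, hx₀, w, hw⟩ := li_unit_coord hp 2 h1 N hN
  have hact := li_act hp 2 k hk N hst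
  have hF : ∀ a b c : Fin d, ((p : o) ^ k) ^ 3 • (ev o d 2 x₀ w • liG3 o a b c +
      ev o d 2 x₀ ![w 0, w 2, w 1] • liG3 o a c b) ∈ N := by
    intro a b c
    have hmem : actL o d 2 (1 + (p : o) ^ k •
          (liE o a (w 0) + liE o b (w 1) + liE o c (w 2))) x₀ -
        actL o d 2 (1 + (p : o) ^ k • (liE o a (w 0) + liE o b (w 1))) x₀ -
        actL o d 2 (1 + (p : o) ^ k • (liE o a (w 0) + liE o c (w 2))) x₀ -
        actL o d 2 (1 + (p : o) ^ k • (liE o b (w 1) + liE o c (w 2))) x₀ +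
        actL o d 2 (1 + (p : o) ^ k • liE o a (w 0)) x₀ +
        actL o d 2 (1 + (p : o) ^ k • liE o b (w 1)) x₀ +
        actL o d 2 (1 + (p : o) ^ k • liE o c (w 2)) x₀ - actL o d 2 1 x₀ ∈ N := by
      rw [actL_one]
      exact N.sub_mem (N.add_mem (N.add_mem (N.add_mem (N.sub_mem (N.sub_mem (N.sub_mem
        (hact _ x₀ hx₀) (hact _ x₀ hx₀)) (hact _ x₀ hx₀)) (hact _ x₀ hx₀)) (hact _ x₀ hx₀))
        (hact _ x₀ hx₀)) (hact _ x₀ hx₀)) hx₀
    have heq : actL o d 2 (1 + (p : o) ^ k •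
          (liE o a (w 0) + liE o b (w 1) + liE o c (w 2))) x₀ -
        actL o d 2 (1 + (p : o) ^ k • (liE o a (w 0) + liE o b (w 1))) x₀ -
        actL o d 2 (1 + (p : o) ^ k • (liE o a (w 0) + liE o c (w 2))) x₀ -
        actL o d 2 (1 + (p : o) ^ k • (liE o b (w 1) + liE o c (w 2))) x₀ +
        actL o d 2 (1 + (p : o) ^ k • liE o a (w 0)) x₀ +
        actL o d 2 (1 + (p : o) ^ k • liE o b (w 1)) x₀ +
        actL o d 2 (1 + (p : o) ^ k • liE o c (w 2)) x₀ - actL o d 2 1 x₀ =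
        ((p : o) ^ k) ^ 3 • (ev o d 2 x₀ w • liG3 o a b c +
          ev o d 2 x₀ ![w 0, w 2, w 1] • liG3 o a c b) := by
      apply ev_injective 2 h1
      funext v
      simp only [map_add, map_sub, map_smul, ev_actL]
      show actW o d 3 _ _ v - actW o d 3 _ _ v - actW o d 3 _ _ v - actW o d 3 _ _ v +
        actW o d 3 _ _ v + actW o d 3 _ _ v + actW o d 3 _ _ v - actW o d 3 _ _ v =
        ((p : o) ^ k) ^ 3 * (ev o d 2 x₀ w * ev o d 2 (liG3 o a b c) v +
          ev o d 2 x₀ ![w 0, w 2, w 1] * ev o d 2 (liG3 o a c b) v)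
      rw [li_pol3, li_sum3, li_sum3, li_sum3, li_sum3, li_sum3, li_sum3, ev_liG3, ev_liG3]
      have e1 : ev o d 2 x₀ w = ev o d 2 x₀ ![w 0, w 1, w 2] := by rw [← li_vec3 w]
      have e2 := li_rev x₀ (w 0) (w 1) (w 2)
      have e3 := li_jac x₀ (w 0) (w 1) (w 2)
      have e4 := li_rev x₀ (w 1) (w 0) (w 2)
      have e5 := li_rev x₀ (w 0) (w 2) (w 1)
      rw [e1, e2, e4, e5, e3]
      ring
    rw [← heq]
    exact hmem
  apply li_top2 (N.comap (LinearMap.lsmul o (LM o d 2) (((p : o) ^ k) ^ 3)))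
  intro a b c
  show ((p : o) ^ k) ^ 3 • liG3 o a b c ∈ N
  apply li_div h3
  apply li_div hw
  have hcomb : ((2 : o) • (((p : o) ^ k) ^ 3 • (ev o d 2 x₀ w • liG3 o a b c +
        ev o d 2 x₀ ![w 0, w 2, w 1] • liG3 o a c b) -
      ((p : o) ^ k) ^ 3 • (ev o d 2 x₀ w • liG3 o b a c +
        ev o d 2 x₀ ![w 0, w 2, w 1] • liG3 o b c a)) -
      (((p : o) ^ k) ^ 3 • (ev o d 2 x₀ w • liG3 o a c b +
        ev o d 2 x₀ ![w 0, w 2, w 1] • liG3 o a b c) -
      ((p : o) ^ k) ^ 3 • (ev o d 2 x₀ w • liG3 o b c a +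
        ev o d 2 x₀ ![w 0, w 2, w 1] • liG3 o b a c))) ∈ N :=
    N.sub_mem (N.smul_mem _ (N.sub_mem (hF a b c) (hF b a c)))
      (N.sub_mem (hF a c b) (hF b c a))
  have hval : ev o d 2 x₀ w • (3 : o) • ((p : o) ^ k) ^ 3 • liG3 o a b c =
      ((2 : o) • (((p : o) ^ k) ^ 3 • (ev o d 2 x₀ w • liG3 o a b c +
        ev o d 2 x₀ ![w 0, w 2, w 1] • liG3 o a c b) -
      ((p : o) ^ k) ^ 3 • (ev o d 2 x₀ w • liG3 o b a c +
        ev o d 2 x₀ ![w 0, w 2, w 1] • liG3 o b c a)) -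
      (((p : o) ^ k) ^ 3 • (ev o d 2 x₀ w • liG3 o a c b +
        ev o d 2 x₀ ![w 0, w 2, w 1] • liG3 o a b c) -
      ((p : o) ^ k) ^ 3 • (ev o d 2 x₀ w • liG3 o b c a +
        ev o d 2 x₀ ![w 0, w 2, w 1] • liG3 o b a c))) := by
    apply ev_injective 2 h1
    funext v
    simp only [map_add, map_sub, map_smul, Pi.add_apply, Pi.sub_apply, Pi.smul_apply,
      smul_eq_mul, ev_liG3]
    ring
  rw [hval]
  exact hcomb

/-- A submodule of the component of degree `i + 1 ≤ 3`, not contained in `p` times it and stable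
under the congruence subgroup of level `k`, contains `p ^ (k * (i + 1))` times it. -/
theorem irr_lie (hp : Irreducible (p : o)) (h2 : IsUnit (2 : o)) (h3 : IsUnit (3 : o)) (i : ℕ)
    (hi : i ≤ 2) (k : ℕ) (hk : 1 ≤ k) (N : Submodule o (LM o d i))
    (hN : ¬ ∀ x ∈ N, ∃ y : LM o d i, x = (p : o) • y)
    (hst : ∀ g ∈ Gam o p d k, N.map (rhoL o d i g : LM o d i →ₗ[o] LM o d i) ≤ N)
    (x : LM o d i) : (p : o) ^ (k * (i + 1)) • x ∈ N := by
  rw [pow_mul]
  interval_cases i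
  · rw [zero_add, pow_one]
    exact irr_lie0 hp k hk N hN hst x
  · exact irr_lie1 hp h2 k hk N hN hst x
  · exact irr_lie2 hp h3 k hk N hN hst x

end Pool.Agent.TZ
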