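import Pool.Agent.TZ.LB

set_option autoImplicit false

/-! Ranks of the components of degrees 1, 2, 3, 4. -/

namespace Pool.Agent.TZ

section tools

variable {o : Type} [CommRing o] {d : ℕ}

theorem wordBr_mul_of (w : FreeMonoid (Fin d)) (hw : w ≠ 1) (k : Fin d) :
    wordBr o d (w * FreeMonoid.of k) = ⁅wordBr o d w, FreeLieAlgebra.of o k⁆ := by
  have h1 := Dyn_mul (o := o) (MonoidAlgebra.single w 1) (letter o d k) (by
    rw [MonoidAlgebra.coeff_single, Finsupp.single_eq_of_ne hw.symm])
  have h2 : (MonoidAlgebra.single w (1 : o) : TA o d) * letter o d k =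
      MonoidAlgebra.single (w * FreeMonoid.of k) 1 := by
    unfold letter
    rw [MonoidAlgebra.single_mul_single, one_mul]
  rw [h2, Dyn_single, Dyn_single, one_smul, one_smul, Phi_letter, MulOpposite.unop_op] at h1
  exact h1

theorem wbr_succ (i : ℕ) (w : Fin (i + 2) → Fin d) :
    wbr o (i + 1) w = adL o d i (w (Fin.last (i + 1))) (wbr o i (Fin.init w)) := by
  apply Subtype.ext
  show wordBr o d (FreeMonoid.ofList (List.ofFn w)) =
    ⁅wordBr o d (FreeMonoid.ofList (List.ofFn (Fin.init w))),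
      FreeLieAlgebra.of o (w (Fin.last (i + 1)))⁆
  have h1 : (FreeMonoid.ofList (List.ofFn w) : FreeMonoid (Fin d)) =
      FreeMonoid.ofList (List.ofFn (Fin.init w)) * FreeMonoid.of (w (Fin.last (i + 1))) := by
    rw [List.ofFn_succ']
    simp only [List.concat_eq_append]
    rfl
  rw [h1, wordBr_mul_of]
  intro h
  have := congrArg FreeMonoid.length h
  rw [FreeMonoid.length_one] at this
  have h2 : FreeMonoid.length (FreeMonoid.ofList (List.ofFn (Fin.init w))) = i + 1 :=
    List.length_ofFn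
  omega

theorem ev_wbr_zero (w v : Fin 1 → Fin d) :
    ev o d 0 (wbr o 0 w) v = if v 0 = w 0 then 1 else 0 := by
  show (theta o d (wordBr o d (FreeMonoid.ofList (List.ofFn w)))).coeff
    (FreeMonoid.ofList (List.ofFn v)) = _
  have h1 : (FreeMonoid.ofList (List.ofFn w) : FreeMonoid (Fin d)) = FreeMonoid.of (w 0) * 1 := by
    simp [List.ofFn_succ]
  have h2 : (FreeMonoid.ofList (List.ofFn v) : FreeMonoid (Fin d)) = FreeMonoid.of (v 0) := by
    simp [List.ofFn_succ]
  rw [h1, h2, wordBr_cons, ← MonoidAlgebra.one_def, map_one, MulOpposite.unop_one,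
    Module.End.one_apply, theta_of]
  unfold letter
  rw [MonoidAlgebra.coeff_single]
  split_ifs with h
  · rw [h, Finsupp.single_eq_same]
  · rw [Finsupp.single_eq_of_ne]
    intro h3
    exact h (FreeMonoid.of_injective h3)

theorem ev_wbr_succ (i : ℕ) (w v : Fin (i + 2) → Fin d) :
    ev o d (i + 1) (wbr o (i + 1) w) v =
      (if v (Fin.last (i + 1)) = w (Fin.last (i + 1)) then
        ev o d i (wbr o i (Fin.init w)) (Fin.init v) else 0) -
        (if v 0 = w (Fin.last (i + 1)) then ev o d i (wbr o i (Fin.init w)) (Fin.tail v)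
          else 0) := by
  rw [wbr_succ, ev_adL]

theorem sum_words_succ {A : Type} [AddCommMonoid A] (n : ℕ) (f : (Fin (n + 1) → Fin d) → A) :
    ∑ w, f w = ∑ a : Fin d, ∑ w : Fin n → Fin d, f (Fin.cons a w) := by
  rw [← Fintype.sum_prod_type' (f := fun a (w : Fin n → Fin d) =>
    f (Fin.cons a w : Fin (n + 1) → Fin d))]
  symm
  apply Fintype.sum_equiv (Fin.consEquiv fun _ => Fin d)
  intro x
  rfl

end tools

variable {o : Type} [CommRing o] [IsDomain o] [IsDiscreteValuationRing o] [CharZero o] {d : ℕ}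

omit [IsDomain o] [IsDiscreteValuationRing o] [CharZero o] in
theorem dyn_surjective (i : ℕ) (hi : IsUnit ((i + 1 : ℕ) : o)) :
    Function.Surjective (dyn o d i) := by
  intro y
  obtain ⟨u, hu⟩ := hi
  refine ⟨((u⁻¹ : oˣ) : o) • ev o d i y, ?_⟩
  rw [map_smul, dyn_ev, ← hu, smul_smul, Units.inv_mul, one_smul]

omit [IsDomain o] [IsDiscreteValuationRing o] [CharZero o] in
theorem finite_LM (i : ℕ) (hi : IsUnit ((i + 1 : ℕ) : o)) : Module.Finite o (LM o d i) :=
  Module.Finite.of_surjective (dyn o d i) (dyn_surjective i hi)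

omit [CharZero o] in
theorem free_LM (i : ℕ) (hi : IsUnit ((i + 1 : ℕ) : o)) : Module.Free o (LM o d i) :=
  Module.Free.of_equiv (LinearEquiv.ofInjective (ev o d i) (ev_injective i hi)).symm

omit [CharZero o] in
/-- The rank is the trace of the Dynkin operator divided by the degree. -/
theorem rank_mul (i : ℕ) (hi : IsUnit ((i + 1 : ℕ) : o)) :
    ((Module.finrank o (LM o d i) * (i + 1) : ℕ) : o) =
      ∑ w : Fin (i + 1) → Fin d, ev o d i (wbr o i w) w := by
  have := finite_LM (o := o) (d := d) i hi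
  have := free_LM (o := o) (d := d) i hi
  have h1 : dyn o d i ∘ₗ ev o d i = ((i + 1 : ℕ) : o) • LinearMap.id := by
    ext1 x
    exact dyn_ev i x
  have h2 := LinearMap.trace_comp_comm' (ev o d i) (dyn o d i)
  rw [h1, map_smul, LinearMap.trace_id, smul_eq_mul] at h2
  rw [Nat.cast_mul, mul_comm, h2, LinearMap.trace_eq_matrix_trace o (Pi.basisFun o _),
    Matrix.trace]
  apply Finset.sum_congr rfl
  intro w _
  rw [Matrix.diag_apply, LinearMap.toMatrix_apply, Pi.basisFun_repr, Pi.basisFun_apply,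
    LinearMap.comp_apply]
  have h3 : dyn o d i (Pi.single w (1 : o)) = wbr o i w := by
    show ∑ v, (Pi.single w (1 : o) : (Fin (i + 1) → Fin d) → o) v • wbr o i v = _
    rw [Finset.sum_eq_single w]
    · simp
    · intro v _ hv
      rw [Pi.single_eq_of_ne hv, zero_smul]
    · simp
  rw [h3]

theorem rank_zero : Module.finrank o (LM o d 0) = d := by
  have h := rank_mul (o := o) (d := d) 0 (by simp)
  simp only [ev_wbr_zero, if_true] at h
  rw [Finset.sum_const, Finset.card_univ, Fintype.card_fun, Fintype.card_fin, Fintype.card_fin,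
    nsmul_eq_mul, mul_one] at h
  have h2 := Nat.cast_injective (R := o) h
  simpa using h2

theorem rank_one (h2 : IsUnit (2 : o)) : Module.finrank o (LM o d 1) * 2 = d ^ 2 - d := by
  have h := rank_mul (o := o) (d := d) 1 (by simpa using h2)
  simp only [ev_wbr_succ, ev_wbr_zero, sum_words_succ] at h
  simp [Fin.init, Fin.tail, Fin.last] at h
  have h3 : ((Module.finrank o (LM o d 1) * 2 + d : ℕ) : o) = ((d ^ 2 : ℕ) : o) := by
    push_cast
    linear_combination h
  have h4 := Nat.cast_injective (R := o) h3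
  omega

theorem rank_two (h3 : IsUnit (3 : o)) : Module.finrank o (LM o d 2) * 3 = d ^ 3 - d := by
  have h := rank_mul (o := o) (d := d) 2 (by simpa using h3)
  have c2 : ∀ (a b c : Fin d) (f : Fin 0 → Fin d),
    (Fin.cons a (Fin.cons b (Fin.cons c f : Fin 1 → Fin d) : Fin 2 → Fin d) :
      Fin 3 → Fin d) 2 = c := fun _ _ _ _ => rfl
  simp only [ev_wbr_succ, ev_wbr_zero, sum_words_succ] at h
  simp [Fin.init, Fin.tail, Fin.last, c2] at h
  have h5 : ((Module.finrank o (LM o d 2) * 3 + d : ℕ) : o) = ((d ^ 3 : ℕ) : o) := by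
    push_cast
    linear_combination h
  have h6 := Nat.cast_injective (R := o) h5
  omega

theorem rank_three (h4 : IsUnit (4 : o)) : Module.finrank o (LM o d 3) * 4 = d ^ 4 - d ^ 2 := by
  have h := rank_mul (o := o) (d := d) 3 (by simpa using h4)
  have c2 : ∀ (a b c e : Fin d) (f : Fin 0 → Fin d),
    (Fin.cons a (Fin.cons b (Fin.cons c (Fin.cons e f : Fin 1 → Fin d) : Fin 2 → Fin d) :
      Fin 3 → Fin d) : Fin 4 → Fin d) 2 = c := fun _ _ _ _ _ => rfl
  have c3 : ∀ (a b c e : Fin d) (f : Fin 0 → Fin d),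
    (Fin.cons a (Fin.cons b (Fin.cons c (Fin.cons e f : Fin 1 → Fin d) : Fin 2 → Fin d) :
      Fin 3 → Fin d) : Fin 4 → Fin d) 3 = e := fun _ _ _ _ _ => rfl
  simp only [ev_wbr_succ, ev_wbr_zero, sum_words_succ] at h
  simp [Fin.init, Fin.tail, Fin.last, c2, c3] at h
  have h5 : ((Module.finrank o (LM o d 3) * 4 + d ^ 2 : ℕ) : o) = ((d ^ 4 : ℕ) : o) := by
    push_cast
    linear_combination h
  have h6 := Nat.cast_injective (R := o) h5
  omega

end Pool.Agent.TZ
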