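import Pool.Agent.TZ.Defs
import Pool.Agent.TZ.Base

set_option autoImplicit false

/-!
Free Lie algebra inside the free associative algebra (words): definitions.
-/

namespace Pool.Agent.TZ

attribute [local instance 100] LieRing.ofAssociativeRing

/-- The free associative algebra, as the monoid algebra of the free monoid. -/
abbrev TA (o : Type) [CommRing o] (d : ℕ) : Type := MonoidAlgebra o (FreeMonoid (Fin d))

variable (o : Type) [CommRing o] (d : ℕ)

/-- The letter `j` in the free associative algebra. -/
noncomputable def letter (j : Fin d) : TA o d := MonoidAlgebra.single (FreeMonoid.of j) 1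

/-- The canonical map from the free Lie algebra to the free associative algebra. -/
noncomputable def theta : FreeLieAlgebra o (Fin d) →ₗ⁅o⁆ TA o d :=
  FreeLieAlgebra.lift o (fun j => letter o d j)

/-- The right bracket `y ↦ ⁅y, x⁆`. -/
noncomputable def rbr (x : FreeLieAlgebra o (Fin d)) :
    Module.End o (FreeLieAlgebra o (Fin d)) where
  toFun y := ⁅y, x⁆
  map_add' y z := by simp
  map_smul' a y := by simp

/-- The right action of the free associative algebra on the free Lie algebra: the letter `j` acts
by `y ↦ ⁅y, j⁆`. -/
noncomputable def Phi : TA o d →ₐ[o] (Module.End o (FreeLieAlgebra o (Fin d)))ᵐᵒᵖ :=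
  MonoidAlgebra.lift o _ _ (FreeMonoid.lift fun j =>
    MulOpposite.op (rbr o d (FreeLieAlgebra.of o j)))

/-- The left normed bracket of a word (`0` for the empty word). -/
noncomputable def wordBr (w : FreeMonoid (Fin d)) : FreeLieAlgebra o (Fin d) :=
  match FreeMonoid.toList w with
  | [] => 0
  | j :: l => MulOpposite.unop (Phi o d (MonoidAlgebra.single (FreeMonoid.ofList l) 1))
      (FreeLieAlgebra.of o j)

/-- The Dynkin operator, from the free associative algebra to the free Lie algebra. -/
noncomputable def Dyn : TA o d →ₗ[o] FreeLieAlgebra o (Fin d) :=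
  (Finsupp.lsum o (fun w => (LinearMap.toSpanSingleton o _ (wordBr o d w)))) ∘ₗ
    (MonoidAlgebra.coeffLinearEquiv o).toLinearMap

/-- The tower: `M i` is the component of degree `i + 1` of the free Lie algebra. -/
abbrev LM (o : Type) [CommRing o] (d : ℕ) (i : ℕ) : Type := ↥(lieDeg o d i)

/-- The bracket with a generator. -/
noncomputable def adL (i : ℕ) (j : Fin d) : LM o d i →ₗ[o] LM o d (i + 1) where
  toFun x := ⟨⁅(x : FreeLieAlgebra o (Fin d)), FreeLieAlgebra.of o j⁆,
    Submodule.subset_span ⟨x, x.2, j, rfl⟩⟩
  map_add' x y := by ext; simp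
  map_smul' a x := by ext; simp

/-- The coefficients of a Lie element of degree `i + 1`. -/
noncomputable def ev (i : ℕ) : LM o d i →ₗ[o] ((Fin (i + 1) → Fin d) → o) where
  toFun x w := (theta o d x).coeff (FreeMonoid.ofList (List.ofFn w))
  map_add' x y := by ext w; simp
  map_smul' a x := by ext w; simp

/-- The endomorphism of the free Lie algebra defined by a matrix. -/
noncomputable def phiG (g : Matrix (Fin d) (Fin d) o) :
    FreeLieAlgebra o (Fin d) →ₗ⁅o⁆ FreeLieAlgebra o (Fin d) :=
  FreeLieAlgebra.lift o (fun j => ∑ a, g a j • FreeLieAlgebra.of o a)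

/-- The action of a matrix on functions on words. -/
noncomputable def actW (n : ℕ) (g : Matrix (Fin d) (Fin d) o) (y : (Fin n → Fin d) → o) :
    (Fin n → Fin d) → o :=
  fun w => ∑ u : Fin n → Fin d, (∏ k, g (w k) (u k)) * y u

end Pool.Agent.TZ
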