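import Pool.Agent.TZ.PT

set_option autoImplicit false

/-! p-adic values at `1` of power series. -/

namespace Pool.Agent.TZ

open PowerSeries Filter Topology

/-- The series `F` converges `p`-adically at `1` with sum `S`. -/
def PSum (p : ℕ) [Fact p.Prime] (F : PowerSeries ℤ) (S : ℚ_[p]) : Prop :=
  HasSum (fun n : ℕ => ((PowerSeries.coeff n F : ℤ) : ℚ_[p])) S

variable {p : ℕ} [Fact p.Prime]

instance padicNonarchimedeanRing : NonarchimedeanRing ℚ_[p] where
  is_nonarchimedean := NonarchimedeanAddGroup.is_nonarchimedean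

/-- The sum of the coefficients, for series over the `p`-adic numbers. -/
def QSum (H : PowerSeries ℚ_[p]) (S : ℚ_[p]) : Prop :=
  HasSum (fun n : ℕ => PowerSeries.coeff n H) S

theorem psum_iff {F : PowerSeries ℤ} {S : ℚ_[p]} :
    PSum p F S ↔ QSum (F.map (Int.castRingHom ℚ_[p])) S := by
  simp [PSum, QSum]

theorem qsum_mul {F G : PowerSeries ℚ_[p]} {S T : ℚ_[p]} (hF : QSum F S) (hG : QSum G T) :
    QSum (F * G) (S * T) := by
  have h := HasSum.mul_of_nonarchimedean hF hG
  have h1 := (Finset.HasAntidiagonal.sigmaAntidiagonalEquivProd (A := ℕ)).hasSum_iff.2 h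
  refine HasSum.sigma h1 fun n => ?_
  rw [PowerSeries.coeff_mul]
  have h2 := hasSum_fintype fun c : (Finset.HasAntidiagonal.antidiagonal n : Finset (ℕ × ℕ)) =>
    ((fun i : ℕ × ℕ => PowerSeries.coeff i.1 F * PowerSeries.coeff i.2 G) ∘
      (Finset.HasAntidiagonal.sigmaAntidiagonalEquivProd (A := ℕ))) ⟨n, c⟩
  convert h2 using 1
  simp only [Function.comp, Finset.HasAntidiagonal.sigmaAntidiagonalEquivProd_apply]
  exact (Finset.sum_coe_sort (Finset.HasAntidiagonal.antidiagonal n : Finset (ℕ × ℕ))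
    fun i : ℕ × ℕ => PowerSeries.coeff i.1 F * PowerSeries.coeff i.2 G).symm

theorem qsum_poly (A : Polynomial ℚ_[p]) : QSum (A : PowerSeries ℚ_[p]) (A.eval 1) := by
  have h : HasSum (fun n : ℕ => A.coeff n) (∑ n ∈ A.support, A.coeff n) :=
    hasSum_sum_of_ne_finset_zero fun n hn => by simpa using hn
  simpa [QSum, Polynomial.eval_eq_sum, Polynomial.sum] using h

theorem qsum_unique {F : PowerSeries ℚ_[p]} {S T : ℚ_[p]} (h : QSum F S) (h' : QSum F T) :
    S = T := HasSum.unique h h'

theorem psum_of_padicEq {F G : PowerSeries ℤ} {S : ℚ_[p]} (hFG : PadicEq p F G)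
    (hG : PSum p G S) : PSum p F S := by
  have hp1 : (1 : ℝ) < p := by exact_mod_cast (Fact.out : p.Prime).one_lt
  have hsmall : ∀ ε : ℝ, 0 < ε → ∃ k : ℕ, (p : ℝ) ^ (-(k : ℤ)) < ε := by
    intro ε hε
    obtain ⟨k, hk⟩ := exists_pow_lt_of_lt_one hε (inv_lt_one_of_one_lt₀ hp1)
    refine ⟨k, ?_⟩
    rw [zpow_neg, zpow_natCast, ← inv_pow]; exact hk
  have hF : Summable fun n : ℕ => ((PowerSeries.coeff n F : ℤ) : ℚ_[p]) := by
    refine NonarchimedeanAddGroup.summable_of_tendsto_cofinite_zero ?_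
    rw [Nat.cofinite_eq_atTop, Metric.tendsto_atTop]
    intro ε hε
    obtain ⟨k, hk⟩ := hsmall ε hε
    obtain ⟨N, hN, _, _⟩ := hFG k
    refine ⟨N, fun n hn => ?_⟩
    rw [dist_zero_right]
    exact ((Padic.norm_int_le_pow_iff_dvd _ _).2 (hN n hn)).trans_lt hk
  obtain ⟨S', hS'⟩ := hF
  have hd := (hS'.sub hG).tendsto_sum_nat
  have hzero : S' - S = 0 := by
    rw [← norm_eq_zero]
    refine le_antisymm (le_of_forall_pos_le_add fun ε hε => ?_) (norm_nonneg _)
    rw [zero_add]
    obtain ⟨k, hk⟩ := hsmall ε hε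
    obtain ⟨N, hN, hN', hs⟩ := hFG k
    refine le_of_tendsto hd.norm (eventually_atTop.2 ⟨N, fun n hn => ?_⟩)
    have h1 : (p : ℤ) ^ k ∣ ∑ i ∈ Finset.range n, (PowerSeries.coeff i F -
        PowerSeries.coeff i G) := by
      induction n, hn using Nat.le_induction with
      | base => exact hs
      | succ n hn ih =>
        rw [Finset.sum_range_succ]
        exact dvd_add ih (dvd_sub (hN n hn) (hN' n hn))
    have h2 := (Padic.norm_int_le_pow_iff_dvd (p := p) _ _).2 h1
    refine le_trans (le_of_eq ?_) (h2.trans hk.le)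
    push_cast
    rfl
  rw [sub_eq_zero] at hzero
  rw [← hzero]
  exact hS'

theorem psum_mul {F G : PowerSeries ℤ} {S T : ℚ_[p]} (hF : PSum p F S) (hG : PSum p G T) :
    PSum p (F * G) (S * T) := by
  rw [psum_iff] at *
  rw [map_mul]
  exact qsum_mul hF hG

theorem psum_one : PSum p 1 1 := by
  rw [psum_iff, map_one]
  simpa using qsum_poly (p := p) 1

theorem psum_prod {c : ℕ} {F : Fin c → PowerSeries ℤ} {S : Fin c → ℚ_[p]}
    (h : ∀ i, PSum p (F i) (S i)) : PSum p (∏ i, F i) (∏ i, S i) := by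
  induction c with
  | zero => simpa using psum_one
  | succ c ih =>
    rw [Fin.prod_univ_succ, Fin.prod_univ_succ]
    exact psum_mul (h 0) (ih fun i => h i.succ)

theorem psum_finset_prod {ι : Type} (s : Finset ι) {F : ι → PowerSeries ℤ} {S : ι → ℚ_[p]}
    (h : ∀ i ∈ s, PSum p (F i) (S i)) : PSum p (∏ i ∈ s, F i) (∏ i ∈ s, S i) := by
  classical
  induction s using Finset.induction_on with
  | empty => simpa using psum_one
  | insert a s ha ih =>
    rw [Finset.prod_insert ha, Finset.prod_insert ha]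
    exact psum_mul (h a (Finset.mem_insert_self _ _))
      (ih fun i hi => h i (Finset.mem_insert_of_mem hi))

/-- The geometric series. -/
noncomputable def geo (a : ℤ) : PowerSeries ℤ := PowerSeries.mk fun n => a ^ n

theorem one_sub_mul_geo (a : ℤ) : (1 - PowerSeries.C a * PowerSeries.X) * geo a = 1 := by
  ext n
  cases n with
  | zero => simp [geo, sub_mul, mul_assoc]
  | succ n =>
    rw [sub_mul, one_mul, map_sub, mul_assoc, PowerSeries.coeff_C_mul, PowerSeries.coeff_succ_X_mul,
      geo, PowerSeries.coeff_mk, PowerSeries.coeff_mk, PowerSeries.coeff_one]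
    simp [pow_succ']

theorem psum_geo {a : ℤ} (ha : ‖(a : ℚ_[p])‖ < 1) : PSum p (geo a) (1 - (a : ℚ_[p]))⁻¹ := by
  have h := hasSum_geometric_of_norm_lt_one ha
  simpa [PSum, geo] using h

/-- The value at `1` of the generating function of primitive sublattices. -/
theorem psum_prim {q n : ℕ} (hq : p ∣ q) (hn : 1 ≤ n) {F : PowerSeries ℤ}
    (hF : F * ∏ k ∈ Finset.range n, (1 - PowerSeries.C ((q : ℤ) ^ k) * PowerSeries.X) =
      1 - PowerSeries.X ^ n) :
    PSum p F ((n : ℚ_[p]) / ∏ j ∈ Finset.Ico 1 n, (1 - (q : ℚ_[p]) ^ j)) := by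
  have hr : Finset.range n = insert 0 (Finset.Ico 1 n) := by
    ext i; simp only [Finset.mem_range, Finset.mem_insert, Finset.mem_Ico]; omega
  have h0 : (0 : ℕ) ∉ Finset.Ico 1 n := by simp
  rw [hr, Finset.prod_insert h0] at hF
  set D : PowerSeries ℤ := ∏ k ∈ Finset.Ico 1 n, (1 - PowerSeries.C ((q : ℤ) ^ k) *
    PowerSeries.X) with hD
  set E : PowerSeries ℤ := ∏ k ∈ Finset.Ico 1 n, geo ((q : ℤ) ^ k) with hE
  have hDE : D * E = 1 := by
    rw [hD, hE, ← Finset.prod_mul_distrib]
    exact Finset.prod_eq_one fun k _ => one_sub_mul_geo _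
  have hgs : (∑ i ∈ Finset.range n, (PowerSeries.X : PowerSeries ℤ) ^ i) * (1 - PowerSeries.X) =
      1 - PowerSeries.X ^ n := by
    have := geom_sum_mul_neg (PowerSeries.X : PowerSeries ℤ) n
    exact this
  have hX : (1 - PowerSeries.X : PowerSeries ℤ) ≠ 0 := by
    intro h
    have := congrArg (PowerSeries.coeff 0) h
    simp at this
  have hFD : F * D = ∑ i ∈ Finset.range n, (PowerSeries.X : PowerSeries ℤ) ^ i := by
    refine mul_right_cancel₀ hX ?_
    rw [hgs, ← hF]
    simp only [pow_zero, map_one, one_mul]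
    ring
  have hFE : F = (∑ i ∈ Finset.range n, (PowerSeries.X : PowerSeries ℤ) ^ i) * E := by
    rw [← hFD, mul_assoc, hDE, mul_one]
  rw [hFE, div_eq_mul_inv]
  refine psum_mul ?_ ?_
  · rw [psum_iff]
    have h := qsum_poly (p := p) (∑ i ∈ Finset.range n, (Polynomial.X : Polynomial ℚ_[p]) ^ i)
    have h1 : ((∑ i ∈ Finset.range n, (Polynomial.X : Polynomial ℚ_[p]) ^ i : Polynomial ℚ_[p]) :
        PowerSeries ℚ_[p]) = (∑ i ∈ Finset.range n, (PowerSeries.X : PowerSeries ℤ) ^ i).map
        (Int.castRingHom ℚ_[p]) := by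
      rw [map_sum]
      have := map_sum (Polynomial.coeToPowerSeries.ringHom (R := ℚ_[p]))
        (fun i => (Polynomial.X : Polynomial ℚ_[p]) ^ i) (Finset.range n)
      simp only [Polynomial.coeToPowerSeries.ringHom_apply, Polynomial.coe_pow,
        Polynomial.coe_X] at this
      simp only [map_pow, PowerSeries.map_X]
      exact this
    rw [h1] at h
    simpa [Polynomial.eval_finsetSum] using h
  · rw [← Finset.prod_inv_distrib]
    refine psum_finset_prod _ fun k hk => ?_
    have hk1 : 1 ≤ k := (Finset.mem_Ico.1 hk).1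
    have hlt : ‖(((q : ℤ) ^ k : ℤ) : ℚ_[p])‖ < 1 := by
      rw [Padic.norm_intCast_lt_one_iff]
      exact dvd_pow (by exact_mod_cast hq) (by omega)
    have := psum_geo hlt
    simpa using this

/-- Evaluation at `1` of an identity between a `p`-adically convergent series and polynomials. -/
theorem psum_poly {F : PowerSeries ℤ} {S : ℚ} (hF : PSum p F (S : ℚ_[p]))
    (A B : Polynomial ℚ) (z : ℕ)
    (hAB : F.map (Int.castRingHom ℚ) * (((1 - Polynomial.X) ^ z * B : Polynomial ℚ) : PowerSeries ℚ)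
      = (A : PowerSeries ℚ)) :
    ∃ A1 : Polynomial ℚ, A = (1 - Polynomial.X) ^ z * A1 ∧ A1.eval 1 = B.eval 1 * S := by
  -- evaluation
  have key : ∀ (B A : Polynomial ℚ), F.map (Int.castRingHom ℚ) * (B : PowerSeries ℚ) =
      (A : PowerSeries ℚ) → A.eval 1 = B.eval 1 * S := by
    intro B A h
    have hF' := psum_iff.1 hF
    have hB := qsum_poly (B.map (algebraMap ℚ ℚ_[p]))
    have hA := qsum_poly (A.map (algebraMap ℚ ℚ_[p]))
    have h1 := qsum_mul hF' hB
    have h2 : (F.map (Int.castRingHom ℚ_[p])) * ((B.map (algebraMap ℚ ℚ_[p]) :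
        Polynomial ℚ_[p]) : PowerSeries ℚ_[p]) =
        ((A.map (algebraMap ℚ ℚ_[p]) : Polynomial ℚ_[p]) : PowerSeries ℚ_[p]) := by
      have h3 := congrArg (PowerSeries.map (algebraMap ℚ ℚ_[p])) h
      rw [map_mul, ← Polynomial.polynomial_map_coe, ← Polynomial.polynomial_map_coe] at h3
      rw [← h3]
      congr 1
    rw [h2] at h1
    have h3 := qsum_unique hA h1
    rw [Polynomial.eval_one_map, Polynomial.eval_one_map] at h3
    have h4 : ((A.eval 1 : ℚ) : ℚ_[p]) = ((B.eval 1 * S : ℚ) : ℚ_[p]) := by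
      push_cast
      rw [mul_comm]
      simpa using h3
    exact_mod_cast h4
  have hX : (1 - PowerSeries.X : PowerSeries ℚ) ≠ 0 := by
    intro h
    have := congrArg (PowerSeries.coeff 0) h
    simp at this
  induction z generalizing A with
  | zero =>
    refine ⟨A, by simp, key B A ?_⟩
    simpa using hAB
  | succ z ih =>
    have h1 := key _ _ hAB
    have h2 : A.eval 1 = 0 := by
      rw [h1]; simp
    obtain ⟨A', hA'⟩ := Polynomial.dvd_iff_isRoot.2 h2
    have h3 : A = (1 - Polynomial.X) * (-A') := by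
      rw [hA']; simp only [map_one]; ring
    have h4 : F.map (Int.castRingHom ℚ) *
        (((1 - Polynomial.X) ^ z * B : Polynomial ℚ) : PowerSeries ℚ) =
        ((-A' : Polynomial ℚ) : PowerSeries ℚ) := by
      refine mul_left_cancel₀ hX ?_
      have h5 := hAB
      rw [h3, pow_succ] at h5
      simp only [Polynomial.coe_mul, Polynomial.coe_sub, Polynomial.coe_one, Polynomial.coe_X,
        Polynomial.coe_pow] at h5 ⊢
      rw [← h5]
      ring
    obtain ⟨A1, h6, h7⟩ := ih (-A') h4
    refine ⟨A1, ?_, h7⟩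
    rw [h3, h6, pow_succ]
    ring

end Pool.Agent.TZ
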