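import Pool.Agent.TZ.LR
import Pool.Agent.TZ.LI
import Pool.Agent.TZ.WV

set_option autoImplicit false

/-! The tower of the free nilpotent Lie algebra of class at most 4. -/

namespace Pool.Agent.TZ

theorem wittFn_one (d : ℕ) : wittFn d 1 = d := by
  simp [wittFn]

private theorem toNat_pow_sub (d a b : ℕ) (hab : b ≤ a) (hb : 1 ≤ b) :
    ((d : ℤ) ^ a - (d : ℤ) ^ b).toNat = d ^ a - d ^ b := by
  have h : d ^ b ≤ d ^ a := by
    rcases Nat.eq_zero_or_pos d with h0 | h0
    · subst h0
      rw [Nat.zero_pow (by omega), Nat.zero_pow (by omega)]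
    · exact Nat.pow_le_pow_right h0 hab
  have : ((d : ℤ) ^ a - (d : ℤ) ^ b) = ((d ^ a - d ^ b : ℕ) : ℤ) := by
    rw [Nat.cast_sub h]; push_cast; rfl
  rw [this, Int.toNat_natCast]

private theorem divisors_two : Nat.divisors 2 = {1, 2} := by decide
private theorem divisors_three : Nat.divisors 3 = {1, 3} := by decide
private theorem divisors_four : Nat.divisors 4 = {1, 2, 4} := by decide

private theorem moebius_two : ArithmeticFunction.moebius 2 = -1 :=
  ArithmeticFunction.moebius_apply_prime Nat.prime_two
private theorem moebius_three : ArithmeticFunction.moebius 3 = -1 :=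
  ArithmeticFunction.moebius_apply_prime Nat.prime_three
private theorem moebius_four : ArithmeticFunction.moebius 4 = 0 := by
  apply ArithmeticFunction.moebius_eq_zero_of_not_squarefree
  intro h
  have := h 2 ⟨1, by norm_num⟩
  simp at this

theorem wittFn_two (d : ℕ) : wittFn d 2 * 2 = d ^ 2 - d := by
  have h1 : wittFn d 2 = (d ^ 2 - d) / 2 := by
    unfold wittFn
    rw [divisors_two, Finset.sum_pair (by norm_num), moebius_two]
    have := toNat_pow_sub d 2 1 (by norm_num) le_rfl
    rw [pow_one, pow_one] at this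
    rw [← this]
    congr 2
    simp
    ring
  rw [h1]
  apply Nat.div_mul_cancel
  have : d ^ 2 - d = d * (d - 1) := by
    rcases d with - | d
    · rfl
    · rw [Nat.add_sub_cancel]
      have : (d + 1) ^ 2 = (d + 1) * d + (d + 1) := by ring
      omega
  rw [this]
  exact (Nat.even_mul_pred_self d).two_dvd

theorem wittFn_three (d : ℕ) : wittFn d 3 * 3 = d ^ 3 - d := by
  have h1 : wittFn d 3 = (d ^ 3 - d) / 3 := by
    unfold wittFn
    rw [divisors_three, Finset.sum_pair (by norm_num), moebius_three]
    have := toNat_pow_sub d 3 1 (by norm_num) le_rfl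
    rw [pow_one, pow_one] at this
    rw [← this]
    congr 2
    simp
    ring
  rw [h1]
  apply Nat.div_mul_cancel
  have hle : d ≤ d ^ 3 := Nat.le_self_pow (by norm_num) d
  rw [← Nat.modEq_iff_dvd' hle, Nat.ModEq]
  have : d % 3 = 0 ∨ d % 3 = 1 ∨ d % 3 = 2 := by omega
  rcases this with h | h | h <;> simp [Nat.pow_mod, h]

theorem wittFn_four (d : ℕ) : wittFn d 4 * 4 = d ^ 4 - d ^ 2 := by
  have h1 : wittFn d 4 = (d ^ 4 - d ^ 2) / 4 := by
    unfold wittFn
    rw [divisors_four, Finset.sum_insert (by decide), Finset.sum_pair (by norm_num), moebius_two,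
      moebius_four]
    have := toNat_pow_sub d 4 2 (by norm_num) (by norm_num)
    rw [← this]
    congr 2
    simp
    ring
  rw [h1]
  apply Nat.div_mul_cancel
  have hle : d ^ 2 ≤ d ^ 4 := by
    rcases Nat.eq_zero_or_pos d with h0 | h0
    · subst h0; norm_num
    · exact Nat.pow_le_pow_right h0 (by norm_num)
  rw [← Nat.modEq_iff_dvd' hle, Nat.ModEq]
  have : d % 4 = 0 ∨ d % 4 = 1 ∨ d % 4 = 2 ∨ d % 4 = 3 := by omega
  rcases this with h | h | h | h <;> simp [Nat.pow_mod, h]

theorem wittFn_pos {d i : ℕ} (hd : 2 ≤ d) (h1 : 1 ≤ i) (h4 : i ≤ 4) : 1 ≤ wittFn d i := by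
  have hpow : ∀ a b : ℕ, b < a → d ^ b < d ^ a := fun a b h =>
    Nat.pow_lt_pow_right (by omega) h
  interval_cases i
  · rw [wittFn_one]; omega
  · have h := wittFn_two d
    have := hpow 2 1 (by norm_num)
    rw [pow_one] at this
    omega
  · have h := wittFn_three d
    have := hpow 3 1 (by norm_num)
    rw [pow_one] at this
    omega
  · have h := wittFn_four d
    have := hpow 4 2 (by norm_num)
    omega

theorem tower_lie {o : Type} [CommRing o] [IsDomain o] [IsDiscreteValuationRing o] [CharZero o]
    {p q : ℕ} (h : RingHyp o p q) (hp : 5 ≤ p) {c d : ℕ} (hc : c ≤ 4) (hd : 2 ≤ d) :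
    TowerHyp o p c d (LM o d) (adL o d) (fun i => wittFn d (i + 1)) := by
  have hu : ∀ n : ℕ, 1 ≤ n → n ≤ 4 → IsUnit (n : o) := fun n h1 h4 =>
    isUnit_natCast h n (fun hdvd => by
      have := Nat.le_of_dvd (by omega) hdvd
      omega)
  have hu1 : ∀ i, i < c → IsUnit ((i + 1 : ℕ) : o) := fun i hi => hu (i + 1) (by omega) (by omega)
  have h2 : IsUnit (2 : o) := by simpa using hu 2 (by norm_num) (by norm_num)
  have h3 : IsUnit (3 : o) := by simpa using hu 3 (by norm_num) (by norm_num)
  have h4 : IsUnit (4 : o) := by simpa using hu 4 (by norm_num) (by norm_num)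
  refine
    { free := fun i hi => free_LM i (hu1 i hi)
      fin := fun i hi => finite_LM i (hu1 i hi)
      rank := ?_
      pos := fun i hi => wittFn_pos hd (by omega) (by omega)
      gen := fun i _ => br_adL i
      cent := fun i hi x hx => cent_lie hd i (hu1 i (by omega)) (p : o) x hx
      act := ?_ }
  · intro i hi
    have hi4 : i < 4 := by omega
    interval_cases i
    · rw [rank_zero, wittFn_one]
    · have a := rank_one (d := d) h2
      have b := wittFn_two d
      simp only [Nat.reduceAdd]
      omega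
    · have a := rank_two (d := d) h3
      have b := wittFn_three d
      simp only [Nat.reduceAdd]
      omega
    · have a := rank_three (d := d) h4
      have b := wittFn_four d
      simp only [Nat.reduceAdd]
      omega
  · refine ⟨fun i => rhoL o d i, ?_, ?_, ?_⟩
    · intro i _ g N
      exact br_map_rhoL i g N
    · intro i _ n g hg x
      obtain ⟨X, hX⟩ := hg
      obtain ⟨y, hy⟩ := phiG_congr ((p : o) ^ n) X i x
      refine ⟨y, ?_⟩
      apply Subtype.ext
      rw [rhoL_apply, actL_apply, hX, hy]
      rfl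
    · intro i hi k hk
      refine ⟨k * (i + 1), fun N hN hst x => ?_⟩
      exact irr_lie h.irr h2 h3 i (by omega) k hk N hN hst x

end Pool.Agent.TZ
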