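import Pool.Agent.TZ.PR

set_option autoImplicit false

/-! Graded tuples in terms of primitive tuples and free parameters. -/

namespace Pool.Agent.TZ

/-- The least `v` with `p ^ v X ≤ N`. -/
noncomputable def vd {o : Type} [CommRing o] {M : Type} [AddCommGroup M] [Module o M] (p : ℕ)
    (X N : Submodule o M) : ℕ :=
  sInf {v : ℕ | ∀ x ∈ X, (p : o) ^ v • x ∈ N}

/-- The weight of a tuple of primitive sublattices. -/
noncomputable def wt {o : Type} [CommRing o] [IsDomain o] [IsDiscreteValuationRing o] (q p : ℕ)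
    (W : ℕ → ℕ) {c d : ℕ} {M : ℕ → Type} [∀ i, AddCommGroup (M i)] [∀ i, Module o (M i)]
    (ad : ∀ i, Fin d → M i →ₗ[o] M (i + 1)) (L : ∀ i : Fin c, Prim o p (M i)) : ℕ :=
  ∑ i, len q (L i).1 +
    ∑ k : Fin c, if h : (k : ℕ) + 1 < c then
      (∑ i ∈ Finset.range (k + 1), W i) * vd p (br (ad k) (L k).1) (L ⟨k + 1, h⟩).1 else 0

variable {o : Type} [CommRing o] [IsDomain o] [IsDiscreteValuationRing o] {p q : ℕ}

theorem TU.vd_le_iff (h : RingHyp o p q) {M : Type} [AddCommGroup M] [Module o M]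
    [Module.Finite o M] (X : Submodule o M) (N : Prim o p M) (v : ℕ) :
    vd p X N.1 ≤ v ↔ ∀ x ∈ X, (p : o) ^ v • x ∈ N.1 := by
  have hne : {v : ℕ | ∀ x ∈ X, (p : o) ^ v • x ∈ N.1}.Nonempty := by
    obtain ⟨n, hn⟩ := lat_pow_mem h N.1 N.2.1
    exact ⟨n, fun x _ => hn x⟩
  constructor
  · intro hv x hx
    have h1 := Nat.sInf_mem hne
    obtain ⟨r, rfl⟩ := Nat.exists_eq_add_of_le hv
    rw [add_comm, pow_add, mul_smul]
    exact N.1.smul_mem _ (h1 x hx)
  · intro hv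
    exact Nat.sInf_le hv

theorem TU.smul_cancel (h : RingHyp o p q) {M : Type} [AddCommGroup M] [Module o M]
    [Module.Free o M] (a : ℕ) {x y : M} (hxy : (p : o) ^ a • x = (p : o) ^ a • y) : x = y := by
  have hp : (p : o) ^ a ≠ 0 := pow_ne_zero _ h.irr.ne_zero
  have h0 : (p : o) ^ a • (x - y) = 0 := by rw [smul_sub, hxy, sub_self]
  have h1 := (smul_eq_zero_iff_right hp).1 h0
  exact sub_eq_zero.1 h1

/-- Key equivalence: `p ^ a N` has brackets in `p ^ b N'` iff `b + vd ≤ a`. -/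
theorem bracket_iff (h : RingHyp o p q) {M M' : Type} [AddCommGroup M] [Module o M]
    [AddCommGroup M'] [Module o M'] [Module.Free o M] [Module.Finite o M] [Module.Free o M']
    [Module.Finite o M'] {d : ℕ} (ad : Fin d → M →ₗ[o] M')
    (cent : ∀ x : M, (∀ j, ∃ y : M', ad j x = (p : o) • y) → ∃ y : M, x = (p : o) • y)
    (N : Prim o p M) (N' : Prim o p M') (a b : ℕ) :
    (∀ j, ∀ x ∈ N.1, ∃ y ∈ N'.1, ad j ((p : o) ^ a • x) = (p : o) ^ b • y) ↔
      b + vd p (br ad N.1) N'.1 ≤ a := by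
  constructor
  · intro H
    rcases le_or_gt b a with hab | hab
    · obtain ⟨r, rfl⟩ := Nat.exists_eq_add_of_le hab
      have : vd p (br ad N.1) N'.1 ≤ r := by
        rw [TU.vd_le_iff h]
        intro x hx
        have hle : br ad N.1 ≤ N'.1.comap (LinearMap.lsmul o M' ((p : o) ^ r)) := by
          unfold br
          refine iSup_le fun j => ?_
          rw [Submodule.map_le_iff_le_comap]
          intro x hx
          obtain ⟨y, hy, hxy⟩ := H j x hx
          rw [map_smul, pow_add, mul_smul] at hxy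
          have := TU.smul_cancel h b hxy
          show (p : o) ^ r • ad j x ∈ N'.1
          rw [this]
          exact hy
        exact hle hx
      omega
    · exfalso
      apply N.2.2
      intro x hx
      apply cent
      intro j
      obtain ⟨y, hy, hxy⟩ := H j x hx
      obtain ⟨r, rfl⟩ := Nat.exists_eq_add_of_lt hab
      rw [map_smul, add_assoc, pow_add, mul_smul] at hxy
      have := TU.smul_cancel h a hxy
      refine ⟨(p : o) ^ r • y, ?_⟩
      rw [this, pow_succ', mul_smul]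
  · intro hle j x hx
    obtain ⟨r, rfl⟩ := Nat.exists_eq_add_of_le hle
    have h1 : vd p (br ad N.1) N'.1 ≤ vd p (br ad N.1) N'.1 + r := Nat.le_add_right _ _
    rw [TU.vd_le_iff h] at h1
    refine ⟨(p : o) ^ (vd p (br ad N.1) N'.1 + r) • ad j x, h1 _ ?_, ?_⟩
    · exact Submodule.mem_iSup_of_mem j (Submodule.mem_map_of_mem hx)
    · rw [map_smul, ← mul_smul, ← pow_add, add_assoc]

theorem wt_finite (h : RingHyp o p q) {c d : ℕ} {M : ℕ → Type} [∀ i, AddCommGroup (M i)]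
    [∀ i, Module o (M i)] {ad : ∀ i, Fin d → M i →ₗ[o] M (i + 1)} {W : ℕ → ℕ}
    (H : TowerHyp o p c d M ad W) (n : ℕ) :
    Finite {L : ∀ i : Fin c, Prim o p (M i) // wt q p W ad L = n} := by
  have h1 : ∀ m, Finite {L : ∀ i : Fin c, Prim o p (M i) // ∑ i, len q (L i).1 = m} := by
    intro m
    refine finite_pi (X := fun i : Fin c => Prim o p (M i)) (fun i N => len q N.1) ?_ m
    intro i k
    have := H.free i i.2
    have := H.fin i i.2
    exact prim_finite h k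
  have h2 : {L : ∀ i : Fin c, Prim o p (M i) | ∑ i, len q (L i).1 ≤ n}.Finite := by
    have : {L : ∀ i : Fin c, Prim o p (M i) | ∑ i, len q (L i).1 ≤ n} ⊆
        ⋃ m ∈ Finset.range (n + 1), {L : ∀ i : Fin c, Prim o p (M i) | ∑ i, len q (L i).1 = m} := by
      intro L hL
      simp only [Set.mem_iUnion, Finset.mem_range, Set.mem_ofPred_eq] at hL ⊢
      exact ⟨_, Nat.lt_succ_of_le hL, rfl⟩
    refine Set.Finite.subset (Set.Finite.biUnion (Finset.finite_toSet _) ?_) this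
    intro m _
    exact h1 m
  have h3 : {L : ∀ i : Fin c, Prim o p (M i) | wt q p W ad L = n}.Finite := by
    refine h2.subset ?_
    intro L hL
    simp only [Set.mem_ofPred_eq] at hL ⊢
    rw [← hL]
    exact Nat.le_add_right _ _
  exact h3

section tail

variable {c : ℕ}

/-- Tail sums. -/
def TU.tl (f : Fin c → ℕ) (i : ℕ) : ℕ := ∑ k : Fin c, if i ≤ (k : ℕ) then f k else 0

/-- Extension by zero. -/
def TU.ex (e : Fin c → ℕ) (i : ℕ) : ℕ := if h : i < c then e ⟨i, h⟩ else 0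

theorem TU.tl_ge (f : Fin c → ℕ) {i : ℕ} (hi : c ≤ i) : TU.tl f i = 0 := by
  unfold TU.tl
  refine Finset.sum_eq_zero fun k _ => ?_
  rw [if_neg]
  have := k.2
  omega

theorem TU.tl_succ (f : Fin c → ℕ) (i : Fin c) : TU.tl f i = f i + TU.tl f (i + 1) := by
  unfold TU.tl
  rw [← Finset.sum_erase_add _ _ (Finset.mem_univ i), if_pos le_rfl, add_comm]
  congr 1
  rw [← Finset.sum_erase_add (Finset.univ) (fun k : Fin c => if (i : ℕ) + 1 ≤ (k : ℕ) then f k else 0)
    (Finset.mem_univ i), if_neg (by omega), add_zero]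
  refine Finset.sum_congr rfl fun k hk => ?_
  have hki : (k : ℕ) ≠ i := fun h => (Finset.ne_of_mem_erase hk) (Fin.ext h)
  by_cases h1 : (i : ℕ) ≤ k
  · rw [if_pos h1, if_pos (by omega)]
  · rw [if_neg h1, if_neg (by omega)]

/-- Telescoping: a function is the tail sum of its differences. -/
theorem TU.tl_diff (e f : Fin c → ℕ) (hf : ∀ k : Fin c, e k = f k + TU.ex e (k + 1)) (i : ℕ) :
    TU.tl f i = TU.ex e i := by
  by_cases hi : i < c
  · obtain ⟨r, hr⟩ := Nat.exists_eq_add_of_lt hi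
    induction r generalizing i with
    | zero =>
      have h1 := TU.tl_succ f ⟨i, hi⟩
      rw [TU.tl_ge f (i := (⟨i, hi⟩ : Fin c) + 1) (by simp; omega)] at h1
      have h2 := hf ⟨i, hi⟩
      have h3 : TU.ex e ((⟨i, hi⟩ : Fin c) + 1) = 0 := by
        unfold TU.ex
        rw [dif_neg (by simp; omega)]
      rw [h3] at h2
      unfold TU.ex
      rw [dif_pos hi]
      simp only at h1 h2
      omega
    | succ r ih =>
      have hi' : i + 1 < c := by omega
      have h1 := TU.tl_succ f ⟨i, hi⟩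
      have h2 := hf ⟨i, hi⟩
      have h3 := ih (i + 1) hi' (by omega)
      simp only at h1 h2 h3
      rw [h1, h3]
      conv_rhs => unfold TU.ex
      rw [dif_pos hi]
      omega
  · rw [TU.tl_ge f (by omega)]
    unfold TU.ex
    rw [dif_neg hi]

/-- Weighted sum of tail sums. -/
theorem TU.sum_tl (W : ℕ → ℕ) (f : Fin c → ℕ) :
    ∑ i : Fin c, W i * TU.tl f i = ∑ k : Fin c, (∑ i ∈ Finset.range ((k : ℕ) + 1), W i) * f k := by
  unfold TU.tl
  simp only [Finset.mul_sum]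
  rw [Finset.sum_comm]
  refine Finset.sum_congr rfl fun k _ => ?_
  rw [Finset.sum_mul]
  have h1 : ∀ i : Fin c, (W i * if (i : ℕ) ≤ (k : ℕ) then f k else 0) =
      (fun i : ℕ => if i ≤ (k : ℕ) then W i * f k else 0) i := by
    intro i
    simp only
    split_ifs <;> simp
  rw [Finset.sum_congr rfl fun i _ => h1 i,
    Fin.sum_univ_eq_sum_range (fun i : ℕ => if i ≤ (k : ℕ) then W i * f k else 0) c,
    ← Finset.sum_filter]
  refine Finset.sum_congr ?_ fun _ _ => rfl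
  ext i
  have := k.2
  simp only [Finset.mem_filter, Finset.mem_range]
  omega

/-- Parametrisation of the exponents. -/
def TU.parEquiv (v : Fin c → ℕ) (hv : ∀ k : Fin c, ¬ ((k : ℕ) + 1 < c) → v k = 0) :
    {e : Fin c → ℕ // ∀ (i : ℕ) (h : i + 1 < c), e ⟨i + 1, h⟩ + v ⟨i, Nat.lt_of_succ_lt h⟩ ≤
      e ⟨i, Nat.lt_of_succ_lt h⟩} ≃ (Fin c → ℕ) where
  toFun e := fun k => e.1 k - (TU.ex e.1 (k + 1) + v k)
  invFun n := ⟨fun i => TU.tl (fun k => n k + v k) i, by
    intro i h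
    have h1 := TU.tl_succ (fun k => n k + v k) ⟨i, Nat.lt_of_succ_lt h⟩
    simp only at h1 ⊢
    omega⟩
  left_inv := by
    rintro ⟨e, he⟩
    have key : ∀ k : Fin c, TU.ex e (k + 1) + v k ≤ e k := by
      intro k
      unfold TU.ex
      by_cases hk : (k : ℕ) + 1 < c
      · rw [dif_pos hk]
        exact he k hk
      · rw [dif_neg hk, hv k hk]
        exact Nat.zero_le _
    apply Subtype.ext
    funext i
    simp only
    rw [TU.tl_diff e _ (fun k => by have := key k; omega)]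
    unfold TU.ex
    rw [dif_pos i.2]
  right_inv := by
    intro n
    funext k
    simp only
    have h1 := TU.tl_succ (fun k => n k + v k) k
    have h2 : TU.ex (fun i : Fin c => TU.tl (fun k => n k + v k) i) ((k : ℕ) + 1) =
        TU.tl (fun k => n k + v k) ((k : ℕ) + 1) := by
      unfold TU.ex
      split_ifs with h
      · rfl
      · rw [TU.tl_ge _ (by omega)]
    rw [h2]
    omega

end tail

theorem gf_tup (h : RingHyp o p q) {c d : ℕ} {M : ℕ → Type} [∀ i, AddCommGroup (M i)]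
    [∀ i, Module o (M i)] {ad : ∀ i, Fin d → M i →ₗ[o] M (i + 1)} {W : ℕ → ℕ}
    (H : TowerHyp o p c d M ad W) :
    gf (fun I : Tup (c := c) ad => ∑ i, len q (I.1 i).1) *
      ∏ k : Fin c, (1 - PowerSeries.X ^ (∑ i ∈ Finset.range ((k : ℕ) + 1), W i)) =
      gf (wt (c := c) q p W ad) := by
  classical
  have hE : ∀ i : Fin c, ∃ e : Lat o (M i) ≃ Prim o p (M i) × ℕ, ∀ N : Lat o (M i),
      (∀ x : M i, x ∈ N.1 ↔ ∃ y ∈ (e N).1.1, x = (p : o) ^ (e N).2 • y) ∧
      len q N.1 = len q (e N).1.1 + W i * (e N).2 := by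
    intro i
    have := H.free i i.2
    have := H.fin i i.2
    obtain ⟨e, he⟩ := exists_prim_equiv h (M := M i) (by rw [H.rank i i.2]; exact H.pos i i.2)
    rw [H.rank i i.2] at he
    exact ⟨e, he⟩
  choose E hE1 using hE
  let v : (∀ i : Fin c, Prim o p (M i)) → Fin c → ℕ := fun L k =>
    if h : (k : ℕ) + 1 < c then vd p (br (ad k) (L k).1) (L ⟨k + 1, h⟩).1 else 0
  have hv : ∀ L, ∀ k : Fin c, ¬ ((k : ℕ) + 1 < c) → v L k = 0 := fun L k hk => dif_neg hk
  let F : (∀ i : Fin c, Lat o (M i)) ≃ (∀ i : Fin c, Prim o p (M i)) × (Fin c → ℕ) :=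
    (Equiv.piCongrRight E).trans (Equiv.arrowProdEquivProdArrow (Fin c)
      (fun i => Prim o p (M i)) (fun _ => ℕ))
  let P : (∀ i : Fin c, Prim o p (M i)) → (Fin c → ℕ) → Prop := fun L e =>
    ∀ (i : ℕ) (h : i + 1 < c), e ⟨i + 1, h⟩ + v L ⟨i, Nat.lt_of_succ_lt h⟩ ≤
      e ⟨i, Nat.lt_of_succ_lt h⟩
  have hF : ∀ I : ∀ i : Fin c, Lat o (M i), (∀ (i : ℕ) (h : i + 1 < c), ∀ j : Fin d,
      ∀ x ∈ (I ⟨i, Nat.lt_of_succ_lt h⟩).1, ad i j x ∈ (I ⟨i + 1, h⟩).1) ↔
      P (F I).1 (F I).2 := by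
    intro I
    refine forall_congr' fun i => forall_congr' fun hi => ?_
    have hi0 : i < c := Nat.lt_of_succ_lt hi
    have := H.free i hi0
    have := H.fin i hi0
    have := H.free (i + 1) hi
    have := H.fin (i + 1) hi
    have key := bracket_iff h (ad i) (H.cent i hi) (E ⟨i, hi0⟩ (I ⟨i, hi0⟩)).1
      (E ⟨i + 1, hi⟩ (I ⟨i + 1, hi⟩)).1 (E ⟨i, hi0⟩ (I ⟨i, hi0⟩)).2
      (E ⟨i + 1, hi⟩ (I ⟨i + 1, hi⟩)).2
    have hvv : v (F I).1 ⟨i, hi0⟩ = vd p (br (ad i) (E ⟨i, hi0⟩ (I ⟨i, hi0⟩)).1.1)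
      (E ⟨i + 1, hi⟩ (I ⟨i + 1, hi⟩)).1.1 := dif_pos hi
    rw [hvv]
    refine Iff.trans ?_ key
    refine forall_congr' fun j => ?_
    constructor
    · intro H1 x hx
      have h1 := ((hE1 ⟨i, hi0⟩ (I ⟨i, hi0⟩)).1 ((p : o) ^ (E ⟨i, hi0⟩ (I ⟨i, hi0⟩)).2 • x)).2
        ⟨x, hx, rfl⟩
      have h2 := H1 _ h1
      exact ((hE1 ⟨i + 1, hi⟩ (I ⟨i + 1, hi⟩)).1 _).1 h2
    · intro H1 x hx
      obtain ⟨y, hy, rfl⟩ := ((hE1 ⟨i, hi0⟩ (I ⟨i, hi0⟩)).1 x).1 hx
      exact ((hE1 ⟨i + 1, hi⟩ (I ⟨i + 1, hi⟩)).1 _).2 (H1 y hy)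
  let Φ : Tup (c := c) ad ≃ (∀ i : Fin c, Prim o p (M i)) × (Fin c → ℕ) :=
    (Equiv.subtypeEquiv F hF).trans ((Equiv.subtypeProdEquivSigmaSubtype P).trans
      ((Equiv.sigmaCongrRight fun L => TU.parEquiv (v L) (hv L)).trans (Equiv.sigmaEquivProd _ _)))
  have hΦ : ∀ (z : (∀ i : Fin c, Prim o p (M i)) × (Fin c → ℕ)) (i : Fin c),
      (Φ.symm z).1 i = (E i).symm (z.1 i, TU.tl (fun k => z.2 k + v z.1 k) i) := fun z i => rfl
  rw [← gf_equiv Φ.symm (fun I : Tup (c := c) ad => ∑ i, len q (I.1 i).1)]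
  have hwt : (fun z : (∀ i : Fin c, Prim o p (M i)) × (Fin c → ℕ) =>
      ∑ i, len q ((Φ.symm z).1 i).1) = fun z => wt (c := c) q p W ad z.1 +
        ∑ k : Fin c, (∑ i ∈ Finset.range ((k : ℕ) + 1), W i) * z.2 k := by
    funext z
    have h1 : ∀ i : Fin c, len q ((Φ.symm z).1 i).1 =
        len q (z.1 i).1 + W i * TU.tl (fun k => z.2 k + v z.1 k) i := by
      intro i
      rw [hΦ]
      have := (hE1 i ((E i).symm (z.1 i, TU.tl (fun k => z.2 k + v z.1 k) i))).2
      rw [Equiv.apply_symm_apply] at this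
      exact this
    rw [Finset.sum_congr rfl fun i _ => h1 i, Finset.sum_add_distrib, TU.sum_tl]
    unfold wt
    rw [add_assoc]
    congr 1
    rw [← Finset.sum_add_distrib]
    refine Finset.sum_congr rfl fun k _ => ?_
    rw [mul_add, add_comm]
    congr 1
    by_cases hk : (k : ℕ) + 1 < c
    · rw [dif_pos hk]
      congr 1
      exact dif_pos hk
    · rw [dif_neg hk, hv _ _ hk, mul_zero]
  rw [hwt]
  refine gf_prod_pi_nat _ (wt_finite h H) _ ?_
  intro k
  refine Finset.sum_pos (fun i hi => ?_) ⟨0, by simp⟩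
  rw [Finset.mem_range] at hi
  exact H.pos i (by have := k.2; omega)

end Pool.Agent.TZ
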